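import Mathlib
import Pool.Agent.R351.GF.Tup

/-!
# Linear forms in algebraically independent elements; classes of sequences
-/

set_option autoImplicit false

namespace Pool.Agent.Zk39.PV

open Filter Pool.Agent.R351.GF

/-- **Linearly independent linear forms in algebraically independent elements are algebraically independent.** -/
theorem lin_indep {F : Type} [Field F] (R : Subring F) {ι κ : Type} [Fintype ι] [DecidableEq ι]
    [Fintype κ] [DecidableEq κ] (φ : κ → F) (hφ : AlgebraicIndependent R φ) (c : ι → κ → R)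
    (hc : ∀ v : ι → R, (∀ s, ∑ a, v a * c a s = 0) → v = 0) :
    AlgebraicIndependent R (fun a => ∑ s, (c a s : F) * φ s) := by
  classical
  let K := FractionRing R
  set cK : ι → κ → K := fun a s => algebraMap R K (c a s) with hcK
  have hinj : Function.Injective (algebraMap R K) := IsFractionRing.injective R K
  have h1 : LinearIndependent R cK := by
    rw [Fintype.linearIndependent_iff]
    intro v hv a
    have h2 : v = 0 := by
      apply hc
      intro s
      have h3 := congrFun hv s
      apply hinj
      rw [map_sum, map_zero]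
      simp only [Finset.sum_apply, Pi.smul_apply, Algebra.smul_def, Pi.zero_apply] at h3
      rw [← h3]
      exact Finset.sum_congr rfl fun a _ => by rw [map_mul]; rfl
    rw [h2]
    rfl
  have h2 : LinearIndependent K cK := (LinearIndependent.iff_fractionRing R K).1 h1
  obtain ⟨D, hD⟩ := (Fintype.linearCombination K cK).exists_leftInverse_of_injective
    (LinearMap.ker_eq_bot'.2 fun v hv => by
      funext a
      exact Fintype.linearIndependent_iff.1 h2 v hv a)
  have hD1 : ∀ a, D (cK a) = Pi.single a 1 := by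
    intro a
    have h3 := LinearMap.congr_fun hD (Pi.single a 1)
    rw [LinearMap.comp_apply, LinearMap.id_apply] at h3
    rw [← h3]
    congr 1
    rw [Fintype.linearCombination_apply]
    simp [Pi.single_apply, ite_smul]
  set sub : MvPolynomial ι R →ₐ[R] MvPolynomial (κ) R :=
    MvPolynomial.aeval (fun a => ∑ s, MvPolynomial.C (c a s) * MvPolynomial.X s) with hsub
  set back : MvPolynomial (κ) K →ₐ[K] MvPolynomial ι K :=
    MvPolynomial.aeval (fun s => ∑ b, MvPolynomial.C (D (Pi.single s 1) b) * MvPolynomial.X b) with hback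
  have hcomp : ∀ P : MvPolynomial ι R, back (MvPolynomial.map (algebraMap R K) (sub P)) =
      MvPolynomial.map (algebraMap R K) P := by
    intro P
    have h3 : (back.toRingHom.comp ((MvPolynomial.map (algebraMap R K)).comp sub.toRingHom)) =
        (MvPolynomial.map (algebraMap R K) : MvPolynomial ι R →+* MvPolynomial ι K) := by
      apply MvPolynomial.ringHom_ext
      · intro x
        simp [hsub, hback]
      · intro a
        simp only [AlgHom.toRingHom_eq_coe, RingHom.coe_comp, RingHom.coe_coe, Function.comp_apply, hsub,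
          MvPolynomial.aeval_X, map_sum, map_mul, MvPolynomial.map_C, MvPolynomial.map_X, hback,
          MvPolynomial.algHom_C, MvPolynomial.algebraMap_eq]
        have h4 : ∀ b, ∑ s, cK a s * D (Pi.single s 1) b = (Pi.single a 1 : ι → K) b := by
          intro b
          rw [← hD1 a]
          conv_rhs => rw [← Finset.univ_sum_single (cK a)]
          rw [map_sum, Finset.sum_apply]
          refine Finset.sum_congr rfl fun s _ => ?_
          have h5 : (Pi.single s (cK a s) : κ → K) = cK a s • Pi.single s 1 := by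
            rw [← Pi.single_smul, smul_eq_mul, mul_one]
          rw [h5, map_smul, Pi.smul_apply, smul_eq_mul]
        calc ∑ s, MvPolynomial.C (algebraMap R K (c a s)) *
              ∑ b, MvPolynomial.C (D (Pi.single s 1) b) * MvPolynomial.X b
            = ∑ b, MvPolynomial.C (∑ s, cK a s * D (Pi.single s 1) b) * MvPolynomial.X b := by
              simp only [Finset.mul_sum, map_sum, Finset.sum_mul]
              rw [Finset.sum_comm]
              refine Finset.sum_congr rfl fun b _ => Finset.sum_congr rfl fun s _ => ?_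
              rw [← mul_assoc, ← map_mul]
          _ = MvPolynomial.X a := by
              simp only [h4]
              rw [Finset.sum_eq_single a]
              · simp
              · intro b _ hb
                rw [Pi.single_eq_of_ne hb, map_zero, zero_mul]
              · intro h; exact absurd (Finset.mem_univ _) h
    exact DFunLike.congr_fun h3 P
  rw [algebraicIndependent_iff]
  intro P hP
  have h3 : MvPolynomial.aeval φ (sub P) = 0 := by
    rw [← hP]
    have h4 : ((MvPolynomial.aeval φ : MvPolynomial (κ) R →ₐ[R] F).comp sub) =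
        MvPolynomial.aeval (fun a => ∑ s, (c a s : F) * φ s) := by
      apply MvPolynomial.algHom_ext
      intro a
      simp only [AlgHom.comp_apply, hsub, MvPolynomial.aeval_X, map_sum, map_mul, MvPolynomial.aeval_C]
      rfl
    exact AlgHom.congr_fun h4 P
  have h4 : sub P = 0 := (algebraicIndependent_iff.1 hφ) _ h3
  have h5 := hcomp P
  rw [h4, map_zero, map_zero] at h5
  exact (MvPolynomial.map_injective _ hinj) (by rw [← h5, map_zero])

/-! ### Classes -/

section Cls

variable (U : Ultrafilter ℕ) (H : ℕ → ℕ)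

open Classical in
/-- the class of a sequence -/
noncomputable def cls (z : ℕ → ℂ) : Fl U H := if h : z ∈ Os U H then Ideal.Quotient.mk (ms U H) ⟨z, h⟩ else 0

variable {U H} {z w : ℕ → ℂ}

theorem cls_of (h : z ∈ Os U H) : cls U H z = Ideal.Quotient.mk (ms U H) ⟨z, h⟩ := dif_pos h

theorem cls_add (hz : z ∈ Os U H) (hw : w ∈ Os U H) : cls U H (z + w) = cls U H z + cls U H w := by
  rw [cls_of hz, cls_of hw, cls_of ((Os U H).add_mem hz hw), ← map_add]
  rfl

theorem cls_sub (hz : z ∈ Os U H) (hw : w ∈ Os U H) : cls U H (z - w) = cls U H z - cls U H w := by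
  rw [cls_of hz, cls_of hw, cls_of ((Os U H).sub_mem hz hw), ← map_sub]
  rfl

theorem cls_mul (hz : z ∈ Os U H) (hw : w ∈ Os U H) : cls U H (z * w) = cls U H z * cls U H w := by
  rw [cls_of hz, cls_of hw, cls_of ((Os U H).mul_mem hz hw), ← map_mul]
  rfl

theorem cls_sum {ι : Type} (s : Finset ι) (f : ι → ℕ → ℂ) (hf : ∀ i ∈ s, f i ∈ Os U H) :
    (∑ i ∈ s, f i) ∈ Os U H ∧ cls U H (∑ i ∈ s, f i) = ∑ i ∈ s, cls U H (f i) := by
  classical
  induction s using Finset.induction_on with
  | empty =>
    rw [Finset.sum_empty, Finset.sum_empty, cls_of (Os U H).zero_mem]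
    exact ⟨(Os U H).zero_mem, (Ideal.Quotient.mk (ms U H)).map_zero⟩
  | insert a s ha ih =>
    obtain ⟨h1, h2⟩ := ih fun i hi => hf i (Finset.mem_insert_of_mem hi)
    rw [Finset.sum_insert ha, Finset.sum_insert ha]
    exact ⟨(Os U H).add_mem (hf a (Finset.mem_insert_self _ _)) h1,
      by rw [cls_add (hf a (Finset.mem_insert_self _ _)) h1, h2]⟩

theorem Os_congr (h : ∀ᶠ j in (U : Filter ℕ), z j = w j) (hz : z ∈ Os U H) : w ∈ Os U H := by
  obtain ⟨C, hC⟩ := hz
  refine ⟨C, ?_⟩
  filter_upwards [h, hC] with j h1 h2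
  rwa [← h1]

theorem cls_congr (h : ∀ᶠ j in (U : Filter ℕ), z j = w j) : cls U H z = cls U H w := by
  by_cases hz : z ∈ Os U H
  · have hw := Os_congr h hz
    rw [cls_of hz, cls_of hw, ← sub_eq_zero, ← map_sub, Ideal.Quotient.eq_zero_iff_mem, mem_ms]
    intro C
    filter_upwards [h] with j hj
    have h1 : ((((⟨z, hz⟩ : Os U H) - ⟨w, hw⟩ : Os U H)) : ℕ → ℂ) j = z j - w j := rfl
    rw [h1, hj, sub_self, norm_zero, zero_mul]
    exact zero_le_one
  · have hw : w ∉ Os U H := fun hw => hz (Os_congr (h.mono fun _ h => h.symm) hw)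
    rw [cls, dif_neg hz, cls, dif_neg hw]

theorem cls_zero_iff (hz : z ∈ Os U H) :
    cls U H z = 0 ↔ ∀ C : ℕ, ∀ᶠ j in (U : Filter ℕ), ‖z j‖ * gr H j ^ C ≤ 1 := by
  rw [cls_of hz, Ideal.Quotient.eq_zero_iff_mem, mem_ms]

theorem cls_int (n : IZ U H) : cls U H (fun j => (((n : ℕ → ℤ) j : ℤ) : ℂ)) = psi U H n := by
  have h : (fun j => (((n : ℕ → ℤ) j : ℤ) : ℂ)) ∈ Os U H := (izo U H n).2
  rw [cls_of h]
  rfl

theorem int_Os {n : ℕ → ℤ} (h : n ∈ IZ U H) : (fun j => ((n j : ℤ) : ℂ)) ∈ Os U H := h

theorem const_Os (c : ℂ) : (fun _ => c) ∈ Os U H := by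
  obtain ⟨C, hC⟩ := pow_unbounded_of_one_lt ‖c‖ (by norm_num : (1 : ℝ) < 2)
  exact ⟨C, Eventually.of_forall fun j => hC.le.trans (pow_le_pow_left₀ (by norm_num) (gr_two H j) _)⟩

end Cls

end Pool.Agent.Zk39.PV
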