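import Mathlib
import Pool.Agent.Zk39.PV.Lin

/-!
# Algebraic closure relative to a set, chains
-/

set_option autoImplicit false

namespace Pool.Agent.Zk39.PV

open Filter Pool.Agent.R351.GF

section Acl

variable {F : Type} [Field F] (R : Subring F)

/-- the elements which are algebraic over `R[S]`, as a subring -/
def aclR (S : Set F) : Subring F where
  carrier := acl R S
  mul_mem' := fun h h' => acl_mul h h'
  one_mem' := acl_R R.one_mem
  add_mem' := fun h h' => acl_add h h'
  zero_mem' := acl_R R.zero_mem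
  neg_mem' := fun {x} h => by
    have := acl_sub (acl_R (R := R) (S := S) R.zero_mem) h
    rwa [zero_sub] at this

variable {R}

theorem mem_aclR {S : Set F} {x : F} : x ∈ aclR R S ↔ x ∈ acl R S := Iff.rfl

/-- algebraic over a subring of a subring -/
theorem alg_mono {A B : Subring F} (hAB : A ≤ B) {y : F} (h : IsAlgebraic A y) : IsAlgebraic B y := by
  obtain ⟨p, hp0, hp⟩ := h
  have hval : (algebraMap B F).comp (Subring.inclusion hAB) = algebraMap A F := rfl
  refine ⟨p.map (Subring.inclusion hAB), (Polynomial.map_ne_zero_iff (Subring.inclusion_injective hAB)).2 hp0, ?_⟩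
  rw [Polynomial.aeval_def, Polynomial.eval₂_map, hval, ← Polynomial.aeval_def]
  exact hp

/-- algebraic over a subring which is a subalgebra -/
theorem alg_sub {B : Subring F} {A : Subalgebra B F} {y : F} : IsAlgebraic A y ↔ IsAlgebraic A.toSubring y := Iff.rfl

theorem adj_le {S Z : Set F} : (Algebra.adjoin (aclR R S) Z).toSubring ≤ aclR R (S ∪ Z) := by
  intro x hx
  have hx' : x ∈ Algebra.adjoin (aclR R S) Z := hx
  clear hx
  induction hx' using Algebra.adjoin_induction with
  | mem x hx => exact mem_aclR.2 (subset_acl (Or.inr hx))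
  | algebraMap r => exact mem_aclR.2 (acl_mono Set.subset_union_left (mem_aclR.1 r.2))
  | add x y _ _ hx hy => exact (aclR R (S ∪ Z)).add_mem hx hy
  | mul x y _ _ hx hy => exact (aclR R (S ∪ Z)).mul_mem hx hy

theorem le_adj {S : Set F} : aclR R S ≤ (Algebra.adjoin R (acl R S)).toSubring := by
  intro x hx
  have h1 : x ∈ acl R S := mem_aclR.1 hx
  have h2 : x ∈ Algebra.adjoin R (acl R S) := Algebra.subset_adjoin h1
  exact h2

theorem acl_idem {S : Set F} {y : F} (h : y ∈ acl R (acl R S)) : y ∈ acl R S :=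
  acl_of (R := R) (T := acl R S) (S := S) (fun _ h => h) h

theorem acl_tower {S Z : Set F} {y : F} (h : y ∈ acl (aclR R S) Z) : y ∈ acl R (S ∪ Z) := by
  rw [mem_acl] at h
  have h1 := alg_mono (adj_le (R := R) (S := S) (Z := Z)) (alg_sub.1 h)
  have h2 := alg_sub.2 (alg_mono (le_adj (R := R) (S := S ∪ Z)) h1)
  exact acl_idem (mem_acl.2 h2)

/-- **Chains are algebraically independent.** -/
theorem indep_over {S : Set F} {k : ℕ} {z : Fin k → F} (h : ∀ i, z i ∉ acl R (S ∪ z '' {i' | i' < i})) :
    AlgebraicIndependent (aclR R S) z :=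
  indep_of_chain fun i hi => h i (acl_tower hi)

/-- translations -/
theorem chain_translate {S : Set F} {k : ℕ} {z c : Fin k → F} (hc : ∀ i, c i ∈ acl R S)
    (h : ∀ i, z i ∉ acl R (S ∪ z '' {i' | i' < i})) (i : Fin k) :
    z i + c i ∉ acl R (S ∪ (fun i => z i + c i) '' {i' | i' < i}) := by
  intro hi
  apply h i
  have h1 : ∀ i, c i ∈ acl R (S ∪ z '' {i' | i' < i}) := fun i => acl_mono Set.subset_union_left (hc i)
  have h2 : z i + c i ∈ acl R (S ∪ z '' {i' | i' < i}) := by
    refine acl_of ?_ hi
    rintro x (hx | ⟨i', hi', rfl⟩)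
    · exact subset_acl (Or.inl hx)
    · exact acl_add (subset_acl (Or.inr ⟨i', hi', rfl⟩)) (acl_mono Set.subset_union_left (hc i'))
  have h3 := acl_sub h2 (h1 i)
  rwa [add_sub_cancel_right] at h3

/-- **A block without a dependency.** -/
theorem exists_block {k r : ℕ} {x y : Fin k × Fin r → F} (hx : AlgebraicIndependent R x)
    {S S' : Set F} (hSS : S ⊆ S') (hfin : S'.Finite) (hr : S'.ncard < r)
    (hxy : ∀ p, x p ∈ acl R (S' ∪ {y p})) :
    ∃ l : Fin r, ∀ i : Fin k, y (i, l) ∉ acl R (S ∪ (fun i' => y (i', l)) '' {i' | i' < i}) := by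
  classical
  by_contra hcon
  push Not at hcon
  choose i₀ hi₀ using hcon
  rcases Nat.eq_zero_or_pos k with hk | hk
  · subst hk
    exact (i₀ ⟨0, by omega⟩).elim0
  set Y : Finset F := (Finset.univ.filter fun p : Fin k × Fin r => p.1 ≠ i₀ p.2).image y with hY
  have hYcard : Y.card ≤ r * (k - 1) := by
    refine Finset.card_image_le.trans ?_
    have h1 : (Finset.univ.filter fun p : Fin k × Fin r => p.1 ≠ i₀ p.2).card =
        ∑ l : Fin r, (Finset.univ.filter fun i : Fin k => i ≠ i₀ l).card := by
      rw [Finset.card_eq_sum_card_fiberwise (f := fun p : Fin k × Fin r => p.2) (t := Finset.univ)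
        (fun _ _ => Finset.mem_univ _)]
      refine Finset.sum_congr rfl fun l _ => ?_
      apply Finset.card_bij (fun p _ => p.1)
      · intro p hp
        rw [Finset.mem_filter, Finset.mem_filter] at hp
        rw [Finset.mem_filter]
        refine ⟨Finset.mem_univ _, ?_⟩
        rw [← hp.2]
        exact hp.1.2
      · intro p hp p' hp' h
        rw [Finset.mem_filter] at hp hp'
        exact Prod.ext h (hp.2.trans hp'.2.symm)
      · intro i hi
        rw [Finset.mem_filter] at hi
        exact ⟨(i, l), by simp [hi.2], rfl⟩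
    rw [h1]
    refine (Finset.sum_le_card_nsmul _ _ (k - 1) fun l _ => ?_).trans (by simp)
    have h2 : (Finset.univ.filter fun i : Fin k => i ≠ i₀ l) = Finset.univ.erase (i₀ l) := by
      ext i
      simp
    rw [h2, Finset.card_erase_of_mem (Finset.mem_univ _), Finset.card_univ, Fintype.card_fin]
  -- all the elements are in the closure
  have hmem : ∀ p, y p ∈ acl R (S' ∪ (Y : Set F)) := by
    rintro ⟨i, l⟩
    by_cases h : i = i₀ l
    · subst h
      refine acl_of ?_ (hi₀ l)
      rintro z (hz | ⟨i', hi', rfl⟩)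
      · exact subset_acl (Or.inl (hSS hz))
      · refine subset_acl (Or.inr ?_)
        rw [Finset.mem_coe, hY, Finset.mem_image]
        exact ⟨(i', l), by simpa using ne_of_lt hi', rfl⟩
    · refine subset_acl (Or.inr ?_)
      rw [Finset.mem_coe, hY, Finset.mem_image]
      exact ⟨(i, l), by simpa using h, rfl⟩
  have hxm : ∀ p, x p ∈ acl R (S' ∪ (Y : Set F)) := by
    intro p
    refine acl_of ?_ (hxy p)
    rintro z (hz | hz)
    · exact subset_acl (Or.inl hz)
    · rw [Set.mem_singleton_iff] at hz
      rw [hz]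
      exact hmem p
  have hcard : (S' ∪ (Y : Set F)).encard < ((k * r : ℕ) : ℕ∞) := by
    refine lt_of_le_of_lt (Set.encard_union_le _ _) ?_
    rw [← hfin.cast_ncard_eq, Set.encard_coe_eq_coe_finsetCard]
    have h1 : S'.ncard + Y.card < k * r := by
      have h2 : r * (k - 1) + r = k * r := by
        obtain ⟨k', rfl⟩ : ∃ k', k = k' + 1 := ⟨k - 1, by omega⟩
        rw [Nat.add_sub_cancel]
        ring
      omega
    exact_mod_cast h1
  have hx' : AlgebraicIndependent R (x ∘ (finProdFinEquiv.symm : Fin (k * r) ≃ Fin k × Fin r)) :=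
    hx.comp _ (Equiv.injective _)
  obtain ⟨q, hq⟩ := exists_notMem_acl hx' hcard
  exact hq (hxm _)

end Acl

end Pool.Agent.Zk39.PV
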