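import Mathlib
import Pool.Agent.R351.GF.LogQ

/-!
# The logarithm of the value of a monic polynomial at a large number, as the value of a power series
-/

set_option autoImplicit false

open PowerSeries

namespace Pool.Agent.Zk39.PV

open Pool.Agent.Y113 Pool.Agent.Y916

/-- `log (1 - ρ z)` -/
noncomputable def lgc (ρ : ℂ) : ℂ⟦X⟧ := PowerSeries.mk fun m => -(ρ ^ m / m)

/-- `1 - ρ z` -/
noncomputable def li (ρ : ℂ) : ℂ⟦X⟧ := 1 - PowerSeries.C ρ * X

theorem li_deriv (ρ : ℂ) : d⁄dX ℂ (li ρ) = - PowerSeries.C ρ := by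
  unfold li
  rw [map_sub, Derivation.leibniz, PowerSeries.derivative_C, PowerSeries.derivative_X]
  simp

theorem lgc_deriv (ρ : ℂ) : li ρ * d⁄dX ℂ (lgc ρ) = - PowerSeries.C ρ := by
  have h1 : ∀ m, coeff m (d⁄dX ℂ (lgc ρ)) = -(ρ ^ (m + 1)) := by
    intro m
    rw [PowerSeries.coeff_derivative, lgc, coeff_mk]
    have h2 : ((m : ℂ) + 1) ≠ 0 := by exact_mod_cast Nat.succ_ne_zero m
    push_cast
    field_simp
  ext m
  rw [li, sub_mul, one_mul, mul_assoc, map_sub, h1, PowerSeries.coeff_C_mul]
  rcases m with _ | m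
  · simp
  · rw [mul_comm X, PowerSeries.coeff_succ_mul_X, h1, map_neg, PowerSeries.coeff_C,
      if_neg (Nat.succ_ne_zero m)]
    ring

theorem lgc_sum_deriv (R : Multiset ℂ) :
    (R.map li).prod * d⁄dX ℂ (R.map lgc).sum = d⁄dX ℂ (R.map li).prod := by
  induction R using Multiset.induction_on with
  | empty => simp
  | cons a R ih =>
    rw [Multiset.map_cons, Multiset.prod_cons, Multiset.map_cons, Multiset.sum_cons, map_add,
      Derivation.leibniz, smul_eq_mul, smul_eq_mul, ← ih, li_deriv]
    have h1 := lgc_deriv a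
    linear_combination (R.map li).prod * h1

theorem li_prod_constCoeff (R : Multiset ℂ) : constantCoeff (R.map li).prod = 1 := by
  induction R using Multiset.induction_on with
  | empty => simp
  | cons a R ih =>
    rw [Multiset.map_cons, Multiset.prod_cons, map_mul, ih, li]
    simp

theorem li_prod_ne_zero (R : Multiset ℂ) : (R.map li).prod ≠ 0 := by
  intro h
  have := li_prod_constCoeff R
  rw [h, map_zero] at this
  exact zero_ne_one this

theorem lgc_sum_constCoeff (R : Multiset ℂ) : constantCoeff (R.map lgc).sum = 0 := by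
  induction R using Multiset.induction_on with
  | empty => simp
  | cons a R ih =>
    rw [Multiset.map_cons, Multiset.sum_cons, map_add, ih, add_zero,
      ← PowerSeries.coeff_zero_eq_constantCoeff_apply, lgc, coeff_mk]
    simp

/-- the formal logarithm is determined by the differential equation -/
theorem eq_lgc_sum (R : Multiset ℂ) (L : ℂ⟦X⟧) (h0 : constantCoeff L = 0)
    (hL : (R.map li).prod * d⁄dX ℂ L = d⁄dX ℂ (R.map li).prod) : L = (R.map lgc).sum := by
  apply PowerSeries.derivative.ext
  · apply mul_left_cancel₀ (li_prod_ne_zero R)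
    rw [hL, lgc_sum_deriv]
  · rw [h0, lgc_sum_constCoeff]

theorem hasSum_lgc {ρ : ℂ} {t : ℝ} (ht : 0 < t) (hρ : ‖ρ‖ < t) :
    HasSum (fun m : ℕ => coeff m (lgc ρ) * (1 / (t : ℂ)) ^ m) (Complex.log (1 - ρ / t)) := by
  have h1 : ‖ρ / (t : ℂ)‖ < 1 := by
    rw [norm_div, Complex.norm_real, Real.norm_eq_abs, abs_of_pos ht, div_lt_one ht]
    exact hρ
  have h2 := (Complex.hasSum_taylorSeries_neg_log h1).neg
  rw [neg_neg] at h2
  have h3 : (fun m : ℕ => coeff m (lgc ρ) * (1 / (t : ℂ)) ^ m) =
      fun m : ℕ => -((ρ / (t : ℂ)) ^ m / m) := by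
    funext m
    rw [lgc, coeff_mk, div_pow, div_pow, one_pow]
    ring
  rw [h3]
  exact h2

theorem exp_sum_lgc (R : Multiset ℂ) {t : ℝ} (ht : 0 < t) (hR : ∀ ρ ∈ R, ‖ρ‖ < t) :
    ∃ s : ℂ, HasSum (fun m : ℕ => coeff m (R.map lgc).sum * (1 / (t : ℂ)) ^ m) s ∧
      Complex.exp s = (R.map fun ρ => 1 - ρ / (t : ℂ)).prod := by
  induction R using Multiset.induction_on with
  | empty => exact ⟨0, by simpa using hasSum_zero, by simp⟩
  | cons a R ih =>
    obtain ⟨s, hs, he⟩ := ih fun ρ hρ => hR ρ (Multiset.mem_cons_of_mem hρ)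
    have ha : ‖a‖ < t := hR a (Multiset.mem_cons_self a R)
    refine ⟨Complex.log (1 - a / t) + s, ?_, ?_⟩
    · have h1 := (hasSum_lgc ht ha).add hs
      have h2 : (fun m : ℕ => coeff m ((a ::ₘ R).map lgc).sum * (1 / (t : ℂ)) ^ m) =
          fun m : ℕ => coeff m (lgc a) * (1 / (t : ℂ)) ^ m +
            coeff m (R.map lgc).sum * (1 / (t : ℂ)) ^ m := by
        funext m
        rw [Multiset.map_cons, Multiset.sum_cons, map_add]
        ring
      rw [h2]
      exact h1
    · rw [Complex.exp_add, he, Multiset.map_cons, Multiset.prod_cons, Complex.exp_log]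
      intro h
      have h2 : a = t := by
        have h3 : (t : ℂ) ≠ 0 := by exact_mod_cast ht.ne'
        field_simp at h
        linear_combination -h
      rw [h2, Complex.norm_real, Real.norm_eq_abs, abs_of_pos ht] at ha
      exact lt_irrefl _ ha

section Rev

open Polynomial in
theorem rev_map {K : Type} [Field K] [CharZero K] (G : Polynomial ℤ) :
    G.reverse.map (Int.castRingHom K) = (G.map (Int.castRingHom K)).reverse := by
  unfold Polynomial.reverse
  rw [Polynomial.reflect_map, Polynomial.natDegree_map_eq_of_injective (RingHom.injective_int _)]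

open Polynomial in
theorem rev_X_sub_C (a : ℂ) : (Polynomial.X - Polynomial.C a).reverse = 1 - Polynomial.C a * Polynomial.X := by
  ext m
  rw [Polynomial.coeff_reverse, Polynomial.natDegree_X_sub_C]
  rcases m with _ | _ | m
  · rw [Polynomial.revAt_le (by norm_num)]
    simp
  · rw [Polynomial.revAt_le (by norm_num)]
    simp [Polynomial.coeff_one]
  · rw [Polynomial.revAt_eq_self_of_lt (by omega)]
    simp [Polynomial.coeff_one, Polynomial.coeff_X, Polynomial.coeff_C]

theorem rev_prod (R : Multiset ℂ) :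
    (R.map fun a => Polynomial.X - Polynomial.C a).prod.reverse =
      (R.map fun a => (1 - Polynomial.C a * Polynomial.X : Polynomial ℂ)).prod := by
  induction R using Multiset.induction_on with
  | empty => simp [Polynomial.reverse]
  | cons a R ih =>
    rw [Multiset.map_cons, Multiset.prod_cons, Polynomial.reverse_mul_of_domain, ih, rev_X_sub_C,
      Multiset.map_cons, Multiset.prod_cons]

/-- the complex roots -/
noncomputable def rts (G : Polynomial ℤ) : Multiset ℂ := (G.map (Int.castRingHom ℂ)).roots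

theorem map_eq_prod {G : Polynomial ℤ} (hG : G.Monic) :
    G.map (Int.castRingHom ℂ) = ((rts G).map fun a => Polynomial.X - Polynomial.C a).prod :=
  (IsAlgClosed.splits _).eq_prod_roots_of_monic (hG.map _)

theorem rev_map_eq_prod {G : Polynomial ℤ} (hG : G.Monic) :
    G.reverse.map (Int.castRingHom ℂ) =
      ((rts G).map fun a => (1 - Polynomial.C a * Polynomial.X : Polynomial ℂ)).prod := by
  rw [rev_map, map_eq_prod hG, rev_prod]

theorem coe_rev {G : Polynomial ℤ} (hG : G.Monic) :
    ((G.reverse.map (Int.castRingHom ℂ) : Polynomial ℂ) : ℂ⟦X⟧) = ((rts G).map li).prod := by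
  rw [rev_map_eq_prod hG]
  generalize rts G = R
  induction R using Multiset.induction_on with
  | empty => simp
  | cons a R ih =>
    rw [Multiset.map_cons, Multiset.prod_cons, Polynomial.coe_mul, ih, Multiset.map_cons,
      Multiset.prod_cons]
    congr 1
    rw [li, Polynomial.coe_sub, Polynomial.coe_one, Polynomial.coe_mul, Polynomial.coe_C, Polynomial.coe_X]

theorem map_ps (P : Polynomial ℤ) : PowerSeries.map (algebraMap ℚ ℂ) (ps P) =
    ((P.map (Int.castRingHom ℂ) : Polynomial ℂ) : ℂ⟦X⟧) := by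
  ext m
  rw [PowerSeries.coeff_map, ps, Polynomial.coeff_coe, Polynomial.coeff_coe, Polynomial.coeff_map,
    Polynomial.coeff_map]
  simp

theorem map_deriv (L : ℚ⟦X⟧) : PowerSeries.map (algebraMap ℚ ℂ) (d⁄dX ℚ L) =
    d⁄dX ℂ (PowerSeries.map (algebraMap ℚ ℂ) L) := by
  ext m
  rw [PowerSeries.coeff_map, PowerSeries.coeff_derivative, PowerSeries.coeff_derivative,
    PowerSeries.coeff_map]
  simp

/-- **The logarithm of the value of a monic polynomial.** -/
theorem ev_log {G : Polynomial ℤ} (hG : G.Monic) {t : ℝ} (ht : 0 < t) (hroot : ∀ ρ ∈ rts G, ‖ρ‖ < t)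
    (L : ℚ⟦X⟧) (h0 : constantCoeff L = 0)
    (hL : ps G.reverse * d⁄dX ℚ L = d⁄dX ℚ (ps G.reverse)) :
    0 < Polynomial.aeval t G ∧
      Real.log (Polynomial.aeval t G) = G.natDegree * Real.log t + ev t L := by
  set Lc : ℂ⟦X⟧ := PowerSeries.map (algebraMap ℚ ℂ) L with hLc
  have h1 : Lc = ((rts G).map lgc).sum := by
    apply eq_lgc_sum
    · rw [hLc, ← PowerSeries.coeff_zero_eq_constantCoeff_apply, PowerSeries.coeff_map,
        PowerSeries.coeff_zero_eq_constantCoeff_apply, h0, map_zero]
    · rw [← coe_rev hG, ← map_ps, ← map_deriv, ← map_deriv, ← map_mul, hL]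
  obtain ⟨s, hs, he⟩ := exp_sum_lgc (rts G) ht hroot
  rw [← h1] at hs
  have h2 : (fun m : ℕ => coeff m Lc * (1 / (t : ℂ)) ^ m) =
      fun m : ℕ => ((((coeff m L : ℚ) : ℝ) * (1 / t) ^ m : ℝ) : ℂ) := by
    funext m
    rw [hLc, PowerSeries.coeff_map]
    push_cast
    simp
  rw [h2] at hs
  have h3 : s = ((ev t L : ℝ) : ℂ) := by
    have h4 : Summable (fun m : ℕ => ((coeff m L : ℚ) : ℝ) * (1 / t) ^ m) := by
      have := hs.summable
      exact_mod_cast Complex.summable_ofReal.1 this
    have h5 := h4.hasSum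
    have h6 : HasSum (fun m : ℕ => ((((coeff m L : ℚ) : ℝ) * (1 / t) ^ m : ℝ) : ℂ)) ((ev t L : ℝ) : ℂ) :=
      Complex.hasSum_ofReal.2 h5
    exact hs.unique h6
  have h4 : ((Polynomial.aeval t G : ℝ) : ℂ) = ((t ^ G.natDegree * Real.exp (ev t L) : ℝ) : ℂ) := by
    have h5 : ((Polynomial.aeval t G : ℝ) : ℂ) = (G.map (Int.castRingHom ℂ)).eval (t : ℂ) := by
      rw [Polynomial.eval_map, Polynomial.aeval_def]
      have h6 : ((Polynomial.eval₂ (algebraMap ℤ ℝ) t G : ℝ) : ℂ) =
          Complex.ofRealHom (Polynomial.eval₂ (algebraMap ℤ ℝ) t G) := rfl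
      rw [h6, Polynomial.hom_eval₂]
      congr 1
    rw [h5, map_eq_prod hG, Complex.ofReal_mul, Complex.ofReal_exp, ← h3, he, Polynomial.eval_multiset_prod,
      Multiset.map_map]
    have hcard : (rts G).card = G.natDegree := by
      have h6 : (G.map (Int.castRingHom ℂ)).natDegree = G.natDegree := hG.natDegree_map _
      rw [← h6]
      exact (IsAlgClosed.splits _).natDegree_eq_card_roots.symm
    rw [← hcard, Complex.ofReal_pow]
    have ht' : (t : ℂ) ≠ 0 := by exact_mod_cast ht.ne'
    generalize rts G = R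
    induction R using Multiset.induction_on with
    | empty => simp
    | cons a R ih =>
      rw [Multiset.map_cons, Multiset.prod_cons, ih, Multiset.map_cons, Multiset.prod_cons,
        Multiset.card_cons, pow_succ]
      simp only [Function.comp_apply, Polynomial.eval_sub, Polynomial.eval_X, Polynomial.eval_C]
      field_simp
  have h5 : Polynomial.aeval t G = t ^ G.natDegree * Real.exp (ev t L) := by exact_mod_cast h4
  constructor
  · rw [h5]; positivity
  · rw [h5, Real.log_mul (by positivity) (Real.exp_pos _).ne', Real.log_exp, Real.log_pow]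

end Rev

end Pool.Agent.Zk39.PV
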