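import Mathlib
import Pool.Agent.Zk39.PV.LogP

/-!
# A family of coprime monic polynomials: the logarithms of the values as linear forms in the functions `∫ z^s / T`
-/

set_option autoImplicit false

open PowerSeries

namespace Pool.Agent.Zk39.PV

open Pool.Agent.Y113 Pool.Agent.Y916 Pool.Agent.R351.GF
open Pool.Agent.Y419.LB (Dm Dm.coeff Dm.mul Dm.one Dm.of_bound)

theorem coef_bound {G : Polynomial ℤ} (hG : G.Monic) {B : ℝ} (hB : 1 ≤ B) (hroot : ∀ ρ ∈ rts G, ‖ρ‖ ≤ B)
    (l : ℕ) : |((G.coeff l : ℤ) : ℝ)| ≤ (2 * B) ^ G.natDegree := by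
  have h1 := Polynomial.coeff_le_of_roots_le (p := G) (f := Int.castRingHom ℂ) (B := B) l hG
    (IsAlgClosed.splits _) hroot
  rw [Polynomial.coeff_map] at h1
  have h2 : ‖(Int.castRingHom ℂ) (G.coeff l)‖ = |((G.coeff l : ℤ) : ℝ)| := by
    rw [eq_intCast, Complex.norm_intCast]
  rw [h2] at h1
  refine h1.trans ?_
  have h3 : B ^ (G.natDegree - l) ≤ B ^ G.natDegree := pow_le_pow_right₀ hB (Nat.sub_le _ _)
  have h4 : ((G.natDegree.choose l : ℕ) : ℝ) ≤ 2 ^ G.natDegree := by
    exact_mod_cast Nat.choose_le_two_pow _ _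
  calc B ^ (G.natDegree - l) * (G.natDegree.choose l : ℕ) ≤ B ^ G.natDegree * 2 ^ G.natDegree :=
        mul_le_mul h3 h4 (by positivity) (by positivity)
    _ = (2 * B) ^ G.natDegree := by rw [mul_pow, mul_comm]

theorem rev_coef_bound {G : Polynomial ℤ} (hG : G.Monic) {B : ℝ} (hB : 1 ≤ B)
    (hroot : ∀ ρ ∈ rts G, ‖ρ‖ ≤ B) (l : ℕ) : |((G.reverse.coeff l : ℤ) : ℝ)| ≤ (2 * B) ^ G.natDegree := by
  rw [Polynomial.coeff_reverse]
  exact coef_bound hG hB hroot _

section Fam

variable {ι : Type} [Fintype ι] [DecidableEq ι] (g : ι → Polynomial ℤ)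

/-- a family of monic polynomials of positive degree, with squarefree product which does not vanish at `0` -/
structure Fm : Prop where
  monic : ∀ a, (g a).Monic
  deg : ∀ a, 0 < (g a).natDegree
  sqf : Squarefree ((∏ a, g a).map (Int.castRingHom ℚ))
  zero : ∀ a, (g a).coeff 0 ≠ 0

/-- the denominator -/
noncomputable def TT : Polynomial ℤ := (∏ a, g a).reverse

/-- the numerator of the logarithmic derivative of the polynomial with index `a` -/
noncomputable def CC (a : ι) : Polynomial ℤ :=
  Polynomial.derivative (g a).reverse * ∏ b ∈ Finset.univ.erase a, (g b).reverse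

variable {g} (hg : Fm g)
include hg

theorem prod_monic (s : Finset ι) : (∏ a ∈ s, g a).Monic := Polynomial.monic_prod_of_monic _ _ fun a _ => hg.monic a

theorem prod_zero (s : Finset ι) : (∏ a ∈ s, g a).coeff 0 ≠ 0 := by
  rw [Polynomial.coeff_zero_eq_eval_zero, Polynomial.eval_prod]
  refine Finset.prod_ne_zero_iff.2 fun a _ => ?_
  rw [← Polynomial.coeff_zero_eq_eval_zero]
  exact hg.zero a

omit [DecidableEq ι] hg in
theorem rev_natDegree {G : Polynomial ℤ} (h0 : G.coeff 0 ≠ 0) : G.reverse.natDegree = G.natDegree := by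
  rw [Polynomial.reverse_natDegree, Polynomial.natTrailingDegree_eq_zero.2 (Or.inr h0), Nat.sub_zero]

omit [Fintype ι] hg in
theorem rev_fprod (s : Finset ι) : (∏ a ∈ s, g a).reverse = ∏ a ∈ s, (g a).reverse := by
  induction s using Finset.induction_on with
  | empty =>
    rw [Finset.prod_empty, Finset.prod_empty, ← Polynomial.C_1, Polynomial.reverse_C]
  | insert a s ha ih =>
    rw [Finset.prod_insert ha, Finset.prod_insert ha, Polynomial.reverse_mul_of_domain, ih]

theorem TT_natDegree : (TT g).natDegree = ∑ a, (g a).natDegree := by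
  rw [TT, rev_natDegree (prod_zero hg _), Polynomial.natDegree_prod_of_monic _ _ fun a _ => hg.monic a]

theorem TT_coeff_zero : (TT g).coeff 0 = 1 := by
  rw [TT, Polynomial.coeff_zero_reverse]
  exact prod_monic hg _

omit hg in
theorem TT_eq : TT g = ∏ a, (g a).reverse := rev_fprod _

theorem rev_ne_zero (a : ι) : (g a).reverse ≠ 0 := by
  rw [Ne, Polynomial.reverse_eq_zero]
  exact (hg.monic a).ne_zero

theorem TT_squarefree : Squarefree ((TT g).map (Int.castRingHom ℚ)) := by
  intro q hq
  obtain ⟨s, hs⟩ := hq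
  -- reverse again
  have h1 : ((TT g).map (Int.castRingHom ℚ)).reverse = (∏ a, g a).map (Int.castRingHom ℚ) := by
    rw [TT, rev_map]
    set P := (∏ a, g a).map (Int.castRingHom ℚ) with hP
    have hP0 : P.coeff 0 ≠ 0 := by
      rw [hP, Polynomial.coeff_map]
      have := prod_zero hg Finset.univ
      simpa using this
    have h2 : P.reverse.natDegree = P.natDegree := by
      rw [Polynomial.reverse_natDegree, Polynomial.natTrailingDegree_eq_zero.2 (Or.inr hP0), Nat.sub_zero]
    conv_lhs => rw [Polynomial.reverse, h2]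
    rw [Polynomial.reverse, Polynomial.reflect_reflect]
  have h2 : q.reverse * q.reverse ∣ (∏ a, g a).map (Int.castRingHom ℚ) := by
    rw [← h1, hs, Polynomial.reverse_mul_of_domain, Polynomial.reverse_mul_of_domain]
    exact Dvd.intro _ rfl
  have h3 := hg.sqf _ h2
  have h4 : q.reverse.natDegree = 0 := Polynomial.natDegree_eq_zero_of_isUnit h3
  -- q(0) ≠ 0
  have h5 : q.coeff 0 ≠ 0 := by
    intro h
    have h6 := congrArg (fun P => Polynomial.coeff P 0) hs
    simp only [Polynomial.coeff_map, TT_coeff_zero hg, map_one, Polynomial.mul_coeff_zero, h,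
      zero_mul] at h6
    exact one_ne_zero h6
  rw [Polynomial.reverse_natDegree, Polynomial.natTrailingDegree_eq_zero.2 (Or.inr h5), Nat.sub_zero] at h4
  rw [Polynomial.eq_C_of_natDegree_eq_zero h4]
  exact Polynomial.isUnit_C.2 (isUnit_iff_ne_zero.2 h5)

omit hg in
theorem CC_mul (a : ι) : (g a).reverse * CC g a = Polynomial.derivative (g a).reverse * TT g := by
  rw [CC, TT_eq, ← Finset.mul_prod_erase Finset.univ _ (Finset.mem_univ a)]
  ring

theorem CC_natDegree (a : ι) : (CC g a).natDegree < ∑ a, (g a).natDegree := by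
  rw [← Finset.add_sum_erase Finset.univ _ (Finset.mem_univ a)]
  refine lt_of_le_of_lt Polynomial.natDegree_mul_le ?_
  refine add_lt_add_of_lt_of_le ?_ ?_
  · have h1 : (g a).reverse.natDegree = (g a).natDegree := rev_natDegree (hg.zero a)
    have h2 := Polynomial.natDegree_derivative_lt (p := (g a).reverse) (by rw [h1]; exact (hg.deg a).ne')
    rwa [h1] at h2
  · refine (Polynomial.natDegree_prod_le _ _).trans (Finset.sum_le_sum fun b _ => ?_)
    exact Polynomial.reverse_natDegree_le _

/-- **independence of the numerators** -/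
theorem CC_indep (v : ι → ℤ) (hv : ∑ a, Polynomial.C (v a) * CC g a = 0) : v = 0 := by
  have hsep : (∏ a, (g a).reverse.map (Int.castRingHom ℚ)).Separable := by
    have h1 := TT_squarefree hg
    rw [TT_eq, Polynomial.map_prod] at h1
    exact PerfectField.separable_iff_squarefree.2 h1
  funext a
  by_contra hva
  set r : ι → Polynomial ℚ := fun a => (g a).reverse.map (Int.castRingHom ℚ) with hr
  have hprod : (r a * ∏ b ∈ Finset.univ.erase a, r b).Separable := by
    rw [Finset.mul_prod_erase Finset.univ _ (Finset.mem_univ a)]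
    exact hsep
  have h1 : IsCoprime (r a) (∏ b ∈ Finset.univ.erase a, r b) := hprod.isCoprime
  have h2 : IsCoprime (r a) (Polynomial.derivative (r a)) := hprod.of_mul_left
  have h3 : r a ∣ Polynomial.C ((v a : ℤ) : ℚ) := by
    have h4 := congrArg (Polynomial.map (Int.castRingHom ℚ)) hv
    rw [Polynomial.map_sum, Polynomial.map_zero, ← Finset.add_sum_erase Finset.univ _ (Finset.mem_univ a)] at h4
    have h5 : r a ∣ ∑ b ∈ Finset.univ.erase a, (Polynomial.C (v b) * CC g b).map (Int.castRingHom ℚ) := by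
      refine Finset.dvd_sum fun b hb => ?_
      rw [Polynomial.map_mul, CC, Polynomial.map_mul, Polynomial.map_prod]
      refine Dvd.dvd.mul_left (Dvd.dvd.mul_left ?_ _) _
      exact Finset.dvd_prod_of_mem r (Finset.mem_erase.2 ⟨(Finset.mem_erase.1 hb).1.symm, Finset.mem_univ a⟩)
    have h6 : r a ∣ (Polynomial.C (v a) * CC g a).map (Int.castRingHom ℚ) :=
      (dvd_add_left h5).1 (by rw [h4]; exact dvd_zero _)
    rw [Polynomial.map_mul, CC, Polynomial.map_mul, Polynomial.map_prod, Polynomial.map_C,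
      ← Polynomial.derivative_map, ← mul_assoc] at h6
    have h7 := h1.dvd_of_dvd_mul_right h6
    exact h2.dvd_of_dvd_mul_right h7
  have h4 : Polynomial.C ((v a : ℤ) : ℚ) ≠ 0 := by
    rw [Ne, Polynomial.C_eq_zero]
    exact_mod_cast hva
  have h5 := Polynomial.natDegree_le_of_dvd h3 h4
  rw [Polynomial.natDegree_C, hr] at h5
  have h6 : ((g a).reverse.map (Int.castRingHom ℚ)).natDegree = (g a).natDegree := by
    rw [Polynomial.natDegree_map_eq_of_injective (RingHom.injective_int _), rev_natDegree (hg.zero a)]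
  have h7 := hg.deg a
  simp only at h5
  omega

omit hg in
/-- the formal logarithm -/
noncomputable def LL (g : ι → Polynomial ℤ) (n : ℕ) (a : ι) : ℚ⟦X⟧ :=
  ∑ s : Fin n, PowerSeries.C (((CC g a).coeff s : ℤ) : ℚ) * F (TT g) s

theorem ps_ne_zero {P : Polynomial ℤ} (hP : P ≠ 0) : ps P ≠ 0 := by
  unfold ps
  intro h
  have h1 : P.map (Int.castRingHom ℚ) = 0 := by
    apply Polynomial.coe_injective
    rw [h, Polynomial.coe_zero]
  exact hP ((Polynomial.map_eq_zero_iff (RingHom.injective_int _)).1 h1)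

theorem LL_deriv (a : ι) : ps (g a).reverse * d⁄dX ℚ (LL g (∑ a, (g a).natDegree) a) = d⁄dX ℚ (ps (g a).reverse) := by
  have hT0 := TT_coeff_zero hg
  have hcoe : ∀ p q : Polynomial ℤ, ps (p * q) = ps p * ps q := by
    intro p q
    unfold ps
    rw [Polynomial.map_mul, Polynomial.coe_mul]
  have h2 : ps (TT g) * d⁄dX ℚ (LL g (∑ a, (g a).natDegree) a) = ps (CC g a) := by
    rw [LL, map_sum, Finset.mul_sum]
    have h3 : ∀ s : Fin (∑ a, (g a).natDegree), ps (TT g) * d⁄dX ℚ (PowerSeries.C (((CC g a).coeff s : ℤ) : ℚ) * F (TT g) s) =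
        PowerSeries.C (((CC g a).coeff s : ℤ) : ℚ) * X ^ (s : ℕ) := by
      intro s
      rw [Derivation.leibniz, PowerSeries.derivative_C, smul_zero, add_zero, smul_eq_mul,
        ← deriv_F hT0 s, ps]
      ring
    rw [Finset.sum_congr rfl fun s _ => h3 s, ps]
    ext l
    rw [map_sum, Polynomial.coeff_coe, Polynomial.coeff_map]
    simp only [PowerSeries.coeff_C_mul, PowerSeries.coeff_X_pow]
    by_cases hl : l < ∑ a, (g a).natDegree
    · rw [Finset.sum_eq_single ⟨l, hl⟩]
      · simp
      · intro s _ hs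
        rw [if_neg, mul_zero]
        intro h
        exact hs (Fin.ext h.symm)
      · intro h; exact absurd (Finset.mem_univ _) h
    · rw [Polynomial.coeff_eq_zero_of_natDegree_lt (lt_of_lt_of_le (CC_natDegree hg a) (not_lt.1 hl)),
        map_zero]
      refine Finset.sum_eq_zero fun s _ => ?_
      rw [if_neg, mul_zero]
      intro h
      exact hl (by rw [h]; exact s.2)
  have hTne : ps (TT g) ≠ 0 := ps_ne_zero hg (by
    intro h
    rw [h, Polynomial.coeff_zero] at hT0
    exact zero_ne_one hT0)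
  apply mul_left_cancel₀ hTne
  have h3 : d⁄dX ℚ (ps (g a).reverse) = ps (Polynomial.derivative (g a).reverse) := by
    unfold ps
    rw [PowerSeries.derivative_coe, Polynomial.derivative_map]
  rw [h3, mul_left_comm, h2, ← hcoe, CC_mul, hcoe, mul_comm]

omit hg in
theorem LL_zero (n : ℕ) (a : ι) : constantCoeff (LL g n a) = 0 := by
  rw [LL, map_sum]
  refine Finset.sum_eq_zero fun s _ => ?_
  rw [map_mul, ← PowerSeries.coeff_zero_eq_constantCoeff_apply (F (TT g) s), F, coeff_mk,
    if_pos (Nat.zero_le _), mul_zero]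

end Fam

end Pool.Agent.Zk39.PV
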