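import Mathlib
import Pool.Agent.Zk39.PV.Fam

/-!
# A family of coprime monic polynomials: the values
-/

set_option autoImplicit false

open PowerSeries

namespace Pool.Agent.Zk39.PV

open Pool.Agent.Y113 Pool.Agent.Y916 Pool.Agent.R351.GF
open Pool.Agent.Y419.LB (Dm Dm.coeff Dm.mul Dm.one Dm.of_bound Dm.mono)

theorem hd_zero (f : ℚ⟦X⟧) : hd 0 f = f := by
  ext m
  simp [hd]

/-- the values -/
theorem ev_LL (n : ℕ) : ∃ E : ℕ, ∀ (ι : Type) [Fintype ι] [DecidableEq ι] (g : ι → Polynomial ℤ) (H t : ℕ), Fm g →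
    ∑ a, (g a).natDegree = n → (∀ l, |(TT g).coeff l| ≤ H) → (H + 2) ^ E ≤ t →
    (∀ a, ∀ ρ ∈ rts (g a), ‖ρ‖ < t) →
    (∀ a, 0 < Polynomial.aeval (t : ℝ) (g a) ∧
      Real.log (Polynomial.aeval (t : ℝ) (g a)) = (g a).natDegree * Real.log t +
        ∑ s : Fin n, (((CC g a).coeff s : ℤ) : ℝ) * ev t (F (TT g) s)) ∧
    ∀ s : Fin n, |ev t (F (TT g) s)| ≤ t := by
  obtain ⟨E₀, hE₀⟩ := Pool.Agent.Y419.LB.base_holds n
  refine ⟨E₀ + 2, fun ι _ _ g H t hg hn hH ht hroot => ?_⟩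
  have hH0 : (0 : ℝ) ≤ H := Nat.cast_nonneg _
  have htR : ((H : ℝ) + 2) ^ (E₀ + 2) ≤ t := by exact_mod_cast ht
  have hb2 : (2 : ℝ) ≤ (H : ℝ) + 2 := by linarith
  have hb1 : (1 : ℝ) ≤ (H : ℝ) + 2 := by linarith
  set A : ℝ := ((H : ℝ) + 2) ^ E₀ with hA
  have hA1 : 1 ≤ A := one_le_pow₀ hb1
  have h4A : 4 * A ≤ t := by
    refine le_trans ?_ htR
    rw [pow_add, mul_comm]
    refine mul_le_mul_of_nonneg_left ?_ (by linarith)
    nlinarith
  have ht0 : (0 : ℝ) < t := by linarith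
  have hG := hE₀ H (TT g) (TT_coeff_zero hg) (by rw [TT_natDegree hg, hn]) hH
  have hsz : ∀ (s : Fin n) (m : ℕ), |((coeff m (F (TT g) s) : ℚ) : ℝ)| ≤ A * A ^ m := by
    intro s m
    have := hG.size (some s) m
    rw [pow_succ'] at this
    exact this
  have hcv : ∀ s : Fin n, Cv (t : ℝ) (F (TT g) s) := fun s =>
    Cv.of_bound ht0 (A := A) (B := A) (by linarith) (by linarith) (hsz s)
  refine ⟨fun a => ?_, fun s => ?_⟩
  · have h1 := ev_log (hg.monic a) ht0 (hroot a) (LL g n a) (LL_zero n a) (by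
      have := LL_deriv hg a
      rwa [hn] at this)
    refine ⟨h1.1, ?_⟩
    rw [h1.2, LL, Cv.ev_sum ht0 _ _ fun s _ => (Cv.C _).mul ht0 (hcv s)]
    congr 1
    refine Finset.sum_congr rfl fun s _ => ?_
    rw [(Cv.C _).ev_mul ht0 (hcv s), ev_C]
    simp
  · have h1 := (ev_hd_bound (f := F (TT g) s) (t := (t : ℝ)) ht0 (A := A) (B := A) (by linarith) hA1 h4A (hsz s)
      (m₀ := 0) (k := 0) le_rfl (fun l hl => absurd hl (Nat.not_lt_zero _))).2
    rw [hd_zero] at h1
    simp only [pow_zero, mul_one, Nat.sub_zero] at h1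
    linarith

/-- bounds for the coefficients -/
theorem bounds (n : ℕ) : ∃ K : ℕ, ∀ (ι : Type) [Fintype ι] [DecidableEq ι] (g : ι → Polynomial ℤ) (B : ℕ), Fm g →
    ∑ a, (g a).natDegree = n → (∀ a, ∀ ρ ∈ rts (g a), ‖ρ‖ ≤ B) →
    (∀ l, |(TT g).coeff l| ≤ (2 * (B + 1)) ^ n) ∧ ∀ a l, |(CC g a).coeff l| ≤ (K * (B + 1)) ^ (2 * n) := by
  refine ⟨(n + 1) * (n + 1) * n * 4 + 1, fun ι _ _ g B hg hn hroot => ?_⟩
  have hB1 : (1 : ℝ) ≤ ((B + 1 : ℕ) : ℝ) := by push_cast; linarith [show (0 : ℝ) ≤ B from Nat.cast_nonneg B]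
  have hroot' : ∀ s : Finset ι, ∀ ρ ∈ rts (∏ a ∈ s, g a), ‖ρ‖ ≤ ((B + 1 : ℕ) : ℝ) := by
    intro s ρ hρ
    unfold rts at hρ
    rw [Polynomial.map_prod, Polynomial.roots_prod] at hρ
    · rw [Multiset.mem_bind] at hρ
      obtain ⟨a, ha, h⟩ := hρ
      refine (hroot a ρ h).trans ?_
      push_cast
      linarith
    · refine Finset.prod_ne_zero_iff.2 fun a _ => ?_
      exact ((hg.monic a).map _).ne_zero
  have hdeg : ∀ s : Finset ι, (∏ a ∈ s, g a).natDegree ≤ n := by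
    intro s
    rw [Polynomial.natDegree_prod_of_monic _ _ fun a _ => hg.monic a, ← hn]
    exact Finset.sum_le_univ_sum_of_nonneg fun a => Nat.zero_le _
  have h2B : (1 : ℝ) ≤ 2 * ((B + 1 : ℕ) : ℝ) := by linarith
  have hrev : ∀ (s : Finset ι) (l : ℕ), |((((∏ a ∈ s, g a).reverse).coeff l : ℤ) : ℝ)| ≤
      (2 * ((B + 1 : ℕ) : ℝ)) ^ n := fun s l =>
    (rev_coef_bound (prod_monic hg s) hB1 (hroot' s) l).trans (pow_le_pow_right₀ h2B (hdeg s))
  refine ⟨fun l => ?_, fun a l => ?_⟩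
  · have := hrev Finset.univ l
    rw [TT]
    exact_mod_cast this
  · -- the numerators
    set M : ℝ := (2 * ((B + 1 : ℕ) : ℝ)) ^ n with hM
    have hM1 : 1 ≤ M := one_le_pow₀ h2B
    have h1 : Dm (∏ b ∈ Finset.univ.erase a, (g b).reverse) ((n + 1) * M) := by
      rw [← rev_fprod]
      exact Dm.of_bound ((Polynomial.reverse_natDegree_le _).trans (hdeg _)) (by linarith) fun l _ => hrev _ l
    have h2 : Dm (Polynomial.derivative (g a).reverse) ((n + 1) * (n * M)) := by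
      refine Dm.of_bound ?_ (by positivity) fun l hl => ?_
      · refine (Polynomial.natDegree_derivative_le _).trans ((Nat.sub_le _ _).trans
          ((Polynomial.reverse_natDegree_le _).trans ?_))
        have := hdeg {a}
        rwa [Finset.prod_singleton] at this
      · rw [Polynomial.coeff_derivative]
        push_cast
        rw [abs_mul]
        have h3 := hrev {a} (l + 1)
        rw [Finset.prod_singleton] at h3
        by_cases h4 : l + 1 ≤ n
        · have h5 : |((l : ℝ) + 1)| ≤ n := by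
            rw [abs_of_nonneg (by positivity)]
            exact_mod_cast h4
          rw [mul_comm]
          exact mul_le_mul h5 h3 (abs_nonneg _) (by positivity)
        · have h5 : (g a).reverse.natDegree ≤ n := by
            have := hdeg {a}
            rw [Finset.prod_singleton] at this
            exact (Polynomial.reverse_natDegree_le _).trans this
          rw [Polynomial.coeff_eq_zero_of_natDegree_lt (by omega)]
          simp
          positivity
    have h3 : Dm (CC g a) ((n + 1) * (n * M) * ((n + 1) * M)) := h2.mul h1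
    have h4 := h3.coeff l
    have h5 : ((n : ℝ) + 1) * (n * M) * ((n + 1) * M) ≤
        ((((n + 1) * (n + 1) * n * 4 + 1 : ℕ) : ℝ) * ((B + 1 : ℕ) : ℝ)) ^ (2 * n) := by
      rcases Nat.eq_zero_or_pos n with hn0 | hn0
      · rw [hn0]
        simp
      · have e1 : M * M = (4 * (((B + 1 : ℕ) : ℝ)) ^ 2) ^ n := by
          rw [hM, ← mul_pow]
          congr 1
          ring
        have e2 : ((n : ℝ) + 1) * (n * M) * ((n + 1) * M) = ((n + 1) * (n + 1) * n) * (M * M) := by ring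
        have e3 : (1 : ℝ) ≤ (((n + 1) * (n + 1) * n : ℕ) : ℝ) := by
          exact_mod_cast (Nat.mul_pos (Nat.mul_pos (by omega) (by omega)) hn0)
        have e4 : ((n : ℝ) + 1) * (n + 1) * n ≤ ((((n + 1) * (n + 1) * n : ℕ) : ℝ)) ^ n := by
          calc ((n : ℝ) + 1) * (n + 1) * n = (((n + 1) * (n + 1) * n : ℕ) : ℝ) ^ 1 := by push_cast; ring
            _ ≤ _ := pow_le_pow_right₀ e3 hn0
        rw [e2, e1]
        calc ((n : ℝ) + 1) * (n + 1) * n * (4 * (((B + 1 : ℕ) : ℝ)) ^ 2) ^ n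
            ≤ ((((n + 1) * (n + 1) * n : ℕ) : ℝ)) ^ n * (4 * (((B + 1 : ℕ) : ℝ)) ^ 2) ^ n :=
              mul_le_mul_of_nonneg_right e4 (by positivity)
          _ = ((((n + 1) * (n + 1) * n : ℕ) : ℝ) * (4 * (((B + 1 : ℕ) : ℝ)) ^ 2)) ^ n := by rw [← mul_pow]
          _ ≤ (((((n + 1) * (n + 1) * n * 4 + 1 : ℕ) : ℝ) * ((B + 1 : ℕ) : ℝ)) ^ 2) ^ n := by
              apply pow_le_pow_left₀ (by positivity)
              rw [mul_pow, ← mul_assoc]
              apply mul_le_mul_of_nonneg_right _ (by positivity)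
              push_cast
              have : (0 : ℝ) ≤ ((n : ℝ) + 1) * (n + 1) * n := by positivity
              nlinarith
          _ = _ := by rw [← pow_mul]
    have h6 := h4.trans h5
    exact_mod_cast h6

end Pool.Agent.Zk39.PV
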