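import Mathlib
import Pool.Agent.Zk39.PV.Val

/-!
# Shifts of coprime polynomials
-/

set_option autoImplicit false

open Polynomial

namespace Pool.Agent.Zk39.PV

/-- a monic polynomial `G` with `lc * G (a x) = a ^ d * f x` -/
theorem exists_monic (f : ℤ[X]) (a : ℤ) (ha : f.leadingCoeff ∣ a) :
    ∃ G : ℤ[X], G.Monic ∧ G.natDegree = f.natDegree ∧
      C f.leadingCoeff * G.comp (C a * X) = C (a ^ f.natDegree) * f := by
  obtain ⟨b, hb⟩ := ha
  set d := f.natDegree with hd
  set R : ℤ[X] := ∑ l ∈ Finset.range d, C (f.coeff l * a ^ (d - 1 - l) * b) * X ^ l with hR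
  have hRd : R.degree < (d : ℕ) := by
    rw [hR]
    refine (degree_sum_le _ _).trans_lt ?_
    rw [Finset.sup_lt_iff (by rw [bot_lt_iff_ne_bot]; exact WithBot.natCast_ne_bot d)]
    intro l hl
    refine lt_of_le_of_lt (degree_C_mul_X_pow_le _ _) ?_
    exact_mod_cast Finset.mem_range.1 hl
  refine ⟨X ^ d + R, monic_X_pow_add hRd, natDegree_eq_of_degree_eq_some ?_, ?_⟩
  · rw [degree_add_eq_left_of_degree_lt (by rwa [degree_X_pow]), degree_X_pow]
  · have hf' : f = C f.leadingCoeff * X ^ d + ∑ l ∈ Finset.range d, C (f.coeff l) * X ^ l := by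
      conv_lhs => rw [f.as_sum_range_C_mul_X_pow, Finset.sum_range_succ]
      rw [add_comm]
      rfl
    rw [add_comp, X_pow_comp, mul_add, mul_pow, ← C_pow]
    conv_rhs => rw [hf']
    rw [mul_add]
    congr 1
    · ring
    · rw [hR, sum_comp, Finset.mul_sum, Finset.mul_sum]
      refine Finset.sum_congr rfl fun l hl => ?_
      rw [mul_comp, C_comp, X_pow_comp, mul_pow, ← C_pow, ← mul_assoc, ← mul_assoc, ← mul_assoc, ← C_mul,
        ← C_mul, ← C_mul]
      congr 2
      have h1 := Finset.mem_range.1 hl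
      have h2 : a ^ d = a * (a ^ (d - 1 - l) * a ^ l) := by
        rw [← pow_add, ← pow_succ']
        congr 1
        omega
      rw [h2]
      nth_rewrite 3 [hb]
      ring

/-- monic pairwise coprime squarefree polynomials -/
structure MD {k : ℕ} (G : Fin k → ℤ[X]) (B₀ : ℕ) : Prop where
  monic : ∀ i, (G i).Monic
  deg : ∀ i, 0 < (G i).natDegree
  sep : ∀ i (x : ℂ), aeval x (G i) ≠ 0 ∨ aeval x (derivative (G i)) ≠ 0
  cop : ∀ i i', i ≠ i' → ∀ x : ℂ, aeval x (G i) ≠ 0 ∨ aeval x (G i') ≠ 0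
  root : ∀ i (x : ℂ), aeval x (G i) = 0 → ‖x‖ ≤ B₀

theorem exists_MD {k : ℕ} (f : Fin k → ℤ[X]) (hf : ∀ i, 0 < (f i).natDegree)
    (hsq : Squarefree ((∏ i, f i).map (Int.castRingHom ℚ))) :
    ∃ (a : ℕ) (G : Fin k → ℤ[X]) (B₀ : ℕ), 0 < a ∧ MD G B₀ ∧ ∀ i, (G i).natDegree = (f i).natDegree ∧
      C (f i).leadingCoeff * (G i).comp (C (a : ℤ) * X) = C ((a : ℤ) ^ (f i).natDegree) * f i := by
  classical
  have hf0 : ∀ i, f i ≠ 0 := fun i h => by
    have := hf i
    rw [h, natDegree_zero] at this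
    exact lt_irrefl _ this
  set a : ℕ := ∏ i, (f i).leadingCoeff.natAbs with ha
  have ha0 : 0 < a := Finset.prod_pos fun i _ => Int.natAbs_pos.2 (leadingCoeff_ne_zero.2 (hf0 i))
  have hdvd : ∀ i, (f i).leadingCoeff ∣ (a : ℤ) := by
    intro i
    rw [← Int.natAbs_dvd_natAbs, Int.natAbs_natCast]
    exact Finset.dvd_prod_of_mem _ (Finset.mem_univ i)
  choose G hG hGd hGe using fun i => exists_monic (f i) a (hdvd i)
  have haC : (a : ℂ) ≠ 0 := by exact_mod_cast ha0.ne'
  -- the values over `ℂ`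
  have hval : ∀ i (y : ℂ), ((f i).leadingCoeff : ℂ) * aeval y (G i) =
      (a : ℂ) ^ (f i).natDegree * aeval (y / a) (f i) := by
    intro i y
    have h1 := congrArg (aeval (y / a : ℂ)) (hGe i)
    rw [map_mul, map_mul, aeval_comp, aeval_C, aeval_C, map_mul, aeval_C, aeval_X] at h1
    simp only [algebraMap_int_eq, eq_intCast, Int.cast_pow, Int.cast_natCast] at h1
    rw [mul_div_cancel₀ _ haC] at h1
    exact h1
  have hder : ∀ i (y : ℂ), ((f i).leadingCoeff : ℂ) * (aeval y (derivative (G i)) * a) =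
      (a : ℂ) ^ (f i).natDegree * aeval (y / a) (derivative (f i)) := by
    intro i y
    have h1 := congrArg derivative (hGe i)
    rw [derivative_C_mul, derivative_comp, derivative_C_mul, derivative_C_mul, derivative_X, mul_one] at h1
    have h2 := congrArg (aeval (y / a : ℂ)) h1
    rw [map_mul, map_mul, map_mul, aeval_comp, aeval_C, aeval_C, aeval_C, map_mul, aeval_C, aeval_X] at h2
    simp only [algebraMap_int_eq, eq_intCast, Int.cast_pow, Int.cast_natCast] at h2
    rw [mul_div_cancel₀ _ haC] at h2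
    rw [← h2]
    ring
  have hlc : ∀ i, ((f i).leadingCoeff : ℂ) ≠ 0 := fun i => by
    exact_mod_cast leadingCoeff_ne_zero.2 (hf0 i)
  have hpw : ∀ i, (a : ℂ) ^ (f i).natDegree ≠ 0 := fun i => pow_ne_zero _ haC
  have hz : ∀ i (y : ℂ), aeval y (G i) = 0 ↔ aeval (y / a) (f i) = 0 := by
    intro i y
    constructor
    · intro h
      have := hval i y
      rw [h, mul_zero] at this
      exact (mul_eq_zero.1 this.symm).resolve_left (hpw i)
    · intro h
      have := hval i y
      rw [h, mul_zero] at this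
      exact (mul_eq_zero.1 this).resolve_left (hlc i)
  have hz' : ∀ i (y : ℂ), aeval y (derivative (G i)) = 0 → aeval (y / a) (derivative (f i)) = 0 := by
    intro i y h
    have := hder i y
    rw [h, zero_mul, mul_zero] at this
    exact (mul_eq_zero.1 this.symm).resolve_left (hpw i)
  -- separability
  have hsep : (∏ i, (f i).map (Int.castRingHom ℚ)).Separable := by
    rw [← Polynomial.map_prod]
    exact PerfectField.separable_iff_squarefree.2 hsq
  have hav : ∀ (P : ℤ[X]) (x : ℂ), aeval x (P.map (Int.castRingHom ℚ)) = aeval x P := by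
    intro P x
    rw [aeval_def, eval₂_map, aeval_def]
    congr 1
  have hsi : ∀ i (x : ℂ), aeval x (f i) ≠ 0 ∨ aeval x (derivative (f i)) ≠ 0 := by
    intro i x
    have h1 : ((f i).map (Int.castRingHom ℚ)).Separable :=
      hsep.of_dvd (Finset.dvd_prod_of_mem (fun i => (f i).map (Int.castRingHom ℚ)) (Finset.mem_univ i))
    have h2 := aeval_ne_zero_of_isCoprime (S := ℂ) h1 x
    rwa [derivative_map, hav, hav] at h2
  have hci : ∀ i i', i ≠ i' → ∀ x : ℂ, aeval x (f i) ≠ 0 ∨ aeval x (f i') ≠ 0 := by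
    intro i i' hii x
    have h1 : IsCoprime ((f i).map (Int.castRingHom ℚ)) ((f i').map (Int.castRingHom ℚ)) := by
      rw [← Finset.mul_prod_erase Finset.univ _ (Finset.mem_univ i)] at hsep
      exact hsep.isCoprime.of_isCoprime_of_dvd_right (Finset.dvd_prod_of_mem
        (fun i => (f i).map (Int.castRingHom ℚ)) (Finset.mem_erase.2 ⟨hii.symm, Finset.mem_univ i'⟩))
    have h2 := aeval_ne_zero_of_isCoprime (S := ℂ) h1 x
    rwa [hav, hav] at h2
  -- the bound for the roots
  obtain ⟨B, hB⟩ : ∃ B : ℝ, ∀ i (x : ℂ), aeval x (G i) = 0 → ‖x‖ ≤ B := by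
    set S : Finset ℂ := Finset.univ.biUnion fun i => (rts (G i)).toFinset with hS
    obtain ⟨B, hB⟩ := (S.image fun x => ‖x‖).bddAbove
    refine ⟨B, fun i x hx => hB ?_⟩
    rw [Finset.coe_image]
    refine ⟨x, ?_, rfl⟩
    rw [Finset.mem_coe, hS, Finset.mem_biUnion]
    refine ⟨i, Finset.mem_univ i, ?_⟩
    rw [Multiset.mem_toFinset, rts, mem_roots ((hG i).map _).ne_zero, IsRoot, eval_map]
    exact hx
  refine ⟨a, G, ⌈B⌉₊, ha0, ⟨hG, fun i => by rw [hGd]; exact hf i, fun i x => ?_, fun i i' hii x => ?_,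
    fun i x hx => (hB i x hx).trans (Nat.le_ceil _)⟩, fun i => ⟨hGd i, hGe i⟩⟩
  · rcases hsi i (x / a) with h | h
    · exact Or.inl fun h2 => h ((hz i x).1 h2)
    · exact Or.inr fun h2 => h (hz' i x h2)
  · rcases hci i i' hii (x / a) with h | h
    · exact Or.inl fun h2 => h ((hz i x).1 h2)
    · exact Or.inr fun h2 => h ((hz i' x).1 h2)

theorem aeval_shift (G : ℤ[X]) (γ : ℤ) (x : ℂ) : aeval x (G.comp (X + C γ)) = aeval (x + γ) G := by
  rw [aeval_comp, map_add, aeval_X, aeval_C]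
  rfl

theorem mem_rts {G : ℤ[X]} (hG : G.Monic) {x : ℂ} : x ∈ rts G ↔ aeval x G = 0 := by
  rw [rts, mem_roots (hG.map _).ne_zero, IsRoot, eval_map]
  rfl

theorem shift_monic {G : ℤ[X]} (hG : G.Monic) (γ : ℤ) : (G.comp (X + C γ)).Monic := hG.comp_X_add_C γ

theorem shift_natDegree (G : ℤ[X]) (γ : ℤ) : (G.comp (X + C γ)).natDegree = G.natDegree := by
  rw [natDegree_comp, natDegree_X_add_C, mul_one]

/-- **shifts** -/
theorem shift_Fm {k r : ℕ} {G : Fin k → ℤ[X]} {B₀ : ℕ} (h : MD G B₀) (γ : Fin r → ℕ) (hγ : ∀ j, B₀ < γ j)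
    (hγγ : ∀ j j', j ≠ j' → (2 * B₀ : ℤ) < |(γ j : ℤ) - γ j'|) :
    Fm (fun p : Fin k × Fin r => (G p.1).comp (X + C (γ p.2 : ℤ))) := by
  refine ⟨fun p => shift_monic (h.monic _) _, fun p => ?_, ?_, fun p => ?_⟩
  · rw [shift_natDegree]; exact h.deg _
  · rw [Polynomial.map_prod]
    apply PerfectField.separable_iff_squarefree.1
    have hav : ∀ (P : ℤ[X]) (x : ℂ), aeval x (P.map (Int.castRingHom ℚ)) = aeval x P := by
      intro P x
      rw [aeval_def, eval₂_map, aeval_def]
      congr 1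
    refine separable_prod' ?_ ?_
    · rintro ⟨i, j⟩ - ⟨i', j'⟩ - hne
      refine (isCoprime_iff_aeval_ne_zero_of_isAlgClosed (k := ℚ) ℂ _ _).2 fun x => ?_
      rw [hav, hav, aeval_shift, aeval_shift]
      by_cases hj : j = j'
      · subst hj
        have hii : i ≠ i' := fun hi => hne (by rw [hi])
        exact h.cop i i' hii _
      · by_contra hcon
        push Not at hcon
        have h1 := h.root i _ hcon.1
        have h2 := h.root i' _ hcon.2
        have h3 : ‖(((γ j : ℤ) - (γ j' : ℤ) : ℤ) : ℂ)‖ ≤ 2 * B₀ := by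
          have h4 : (((γ j : ℤ) - (γ j' : ℤ) : ℤ) : ℂ) = (x + ((γ j : ℤ) : ℂ)) - (x + ((γ j' : ℤ) : ℂ)) := by
            push_cast
            ring
          rw [h4]
          refine (norm_sub_le _ _).trans ?_
          simp only at h1 h2
          linarith
        rw [Complex.norm_intCast] at h3
        have h5 := hγγ j j' hj
        have h6 : ((2 * B₀ : ℤ) : ℝ) < ((|(γ j : ℤ) - γ j'| : ℤ) : ℝ) := by exact_mod_cast h5
        push_cast at h3 h6
        linarith
    · rintro ⟨i, j⟩ -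
      refine (isCoprime_iff_aeval_ne_zero_of_isAlgClosed (k := ℚ) ℂ _ _).2 fun x => ?_
      rw [derivative_map, hav, hav, aeval_shift, derivative_comp, map_mul, aeval_shift]
      simp only [derivative_add, derivative_X, derivative_C, add_zero, map_one, one_mul]
      exact h.sep i _
  · intro h0
    rw [coeff_zero_eq_eval_zero, eval_comp] at h0
    simp only [eval_add, eval_X, eval_C, zero_add] at h0
    have h1 := h.root p.1 ((γ p.2 : ℤ) : ℂ) (by
      have h2 : aeval ((γ p.2 : ℤ) : ℂ) (G p.1) = (((G p.1).eval (γ p.2 : ℤ) : ℤ) : ℂ) := by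
        rw [aeval_def, eval₂_at_intCast]
        rfl
      rw [h2, h0, Int.cast_zero])
    have h3 := hγ p.2
    have h4 : ‖((γ p.2 : ℤ) : ℂ)‖ = γ p.2 := by
      rw [Complex.norm_intCast]
      simp
    rw [h4] at h1
    have h5 : γ p.2 ≤ B₀ := by exact_mod_cast h1
    omega

end Pool.Agent.Zk39.PV
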