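import Mathlib
import Pool.Agent.Zk39.PV.Poly
import Pool.Agent.Zk39.PV.Lin

/-!
# Algebraic independence of the logarithms of the values of polynomials in a window
-/

set_option autoImplicit false

open Polynomial

namespace Pool.Agent.Zk39.PV

open Filter Pool.Agent.R351.GF Pool.Agent.Y113 Pool.Agent.Y916

theorem arith0 (B₀ h : ℕ) : 2 * (B₀ + h + 1) ≤ (h + 2) ^ (2 * B₀ + 3) := by
  have h2 : 2 * B₀ + 1 < 2 ^ (2 * B₀ + 1) := Nat.lt_two_pow_self
  have h3 : 2 ^ (2 * B₀ + 1) ≤ (h + 2) ^ (2 * B₀ + 1) := Nat.pow_le_pow_left (by omega) _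
  have h4 : (h + 2) ^ (2 * B₀ + 3) = (h + 2) ^ (2 * B₀ + 1) * ((h + 2) * (h + 2)) := by ring
  have h5 : (2 * B₀ + 2) * ((h + 2) * (h + 2)) ≤ (h + 2) ^ (2 * B₀ + 1) * ((h + 2) * (h + 2)) :=
    Nat.mul_le_mul_right _ (by omega)
  rw [h4]
  refine le_trans ?_ h5
  nlinarith [Nat.zero_le (B₀ * h), Nat.zero_le (B₀ * h * h)]

theorem pow_arith (B₀ h n : ℕ) : (2 * (B₀ + h + 1)) ^ n + 2 ≤ (h + 2) ^ ((2 * B₀ + 3) * n + 2) := by
  have h1 := arith0 B₀ h
  calc (2 * (B₀ + h + 1)) ^ n + 2 ≤ ((h + 2) ^ (2 * B₀ + 3)) ^ n + 2 :=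
        Nat.add_le_add_right (Nat.pow_le_pow_left h1 _) _
    _ = (h + 2) ^ ((2 * B₀ + 3) * n) + 2 := by rw [← pow_mul]
    _ ≤ (h + 2) ^ ((2 * B₀ + 3) * n) * (h + 2) ^ 2 := by
        have h5 : 1 ≤ (h + 2) ^ ((2 * B₀ + 3) * n) := Nat.one_le_pow _ _ (by omega)
        have h6 : 4 ≤ (h + 2) ^ 2 := by nlinarith
        nlinarith
    _ = _ := by rw [← pow_add]

section Seq

variable (U : Ultrafilter ℕ) (H : ℕ → ℕ)

/-- the value of `G` at `t + γ`, relative to its main term -/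
noncomputable def xs (G : ℤ[X]) (t γ : ℕ) : ℝ :=
  Real.log (aeval ((t + γ : ℕ) : ℝ) G) - G.natDegree * Real.log t

theorem window_indep {k r : ℕ} {G : Fin k → ℤ[X]} {B₀ : ℕ} (hG : MD G B₀) (t h : ℕ → ℕ)
    (γ : ℕ → Fin r → ℕ) (hγ : ∀ᶠ j in (U : Filter ℕ), ∀ l, B₀ < γ j l ∧ γ j l ≤ h j)
    (hγγ : ∀ᶠ j in (U : Filter ℕ), ∀ l l', l ≠ l' → (2 * B₀ : ℤ) < |(γ j l : ℤ) - γ j l'|)
    (hE : ∀ E : ℕ, ∀ᶠ j in (U : Filter ℕ), (h j + 2) ^ E ≤ t j)
    (D : ℕ) (hD : ∀ᶠ j in (U : Filter ℕ), (t j : ℝ) ≤ gr H j ^ D) :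
    (∀ᶠ j in (U : Filter ℕ), ∀ p : Fin k × Fin r, 0 < aeval ((t j + γ j p.2 : ℕ) : ℝ) (G p.1)) ∧
    (∀ p : Fin k × Fin r, (fun j => ((xs (G p.1) (t j) (γ j p.2) : ℝ) : ℂ)) ∈ Os U H) ∧
    AlgebraicIndependent (Zs U H)
      (fun p : Fin k × Fin r => cls U H (fun j => ((xs (G p.1) (t j) (γ j p.2) : ℝ) : ℂ))) := by
  classical
  set g : ℕ → Fin k × Fin r → ℤ[X] := fun j p => (G p.1).comp (X + C (γ j p.2 : ℤ)) with hg
  set n : ℕ := ∑ p : Fin k × Fin r, (G p.1).natDegree with hn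
  have hFm : ∀ᶠ j in (U : Filter ℕ), Fm (g j) := by
    filter_upwards [hγ, hγγ] with j h1 h2
    exact shift_Fm hG (γ j) (fun l => (h1 l).1) h2
  have hnj : ∀ j, ∑ p, (g j p).natDegree = n := by
    intro j
    exact Finset.sum_congr rfl fun p _ => shift_natDegree _ _
  have hroot : ∀ᶠ j in (U : Filter ℕ), ∀ p, ∀ ρ ∈ rts (g j p), ‖ρ‖ ≤ ((B₀ + h j : ℕ) : ℝ) := by
    filter_upwards [hγ] with j h1 p ρ hρ
    rw [mem_rts (shift_monic (hG.monic _) _), aeval_shift] at hρ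
    have h2 := hG.root p.1 _ hρ
    have h3 : ‖ρ‖ ≤ ‖ρ + ((γ j p.2 : ℤ) : ℂ)‖ + ‖((γ j p.2 : ℤ) : ℂ)‖ := by
      have := norm_sub_le (ρ + ((γ j p.2 : ℤ) : ℂ)) ((γ j p.2 : ℤ) : ℂ)
      rwa [add_sub_cancel_right] at this
    have h4 : ‖((γ j p.2 : ℤ) : ℂ)‖ = γ j p.2 := by
      rw [Complex.norm_intCast]
      simp
    have h5 : (γ j p.2 : ℝ) ≤ h j := by exact_mod_cast (h1 p.2).2
    push_cast
    linarith
  obtain ⟨K, hK⟩ := bounds n
  obtain ⟨E₁, hE₁⟩ := ev_LL n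
  set Hh : ℕ → ℕ := fun j => (2 * (B₀ + h j + 1)) ^ n with hHh
  have hHE : ∀ E : ℕ, ∀ᶠ j in (U : Filter ℕ), (Hh j + 2) ^ E ≤ t j := by
    intro E
    filter_upwards [hE (((2 * B₀ + 3) * n + 2) * E)] with j hj
    refine le_trans ?_ hj
    rw [pow_mul]
    exact Nat.pow_le_pow_left (pow_arith _ _ _) _
  have hbd : ∀ᶠ j in (U : Filter ℕ), (∀ l, |(TT (g j)).coeff l| ≤ (Hh j : ℕ)) ∧
      ∀ a l, |(CC (g j) a).coeff l| ≤ (K * ((B₀ + h j : ℕ) + 1)) ^ (2 * n) := by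
    filter_upwards [hFm, hroot] with j h1 h2
    have h3 := hK _ (g j) (B₀ + h j) h1 (hnj j) h2
    refine ⟨fun l => ?_, h3.2⟩
    have := h3.1 l
    rw [hHh]
    push_cast
    push_cast at this
    exact this
  have hval : ∀ᶠ j in (U : Filter ℕ), (∀ a, 0 < Polynomial.aeval (t j : ℝ) (g j a) ∧
      Real.log (Polynomial.aeval (t j : ℝ) (g j a)) = (g j a).natDegree * Real.log (t j) +
        ∑ s : Fin n, (((CC (g j) a).coeff s : ℤ) : ℝ) * ev (t j) (F (TT (g j)) s)) ∧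
    ∀ s : Fin n, |ev (t j) (F (TT (g j)) s)| ≤ t j := by
    filter_upwards [hFm, hroot, hbd, hHE E₁, hE (B₀ + 1)] with j h1 h2 h3 h4 h5
    refine hE₁ _ (g j) (Hh j) (t j) h1 (hnj j) h3.1 h4 fun a ρ hρ => (h2 a ρ hρ).trans_lt ?_
    have h6 : B₀ + h j < (h j + 2) ^ (B₀ + 1) := by
      have h7 : B₀ < 2 ^ B₀ := Nat.lt_two_pow_self
      have h8 : 2 ^ B₀ ≤ (h j + 2) ^ B₀ := Nat.pow_le_pow_left (by omega) _
      rw [pow_succ]
      nlinarith
    have h7 : B₀ + h j < t j := lt_of_lt_of_le h6 h5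
    exact_mod_cast h7
  have hev : ∀ j (p : Fin k × Fin r), Polynomial.aeval (t j : ℝ) (g j p) =
      Polynomial.aeval ((t j + γ j p.2 : ℕ) : ℝ) (G p.1) := by
    intro j p
    rw [hg]
    simp only
    rw [aeval_comp, map_add, aeval_X, aeval_C]
    push_cast
    rfl
  -- the functions
  have hφO : ∀ s : Fin n, (fun j => ((ev (t j) (F (TT (g j)) s) : ℝ) : ℂ)) ∈ Os U H := by
    intro s
    refine ⟨D, ?_⟩
    filter_upwards [hval, hD] with j h1 h2
    rw [Complex.norm_real, Real.norm_eq_abs]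
    exact (h1.2 s).trans h2
  set φ : Fin n → Os U H := fun s => ⟨_, hφO s⟩ with hφ
  have hind : AlgebraicIndependent (Zs U H) (fun s => (Ideal.Quotient.mk (ms U H) (φ s) : Fl U H)) := by
    apply indep_of_quant
    intro Δ
    obtain ⟨E, hEE⟩ := val_quant n Δ
    refine ⟨(D + 1) * E, ?_⟩
    filter_upwards [hFm, hbd, hHE E, hD] with j h1 h2 h3 h4 P hP0 hPd A hA1 hPA
    have h5 := hEE (Hh j) (t j) (TT (g j)) h3 (TT_coeff_zero h1) (by rw [TT_natDegree h1, hnj j])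
      (TT_squarefree h1) h2.1 P hP0 hPd A hA1 hPA
    have h6 : (fun s => ((φ s : Os U H) : ℕ → ℂ) j) =
        fun s : Fin n => algebraMap ℝ ℂ (ev (t j) (F (TT (g j)) s)) := rfl
    have h6' : MvPolynomial.aeval (fun s : Fin n => algebraMap ℝ ℂ (ev (t j) (F (TT (g j)) s))) P =
        algebraMap ℝ ℂ (MvPolynomial.aeval (fun s : Fin n => ev (t j) (F (TT (g j)) s)) P) :=
      MvPolynomial.aeval_algebraMap_apply ℂ _ P
    rw [h6, h6']
    have h7 : ‖algebraMap ℝ ℂ (MvPolynomial.aeval (fun s : Fin n => ev (t j) (F (TT (g j)) s)) P)‖ =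
        |MvPolynomial.aeval (fun s : Fin n => ev (t j) (F (TT (g j)) s)) P| := by
      rw [← Real.norm_eq_abs]
      exact Complex.norm_real _
    rw [h7]
    refine h5.trans (mul_le_mul_of_nonneg_right ?_ (abs_nonneg _))
    have hgr := gr_one H j
    have hA0 : 0 < A := by linarith
    have hgp := gr_pos H j
    calc (A * t j) ^ E ≤ ((A * gr H j) ^ (D + 1)) ^ E := by
          refine pow_le_pow_left₀ (by positivity) ?_ _
          rw [mul_pow]
          refine mul_le_mul ?_ (h4.trans (pow_le_pow_right₀ hgr (Nat.le_succ D))) (by positivity)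
            (by positivity)
          calc A = A ^ 1 := (pow_one A).symm
            _ ≤ A ^ (D + 1) := pow_le_pow_right₀ hA1 (by omega)
      _ = _ := by rw [← pow_mul]
  -- the coefficients
  have hcZ : ∀ (p : Fin k × Fin r) (s : Fin n), (fun j => (CC (g j) p).coeff s) ∈ IZ U H := by
    intro p s
    rw [mem_IZ]
    refine ⟨((K + 1) * (2 * n)) + (2 * B₀ + 3) * (2 * n) * D, ?_⟩
    filter_upwards [hbd, hE ((2 * B₀ + 3) * (2 * n)), hD] with j h1 h2 h3
    have h4 : |(((CC (g j) p).coeff s : ℤ) : ℝ)| ≤ ((K : ℝ) * ((B₀ + h j : ℕ) + 1)) ^ (2 * n) := by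
      exact_mod_cast h1.2 p s
    refine h4.trans ?_
    have hgr := gr_one H j
    have hgr2 := gr_two H j
    have h5 : (K : ℝ) ≤ gr H j ^ (K + 1) := by
      have h6 : K + 1 < 2 ^ (K + 1) := Nat.lt_two_pow_self
      have h7 : ((K + 1 : ℕ) : ℝ) < ((2 ^ (K + 1) : ℕ) : ℝ) := by exact_mod_cast h6
      push_cast at h7
      have h8 : (2 : ℝ) ^ (K + 1) ≤ gr H j ^ (K + 1) := pow_le_pow_left₀ (by norm_num) hgr2 _
      linarith
    rw [mul_pow, pow_add]
    refine mul_le_mul ?_ ?_ (by positivity) (by have := gr_pos H j; positivity)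
    · calc (K : ℝ) ^ (2 * n) ≤ (gr H j ^ (K + 1)) ^ (2 * n) := pow_le_pow_left₀ (Nat.cast_nonneg _) h5 _
        _ = _ := by rw [← pow_mul]
    · have h6 : ((B₀ + h j : ℕ) + 1) ^ (2 * n) ≤ (h j + 2) ^ ((2 * B₀ + 3) * (2 * n)) := by
        rw [pow_mul (h j + 2)]
        have h8 := arith0 B₀ (h j)
        exact Nat.pow_le_pow_left (by omega) _
      calc (((B₀ + h j : ℕ) : ℝ) + 1) ^ (2 * n) ≤ (((h j + 2) ^ ((2 * B₀ + 3) * (2 * n)) : ℕ) : ℝ) := by
            exact_mod_cast h6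
        _ ≤ t j := by exact_mod_cast h2
        _ ≤ gr H j ^ D := h3
        _ ≤ gr H j ^ ((2 * B₀ + 3) * (2 * n) * D) := by
            rcases Nat.eq_zero_or_pos n with hn0 | hn0
            · exact absurd s.2 (by omega)
            · apply pow_le_pow_right₀ hgr
              apply Nat.le_mul_of_pos_left
              positivity
  set c : Fin k × Fin r → Fin n → Zs U H := fun p s => psr U H ⟨_, hcZ p s⟩ with hc
  have hcind : ∀ v : Fin k × Fin r → Zs U H, (∀ s, ∑ a, v a * c a s = 0) → v = 0 := by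
    intro v hv
    have hsur : ∀ a, ∃ w : IZ U H, psr U H w = v a := fun a => (psi U H).rangeRestrict_surjective (v a)
    choose w hw using hsur
    have h1 : ∀ᶠ j in (U : Filter ℕ), ∀ s : Fin n, ∑ a, ((w a : IZ U H) : ℕ → ℤ) j * (CC (g j) a).coeff s = 0 := by
      rw [Filter.eventually_all]
      intro s
      have h2 := hv s
      have h3 : psi U H (∑ a, w a * ⟨_, hcZ a s⟩) = 0 := by
        have h4 : psr U H (∑ a, w a * ⟨_, hcZ a s⟩) = 0 := by
          rw [map_sum, ← h2]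
          refine Finset.sum_congr rfl fun a _ => ?_
          rw [map_mul, hw]
        exact congrArg Subtype.val h4
      rw [psi_eq_zero] at h3
      filter_upwards [h3] with j hj
      have h5 : ((∑ a, w a * ⟨_, hcZ a s⟩ : IZ U H) : ℕ → ℤ) j =
          ∑ a, ((w a : IZ U H) : ℕ → ℤ) j * (CC (g j) a).coeff s := by
        rw [← evj_apply, map_sum]
        refine Finset.sum_congr rfl fun a _ => ?_
        rw [map_mul]
        rfl
      rw [← h5]
      exact hj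
    funext a
    rw [← hw a]
    have h2 : psi U H (w a) = 0 := by
      rw [psi_eq_zero]
      filter_upwards [h1, hFm] with j h3 h4
      have h5 := CC_indep h4 (fun a => ((w a : IZ U H) : ℕ → ℤ) j) (by
        ext l
        rw [finsetSum_coeff, coeff_zero]
        simp only [coeff_C_mul]
        by_cases hl : l < n
        · exact h3 ⟨l, hl⟩
        · refine Finset.sum_eq_zero fun b _ => ?_
          rw [coeff_eq_zero_of_natDegree_lt (lt_of_lt_of_le (CC_natDegree h4 b)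
            (by rw [hnj j]; exact not_lt.1 hl)), mul_zero])
      exact congrFun h5 a
    exact Subtype.ext h2
  have hmain := lin_indep (Zs U H) _ hind c hcind
  -- the classes
  have hxO : ∀ p : Fin k × Fin r, (fun j => ((xs (G p.1) (t j) (γ j p.2) : ℝ) : ℂ)) ∈ Os U H ∧
      cls U H (fun j => ((xs (G p.1) (t j) (γ j p.2) : ℝ) : ℂ)) =
        ∑ s, (c p s : Fl U H) * (Ideal.Quotient.mk (ms U H) (φ s) : Fl U H) := by
    intro p
    have h1 : ∀ s ∈ (Finset.univ : Finset (Fin n)), ((fun j => (((CC (g j) p).coeff s : ℤ) : ℂ)) *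
        fun j => ((ev (t j) (F (TT (g j)) s) : ℝ) : ℂ)) ∈ Os U H := fun s _ =>
      (Os U H).mul_mem (int_Os (hcZ p s)) (hφO s)
    obtain ⟨h2, h3⟩ := cls_sum Finset.univ _ h1
    have h4 : ∀ᶠ j in (U : Filter ℕ), (∑ s : Fin n, ((fun j => (((CC (g j) p).coeff s : ℤ) : ℂ)) *
        fun j => ((ev (t j) (F (TT (g j)) s) : ℝ) : ℂ))) j = ((xs (G p.1) (t j) (γ j p.2) : ℝ) : ℂ) := by
      filter_upwards [hval] with j hj
      rw [Finset.sum_apply, xs, ← hev j p, (hj.1 p).2, hg]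
      simp only [shift_natDegree, Pi.mul_apply]
      push_cast
      ring
    refine ⟨Os_congr h4 h2, ?_⟩
    rw [← cls_congr h4, h3]
    refine Finset.sum_congr rfl fun s _ => ?_
    rw [cls_mul (int_Os (hcZ p s)) (hφO s), cls_of (hφO s)]
    congr 1
    exact cls_int ⟨_, hcZ p s⟩
  refine ⟨?_, fun p => (hxO p).1, ?_⟩
  · filter_upwards [hval] with j hj p
    rw [← hev j p]
    exact (hj.1 p).1
  · have h1 : (fun p : Fin k × Fin r => cls U H (fun j => ((xs (G p.1) (t j) (γ j p.2) : ℝ) : ℂ))) =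
        fun p => ∑ s, (c p s : Fl U H) * (Ideal.Quotient.mk (ms U H) (φ s) : Fl U H) :=
      funext fun p => (hxO p).2
    rw [h1]
    exact hmain

end Seq

end Pool.Agent.Zk39.PV
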