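import Mathlib
import Pool.Agent.Zk39.PV.Ind
import Pool.Agent.Zk39.PV.Acl

/-!
# Windows: an element such that the logarithms of the values of the polynomials are independent
-/

set_option autoImplicit false

open Polynomial

namespace Pool.Agent.Zk39.PV

open Filter Pool.Agent.R351.GF

/-- separated elements of a large set -/
theorem exists_sep (r q : ℕ) (A : Finset ℕ) (hA : r * q ≤ A.card) (hq : 0 < q) :
    ∃ n : Fin r → ℕ, (∀ l, n l ∈ A) ∧ ∀ l l', l ≠ l' → (q : ℤ) ≤ |(n l : ℤ) - n l'| := by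
  set e := A.orderEmbOfFin rfl with he
  have hlt : ∀ l : Fin r, q * (l : ℕ) < A.card := fun l => by
    have h1 : q * (l : ℕ) < q * r := Nat.mul_lt_mul_of_pos_left l.2 hq
    rw [mul_comm q r] at h1
    omega
  have hmono : ∀ i i' : Fin A.card, (i : ℕ) ≤ i' → (e i : ℕ) + ((i' : ℕ) - i) ≤ e i' := by
    intro i i' hii
    obtain ⟨i', hi'⟩ := i'
    simp only at hii
    simp only
    induction i' with
    | zero =>
      have : (i : ℕ) = 0 := by omega
      have h2 : i = ⟨0, hi'⟩ := Fin.ext this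
      rw [h2]
      simp
    | succ m ih =>
      rcases Nat.lt_or_ge m i with h | h
      · have h2 : i = ⟨m + 1, hi'⟩ := Fin.ext (by simp only; omega)
        rw [h2]
        simp
      · have h2 := ih (by omega) h
        have h3 : e ⟨m, by omega⟩ < e ⟨m + 1, hi'⟩ := e.strictMono (by
          rw [Fin.lt_def]
          simp)
        omega
  refine ⟨fun l => e ⟨q * l, hlt l⟩, fun l => Finset.orderEmbOfFin_mem _ _ _, fun l l' hll => ?_⟩
  have key : ∀ l l' : Fin r, l < l' → (q : ℤ) ≤ (e ⟨q * l', hlt l'⟩ : ℤ) - e ⟨q * l, hlt l⟩ := by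
    intro l l' h
    have h1 : (l : ℕ) + 1 ≤ l' := h
    have h2 : q * (l : ℕ) + q ≤ q * l' := by
      calc q * (l : ℕ) + q = q * (l + 1) := by ring
        _ ≤ q * l' := Nat.mul_le_mul_left _ h1
    have h3 := hmono ⟨q * l, hlt l⟩ ⟨q * l', hlt l'⟩ (by simp only; omega)
    simp only at h3
    have h4 : q ≤ q * (l' : ℕ) - q * l := by omega
    omega
  rcases lt_or_gt_of_ne hll with h | h
  · have := key l l' h
    rw [abs_sub_comm]
    exact this.trans (le_abs_self _)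
  · exact (key l' l h).trans (le_abs_self _)

section Seq

variable (U : Ultrafilter ℕ) (H : ℕ → ℕ)

/-- the class of the logarithms of the absolute values of the values of `f` -/
noncomputable def lf (f : ℤ[X]) (n : ℕ → ℕ) : Fl U H :=
  cls U H (fun j => ((Real.log |aeval (n j : ℝ) f| : ℝ) : ℂ))

theorem real_Os {x : ℕ → ℝ} (D : ℕ) (h : ∀ᶠ j in (U : Filter ℕ), |x j| ≤ gr H j ^ D) :
    (fun j => ((x j : ℝ) : ℂ)) ∈ Os U H := by
  refine ⟨D, ?_⟩
  filter_upwards [h] with j hj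
  rwa [Complex.norm_real, Real.norm_eq_abs]

theorem abs_log_nat_le (n : ℕ) : |Real.log n| ≤ n := by
  rw [abs_of_nonneg (Real.log_natCast_nonneg n)]
  exact (Real.log_le_self (Nat.cast_nonneg n))

/-- **Good elements in large subsets of windows.** -/
theorem exists_good {k : ℕ} (f : Fin k → ℤ[X]) (hf : ∀ i, 0 < (f i).natDegree)
    (hsq : Squarefree ((∏ i, f i).map (Int.castRingHom ℚ))) (N w : ℕ → ℕ)
    (hE : ∀ E : ℕ, ∀ᶠ j in (U : Filter ℕ), (w j + 2) ^ E ≤ N j)
    (hNH : ∀ᶠ j in (U : Filter ℕ), N j ≤ H j) (A : ℕ → Finset ℕ)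
    (hA : ∀ j, A j ⊆ Finset.Icc (N j) (N j + w j))
    (hM : ∀ M : ℕ, ∀ᶠ j in (U : Filter ℕ), M ≤ (A j).card) (S : Set (Fl U H)) (hS : S.Finite) :
    ∃ n : ℕ → ℕ, (∀ᶠ j in (U : Filter ℕ), n j ∈ A j) ∧
      (∀ i, (fun j => ((Real.log |aeval (n j : ℝ) (f i)| : ℝ) : ℂ)) ∈ Os U H) ∧
      (∀ᶠ j in (U : Filter ℕ), ∀ i, aeval (n j : ℝ) (f i) ≠ 0) ∧
      ∀ i : Fin k, lf U H (f i) n ∉ acl (Zs U H) (S ∪ (fun i' => lf U H (f i') n) '' {i' | i' < i}) := by
  classical
  obtain ⟨a, G, B₀, ha, hG, hid⟩ := exists_MD f hf hsq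
  have haR : (0 : ℝ) < a := by exact_mod_cast ha
  have hlc : ∀ i, (f i).leadingCoeff ≠ 0 := fun i => by
    rw [Ne, leadingCoeff_eq_zero]
    intro h
    have := hf i
    rw [h, natDegree_zero] at this
    exact lt_irrefl _ this
  set K₀ : ℕ := B₀ + 1 with hK₀
  set q : ℕ := 2 * B₀ + 1 with hq
  set t : ℕ → ℕ := fun j => a * (N j - K₀) with ht
  set κ : Fin k → ℝ := fun i => Real.log |((f i).leadingCoeff : ℝ)| - (f i).natDegree * Real.log a with hκ
  set τ : Fl U H := cls U H (fun j => ((Real.log (t j) : ℝ) : ℂ)) with hτ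
  set S' : Set (Fl U H) := insert τ (S ∪ Set.range fun i => cls U H (fun _ => ((κ i : ℝ) : ℂ))) with hS'
  have hS'fin : S'.Finite := (hS.union (Set.finite_range _)).insert _
  set r : ℕ := S'.ncard + 1 with hr
  have htD : ∀ᶠ j in (U : Filter ℕ), (t j : ℝ) ≤ gr H j ^ (a + 1) := by
    filter_upwards [hNH] with j hj
    have h1 : t j ≤ a * H j := Nat.mul_le_mul_left _ ((Nat.sub_le _ _).trans hj)
    have h2 : (t j : ℝ) ≤ a * H j := by exact_mod_cast h1
    have h3 : (a : ℝ) ≤ 2 ^ a := by exact_mod_cast (Nat.lt_two_pow_self : a < 2 ^ a).le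
    have h4 : (2 : ℝ) ^ a ≤ gr H j ^ a := pow_le_pow_left₀ (by norm_num) (gr_two H j) _
    have h5 : (H j : ℝ) ≤ gr H j := by unfold gr; linarith
    calc (t j : ℝ) ≤ a * H j := h2
      _ ≤ gr H j ^ a * gr H j := mul_le_mul (h3.trans h4) h5 (Nat.cast_nonneg _) (by have := gr_pos H j; positivity)
      _ = _ := (pow_succ _ _).symm
  have hex : ∀ j, ∃ n : Fin r → ℕ, r * q ≤ (A j).card →
      (∀ l, n l ∈ A j) ∧ ∀ l l', l ≠ l' → (q : ℤ) ≤ |(n l : ℤ) - n l'| := by
    intro j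
    by_cases h : r * q ≤ (A j).card
    · obtain ⟨n, hn⟩ := exists_sep r q (A j) h (by omega)
      exact ⟨n, fun _ => hn⟩
    · exact ⟨0, fun h' => absurd h' h⟩
  choose n hn' using hex
  have hn : ∀ᶠ j in (U : Filter ℕ), (∀ l, n j l ∈ A j) ∧ ∀ l l', l ≠ l' → (q : ℤ) ≤ |(n j l : ℤ) - n j l'| := by
    filter_upwards [hM (r * q)] with j hj
    exact hn' j hj
  have hK : ∀ᶠ j in (U : Filter ℕ), 2 * K₀ ≤ N j := by
    filter_upwards [hE (2 * K₀)] with j hj
    have h1 : 2 * K₀ < 2 ^ (2 * K₀) := Nat.lt_two_pow_self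
    have h2 : 2 ^ (2 * K₀) ≤ (w j + 2) ^ (2 * K₀) := Nat.pow_le_pow_left (by omega) _
    omega
  set γ : ℕ → Fin r → ℕ := fun j l => a * (n j l + K₀ - N j) with hγ
  have htγ : ∀ᶠ j in (U : Filter ℕ), ∀ l, t j + γ j l = a * n j l := by
    filter_upwards [hn, hK] with j h1 h2 l
    have h3 := Finset.mem_Icc.1 (hA j (h1.1 l))
    rw [ht, hγ]
    simp only
    rw [← mul_add]
    congr 1
    omega
  set h : ℕ → ℕ := fun j => a * (w j + K₀) with hh
  obtain ⟨hpos, hxO, hind⟩ := window_indep U H hG t h γ (by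
      filter_upwards [hn] with j h1 l
      have h3 := Finset.mem_Icc.1 (hA j (h1.1 l))
      rw [hγ, hh]
      simp only
      constructor
      · have h4 : K₀ ≤ n j l + K₀ - N j := by omega
        calc B₀ < K₀ := by omega
          _ ≤ a * K₀ := Nat.le_mul_of_pos_left _ ha
          _ ≤ _ := Nat.mul_le_mul_left _ h4
      · exact Nat.mul_le_mul_left _ (by omega)) (by
      filter_upwards [hn] with j h1 l l' hll
      have h3 := Finset.mem_Icc.1 (hA j (h1.1 l))
      have h3' := Finset.mem_Icc.1 (hA j (h1.1 l'))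
      have h4 := h1.2 l l' hll
      rw [hγ]
      simp only
      have h5 : ((a * (n j l + K₀ - N j) : ℕ) : ℤ) - ((a * (n j l' + K₀ - N j) : ℕ) : ℤ) =
          a * ((n j l : ℤ) - n j l') := by
        rw [Nat.cast_mul, Nat.cast_mul, ← mul_sub, Nat.cast_sub (by omega), Nat.cast_sub (by omega)]
        push_cast
        ring
      rw [h5, abs_mul, Nat.abs_cast]
      have h6 : (1 : ℤ) ≤ a := by exact_mod_cast ha
      have h7 : (0 : ℤ) ≤ |(n j l : ℤ) - n j l'| := abs_nonneg _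
      calc (2 * B₀ : ℤ) < q := by rw [hq]; push_cast; omega
        _ ≤ |(n j l : ℤ) - n j l'| := h4
        _ ≤ _ := le_mul_of_one_le_left h7 h6) (by
      intro E
      filter_upwards [hE ((a + K₀ + 2) * E + 1), hK] with j h1 h2
      rw [hh, ht]
      simp only
      have h3 : a * (w j + K₀) + 2 ≤ (w j + 2) ^ (a + K₀ + 2) := by
        have e1 : a < 2 ^ a := Nat.lt_two_pow_self
        have e2 : 2 ^ a ≤ (w j + 2) ^ a := Nat.pow_le_pow_left (by omega) _
        have e3 : K₀ < 2 ^ K₀ := Nat.lt_two_pow_self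
        have e4 : 2 ^ K₀ ≤ (w j + 2) ^ K₀ := Nat.pow_le_pow_left (by omega) _
        have e5 : (w j + 2) ^ (a + K₀ + 2) = (w j + 2) ^ a * ((w j + 2) ^ K₀ * ((w j + 2) * (w j + 2))) := by ring
        have e6 : w j + K₀ + 2 ≤ (w j + 2) ^ K₀ * ((w j + 2) * (w j + 2)) := by
          have e7 : (K₀ + 1) * ((w j + 2) * (w j + 2)) ≤ (w j + 2) ^ K₀ * ((w j + 2) * (w j + 2)) :=
            Nat.mul_le_mul_right _ (by omega)
          refine le_trans ?_ e7
          nlinarith [Nat.zero_le (K₀ * w j), Nat.zero_le (K₀ * w j * w j)]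
        rw [e5]
        calc a * (w j + K₀) + 2 ≤ (a + 1) * (w j + K₀ + 2) := by nlinarith
          _ ≤ (w j + 2) ^ a * ((w j + 2) ^ K₀ * ((w j + 2) * (w j + 2))) :=
              Nat.mul_le_mul (by omega) e6
      have h4 : (a * (w j + K₀) + 2) ^ E ≤ (w j + 2) ^ ((a + K₀ + 2) * E) := by
        rw [pow_mul]
        exact Nat.pow_le_pow_left h3 _
      have h5 : 2 * (w j + 2) ^ ((a + K₀ + 2) * E) ≤ N j := by
        refine le_trans ?_ h1
        rw [pow_succ, mul_comm]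
        exact Nat.mul_le_mul_left _ (by omega)
      have h6 : (w j + 2) ^ ((a + K₀ + 2) * E) ≤ N j - K₀ := by omega
      exact h4.trans (h6.trans (Nat.le_mul_of_pos_left _ ha))) (a + 1) htD
  -- the identity
  have hlog : ∀ᶠ j in (U : Filter ℕ), ∀ p : Fin k × Fin r, aeval (n j p.2 : ℝ) (f p.1) ≠ 0 ∧
      Real.log |aeval (n j p.2 : ℝ) (f p.1)| = xs (G p.1) (t j) (γ j p.2) + κ p.1 +
        (f p.1).natDegree * Real.log (t j) := by
    filter_upwards [hpos, htγ] with j h1 h2 p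
    have h3 := congrArg (aeval (n j p.2 : ℝ)) (hid p.1).2
    rw [map_mul, map_mul, aeval_comp, aeval_C, aeval_C, map_mul, aeval_C, aeval_X] at h3
    simp only [algebraMap_int_eq, eq_intCast, Int.cast_pow, Int.cast_natCast] at h3
    have h4 : (a : ℝ) * (n j p.2 : ℝ) = ((t j + γ j p.2 : ℕ) : ℝ) := by
      rw [h2 p.2]
      push_cast
      rfl
    rw [h4] at h3
    have h5 := h1 p
    have h6 : ((f p.1).leadingCoeff : ℝ) ≠ 0 := by exact_mod_cast hlc p.1
    have h7 : (0 : ℝ) < (a : ℝ) ^ (f p.1).natDegree := by positivity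
    have h8 : aeval (n j p.2 : ℝ) (f p.1) ≠ 0 := by
      intro h9
      rw [h9, mul_zero] at h3
      exact mul_ne_zero h6 h5.ne' h3
    refine ⟨h8, ?_⟩
    have h9 := congrArg (fun x : ℝ => Real.log |x|) h3
    simp only [abs_mul] at h9
    rw [Real.log_mul (abs_ne_zero.2 h6) (abs_ne_zero.2 h5.ne'), abs_of_pos h5,
      Real.log_mul (abs_ne_zero.2 h7.ne') (abs_ne_zero.2 h8), abs_of_pos h7, Real.log_pow] at h9
    rw [xs, hκ, (hid p.1).1]
    simp only
    linarith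
  have hκO : ∀ i, (fun _ : ℕ => ((κ i : ℝ) : ℂ)) ∈ Os U H := fun i => const_Os _
  have hτO : (fun j => ((Real.log (t j) : ℝ) : ℂ)) ∈ Os U H := by
    refine real_Os U H (a + 1) ?_
    filter_upwards [htD] with j hj
    exact (abs_log_nat_le _).trans hj
  have hdO : ∀ d : ℕ, (fun _ : ℕ => ((d : ℕ) : ℂ)) ∈ Os U H := fun d => const_Os _
  have hyO : ∀ p : Fin k × Fin r, (fun j => ((Real.log |aeval (n j p.2 : ℝ) (f p.1)| : ℝ) : ℂ)) ∈ Os U H ∧
      lf U H (f p.1) (fun j => n j p.2) = cls U H (fun j => ((xs (G p.1) (t j) (γ j p.2) : ℝ) : ℂ)) +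
        cls U H (fun _ => ((κ p.1 : ℝ) : ℂ)) + ((f p.1).natDegree : Fl U H) * τ := by
    intro p
    have h1 : (((fun j => ((xs (G p.1) (t j) (γ j p.2) : ℝ) : ℂ)) + fun _ => ((κ p.1 : ℝ) : ℂ)) +
        (fun _ : ℕ => (((f p.1).natDegree : ℕ) : ℂ)) * fun j => ((Real.log (t j) : ℝ) : ℂ)) ∈ Os U H :=
      (Os U H).add_mem ((Os U H).add_mem (hxO p) (hκO p.1)) ((Os U H).mul_mem (hdO _) hτO)
    have h2 : ∀ᶠ j in (U : Filter ℕ), ((((fun j => ((xs (G p.1) (t j) (γ j p.2) : ℝ) : ℂ)) +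
        fun _ => ((κ p.1 : ℝ) : ℂ)) + (fun _ : ℕ => (((f p.1).natDegree : ℕ) : ℂ)) *
          fun j => ((Real.log (t j) : ℝ) : ℂ) : ℕ → ℂ)) j =
        ((Real.log |aeval (n j p.2 : ℝ) (f p.1)| : ℝ) : ℂ) := by
      filter_upwards [hlog] with j hj
      rw [(hj p).2]
      simp only [Pi.add_apply, Pi.mul_apply]
      push_cast
      ring
    refine ⟨Os_congr h2 h1, ?_⟩
    rw [lf, ← cls_congr h2, cls_add ((Os U H).add_mem (hxO p) (hκO p.1)) ((Os U H).mul_mem (hdO _) hτO),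
      cls_add (hxO p) (hκO p.1), cls_mul (hdO _) hτO, hτ]
    congr 2
    have h3 : (fun _ : ℕ => (((f p.1).natDegree : ℕ) : ℂ)) ∈ Os U H := hdO _
    rw [cls_of h3]
    exact map_natCast (Ideal.Quotient.mk (ms U H)) (f p.1).natDegree
  obtain ⟨l, hl⟩ := exists_block (R := Zs U H) (S := S) (S' := S')
    (y := fun p : Fin k × Fin r => lf U H (f p.1) (fun j => n j p.2)) hind
    (fun x hx => Or.inr (Or.inl hx)) hS'fin (by omega) (by
      intro p
      have h1 := (hyO p).2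
      have h2 : cls U H (fun j => ((xs (G p.1) (t j) (γ j p.2) : ℝ) : ℂ)) =
          lf U H (f p.1) (fun j => n j p.2) - cls U H (fun _ => ((κ p.1 : ℝ) : ℂ)) -
            ((f p.1).natDegree : Fl U H) * τ := by
        rw [h1]
        ring
      rw [h2]
      refine acl_sub (acl_sub (subset_acl (Or.inr rfl)) (subset_acl (Or.inl (Or.inr (Or.inr ⟨p.1, rfl⟩)))))
        (acl_mul (acl_R (natCast_mem _ _)) (subset_acl (Or.inl (Or.inl rfl)))))
  refine ⟨fun j => n j l, ?_, fun i => (hyO (i, l)).1, ?_, hl⟩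
  · filter_upwards [hn] with j hj
    exact hj.1 l
  · filter_upwards [hlog] with j hj i
    exact (hj (i, l)).1

end Seq

end Pool.Agent.Zk39.PV
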