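import Mathlib
import Pool.Agent.Zk39.PV.Win

/-!
# Tuples
-/

set_option autoImplicit false

open Polynomial

namespace Pool.Agent.Zk39.PV

open Filter Pool.Agent.R351.GF Finset

section Fib

variable {m : ℕ} (I : Fin (m + 1) → Finset ℕ) (W : ℕ)

open Classical in
/-- the fibre over the first coordinate -/
noncomputable def fibW (B : Finset (Fin (m + 1) → ℕ)) (a : ℕ) : Finset (Fin m → ℕ) :=
  (Fintype.piFinset fun v : Fin m => I v.succ).filter (fun x => (Fin.cons a x : Fin (m + 1) → ℕ) ∈ B)

variable {I W} (hI : ∀ v, (I v).card = W)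

include hI in
theorem card_fibW_le (B : Finset (Fin (m + 1) → ℕ)) (a : ℕ) : (fibW I B a).card ≤ W ^ m := by
  classical
  refine (Finset.card_filter_le _ _).trans ?_
  rw [Fintype.card_piFinset]
  simp [hI]

theorem card_le_sum_fibW {B : Finset (Fin (m + 1) → ℕ)} (hB : B ⊆ Fintype.piFinset I) :
    B.card ≤ ∑ a ∈ I 0, (fibW I B a).card := by
  classical
  rw [Finset.card_eq_sum_card_fiberwise (f := fun n : Fin (m + 1) → ℕ => n 0) (t := I 0)
    (fun n hn => (Fintype.mem_piFinset.1 (hB hn)) 0)]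
  refine Finset.sum_le_sum fun a _ => ?_
  apply Finset.card_le_card_of_injOn (fun f => Fin.tail f)
  · intro f hf
    have hf' : f ∈ B.filter (fun f => f 0 = a) := hf
    rw [Finset.mem_filter] at hf'
    have hcons : (Fin.cons a (Fin.tail f) : Fin (m + 1) → ℕ) = f := by
      rw [← hf'.2]; exact Fin.cons_self_tail f
    show Fin.tail f ∈ _
    rw [Finset.mem_coe, fibW, Finset.mem_filter, Fintype.mem_piFinset]
    refine ⟨fun i => (Fintype.mem_piFinset.1 (hB hf'.1)) i.succ, ?_⟩
    rw [hcons]
    exact hf'.1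
  · intro n hn m hm h
    have hn' : n ∈ B.filter (fun f => f 0 = a) := hn
    have hm' : m ∈ B.filter (fun f => f 0 = a) := hm
    rw [Finset.mem_filter] at hn' hm'
    rw [← Fin.cons_self_tail n, ← Fin.cons_self_tail m, hn'.2, hm'.2]
    have : Fin.tail n = Fin.tail m := h
    rw [this]

variable (I W)

open Classical in
/-- the first coordinates with a large fibre -/
noncomputable def bigW (B : Finset (Fin (m + 1) → ℕ)) : Finset ℕ :=
  (I 0).filter (fun a => B.card ≤ 2 * W * (fibW I B a).card)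

variable {I W}

include hI in
theorem card_le_bigW (hW : 0 < W) {B : Finset (Fin (m + 1) → ℕ)} (hB : B ⊆ Fintype.piFinset I) :
    B.card ≤ 2 * (bigW I W B).card * W ^ m := by
  classical
  have h1 := card_le_sum_fibW hB
  rw [← Finset.sum_filter_add_sum_filter_not (I 0) (fun a => B.card ≤ 2 * W * (fibW I B a).card)] at h1
  have h2 : ∑ a ∈ (I 0).filter (fun a => B.card ≤ 2 * W * (fibW I B a).card), (fibW I B a).card ≤
      (bigW I W B).card * W ^ m := by
    refine (Finset.sum_le_sum fun a _ => card_fibW_le hI B a).trans ?_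
    rw [Finset.sum_const, smul_eq_mul]
    rfl
  have h3 : 2 * W * ∑ a ∈ (I 0).filter (fun a => ¬ B.card ≤ 2 * W * (fibW I B a).card),
      (fibW I B a).card ≤ W * B.card := by
    rw [Finset.mul_sum]
    refine (Finset.sum_le_sum fun a ha => (not_le.1 (Finset.mem_filter.1 ha).2).le).trans ?_
    rw [Finset.sum_const, smul_eq_mul]
    refine Nat.mul_le_mul_right _ ((Finset.card_filter_le _ _).trans ?_)
    rw [hI]
  have h4 : 2 * ∑ a ∈ (I 0).filter (fun a => ¬ B.card ≤ 2 * W * (fibW I B a).card),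
      (fibW I B a).card ≤ B.card := by
    apply Nat.le_of_mul_le_mul_left _ hW
    linarith
  have h5 : 2 * (bigW I W B).card * W ^ m = 2 * ((bigW I W B).card * W ^ m) := by ring
  omega

end Fib

section Seq

variable (U : Ultrafilter ℕ) (H : ℕ → ℕ)

/-- the intervals -/
def iv {m : ℕ} (N : Fin m → ℕ) (w : ℕ) (v : Fin m) : Finset ℕ := Finset.Icc (N v) (N v + w)

theorem iv_card {m : ℕ} (N : Fin m → ℕ) (w : ℕ) (v : Fin m) : (iv N w v).card = w + 1 := by
  rw [iv, Nat.card_Icc]
  omega

/-- **Chains in large sets of tuples.** -/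
theorem exists_tuple {k : ℕ} (f : Fin k → ℤ[X]) (hf : ∀ i, 0 < (f i).natDegree)
    (hsq : Squarefree ((∏ i, f i).map (Int.castRingHom ℚ))) (w : ℕ → ℕ) (m : ℕ) :
    ∀ (N : ℕ → Fin m → ℕ), (∀ (E : ℕ), ∀ᶠ j in (U : Filter ℕ), ∀ v, (w j + 2) ^ E ≤ N j v) →
    (∀ᶠ j in (U : Filter ℕ), ∀ v, N j v ≤ H j) →
    ∀ B : ℕ → Finset (Fin m → ℕ), (∀ j, B j ⊆ Fintype.piFinset (iv (N j) (w j))) →
    (∀ M : ℕ, ∀ᶠ j in (U : Filter ℕ), M * (w j + 1) ^ m ≤ (B j).card * (w j + 1)) →
    ∀ S : Set (Fl U H), S.Finite →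
    ∃ n : ℕ → Fin m → ℕ, (∀ᶠ j in (U : Filter ℕ), n j ∈ B j) ∧
      (∀ v i, (fun j => ((Real.log |aeval (n j v : ℝ) (f i)| : ℝ) : ℂ)) ∈ Os U H) ∧
      (∀ᶠ j in (U : Filter ℕ), ∀ v i, aeval (n j v : ℝ) (f i) ≠ 0) ∧
      ∀ v i, lf U H (f i) (fun j => n j v) ∉
        acl (Zs U H) (S ∪ (fun p : Fin m × Fin k => lf U H (f p.2) (fun j => n j p.1)) ''
          {p | p.1 < v ∨ (p.1 = v ∧ p.2 < i)}) := by
  classical
  induction m with
  | zero =>
    intro N _ _ B _ hL S _
    have h1 : ∀ᶠ j in (U : Filter ℕ), (fun i : Fin 0 => i.elim0 : Fin 0 → ℕ) ∈ B j := by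
      filter_upwards [hL 1] with j hj
      have h3 : 0 < (B j).card := by
        rw [pow_zero, mul_one] at hj
        exact Nat.pos_of_mul_pos_right (by omega : 0 < (B j).card * (w j + 1)) |> fun h => by
          rcases Nat.eq_zero_or_pos (B j).card with h0 | h0
          · rw [h0, zero_mul] at hj; omega
          · exact h0
      obtain ⟨n, hn⟩ := Finset.card_pos.1 h3
      have : n = (fun i : Fin 0 => i.elim0 : Fin 0 → ℕ) := funext fun i => i.elim0
      rwa [← this]
    exact ⟨fun _ => fun i => i.elim0, h1, fun v => v.elim0, Eventually.of_forall fun j v => v.elim0,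
      fun v => v.elim0⟩
  | succ m ih =>
    intro N hE hNH B hB hL S hS
    -- the first coordinate
    obtain ⟨a, ha, haO, hane, hat⟩ := exists_good U H f hf hsq (fun j => N j 0) w
      (fun E => (hE E).mono fun j hj => hj 0) (hNH.mono fun j hj => hj 0)
      (fun j => bigW (iv (N j) (w j)) (w j + 1) (B j))
      (fun j => (Finset.filter_subset _ _)) (by
        intro M
        filter_upwards [hL (2 * M)] with j hj
        have h1 := card_le_bigW (fun v => iv_card (N j) (w j) v) (Nat.succ_pos _) (hB j)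
        have h2 : 2 * M * (w j + 1) ^ m ≤ (B j).card := by
          have h3 : (2 * M * (w j + 1) ^ m) * (w j + 1) ≤ (B j).card * (w j + 1) := by
            refine le_trans (le_of_eq ?_) hj
            ring
          exact Nat.le_of_mul_le_mul_right h3 (Nat.succ_pos _)
        have h3 : 2 * M * (w j + 1) ^ m ≤ 2 * (bigW (iv (N j) (w j)) (w j + 1) (B j)).card * (w j + 1) ^ m :=
          h2.trans h1
        have h4 := Nat.le_of_mul_le_mul_right h3 (by positivity)
        omega) S hS
    -- the fibre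
    set S₁ : Set (Fl U H) := S ∪ Set.range (fun i => lf U H (f i) a) with hS₁
    have hS₁f : S₁.Finite := hS.union (Set.finite_range _)
    obtain ⟨x, hx, hxO, hxne, hxt⟩ := ih (fun j v => N j v.succ)
      (fun E => (hE E).mono fun j hj v => hj v.succ) (hNH.mono fun j hj v => hj v.succ)
      (fun j => fibW (iv (N j) (w j)) (B j) (a j)) (fun j => (Finset.filter_subset _ _)) (by
        intro M
        filter_upwards [hL (2 * M), ha] with j hj haj
        have h1 := (Finset.mem_filter.1 haj).2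
        have h2 : (2 * M * (w j + 1) ^ m) * (w j + 1) ≤
            (2 * (w j + 1) * (fibW (iv (N j) (w j)) (B j) (a j)).card) * (w j + 1) := by
          calc (2 * M * (w j + 1) ^ m) * (w j + 1) = 2 * M * (w j + 1) ^ (m + 1) := by ring
            _ ≤ (B j).card * (w j + 1) := hj
            _ ≤ _ := Nat.mul_le_mul_right _ h1
        have h3 := Nat.le_of_mul_le_mul_right h2 (Nat.succ_pos _)
        nlinarith) S₁ hS₁f
    refine ⟨fun j => Fin.cons (a j) (x j), ?_, ?_, ?_, ?_⟩
    · filter_upwards [hx] with j hj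
      exact (Finset.mem_filter.1 hj).2
    · intro v i
      refine Fin.cases ?_ (fun v => ?_) v
      · exact haO i
      · exact hxO v i
    · filter_upwards [hane, hxne] with j h1 h2 v i
      refine Fin.cases ?_ (fun v => ?_) v
      · exact h1 i
      · exact h2 v i
    · intro v
      refine Fin.cases (fun i hcon => ?_) (fun v i hcon => ?_) v
      · apply hat i
        refine acl_mono ?_ hcon
        rintro y (hy | ⟨⟨v', i'⟩, hp, rfl⟩)
        · exact Or.inl hy
        · rcases hp with hp | ⟨hp1, hp2⟩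
          · exact absurd hp (Fin.not_lt_zero v')
          · refine Or.inr ⟨i', hp2, ?_⟩
            simp only at hp1
            subst hp1
            rfl
      · apply hxt v i
        refine acl_mono ?_ hcon
        rintro y (hy | ⟨⟨v', i'⟩, hp, rfl⟩)
        · exact Or.inl (Or.inl hy)
        · revert hp
          refine Fin.cases ?_ (fun v' => ?_) v'
          · intro _
            exact Or.inl (Or.inr ⟨i', rfl⟩)
          · intro hp
            refine Or.inr ⟨(v', i'), ?_, rfl⟩
            rcases hp with hp | ⟨hp1, hp2⟩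
            · exact Or.inl (Fin.succ_lt_succ_iff.1 hp)
            · exact Or.inr ⟨Fin.succ_injective _ hp1, hp2⟩

/-- the flattened chain -/
theorem flat_chain {F : Type} [Field F] {R : Subring F} {m k : ℕ} {S : Set F} {z : Fin m × Fin k → F}
    (h : ∀ v i, z (v, i) ∉ acl R (S ∪ z '' {p | p.1 < v ∨ (p.1 = v ∧ p.2 < i)})) (q : Fin (m * k)) :
    z (finProdFinEquiv.symm q) ∉ acl R (S ∪ (fun q' => z (finProdFinEquiv.symm q')) '' {q' | q' < q}) := by
  intro hcon
  set p := finProdFinEquiv.symm q with hp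
  apply h p.1 p.2
  refine acl_mono ?_ hcon
  rintro y (hy | ⟨q', hq', rfl⟩)
  · exact Or.inl hy
  · refine Or.inr ⟨finProdFinEquiv.symm q', ?_, rfl⟩
    set p' := finProdFinEquiv.symm q' with hp'
    have e1 : q = finProdFinEquiv p := by rw [hp, Equiv.apply_symm_apply]
    have e2 : q' = finProdFinEquiv p' := by rw [hp', Equiv.apply_symm_apply]
    have h1 : (q' : ℕ) < q := hq'
    rw [e1, e2, finProdFinEquiv_apply_val, finProdFinEquiv_apply_val] at h1
    show p'.1 < p.1 ∨ (p'.1 = p.1 ∧ p'.2 < p.2)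
    rcases lt_trichotomy p'.1 p.1 with h2 | h2 | h2
    · exact Or.inl h2
    · refine Or.inr ⟨h2, ?_⟩
      rw [h2] at h1
      rw [Fin.lt_def]
      omega
    · exfalso
      have h3 : (p.1 : ℕ) + 1 ≤ p'.1 := h2
      have h4 : k * ((p.1 : ℕ) + 1) ≤ k * p'.1 := Nat.mul_le_mul_left _ h3
      have h5 := p.2.2
      rw [mul_add, mul_one] at h4
      omega

end Seq

end Pool.Agent.Zk39.PV
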