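import Mathlib
import Pool.Agent.Zk39.PV.Tup

/-!
# The count at one scale
-/

set_option autoImplicit false

namespace Pool.Agent.Zk39.PV

open Filter Pool.Agent.R351.GF

section Mons

/-- the exponents of total degree at most `d` -/
def mons (σ : Type) [Fintype σ] [DecidableEq σ] (d : ℕ) : Finset (σ →₀ ℕ) :=
  (Finset.range (d + 1)).biUnion fun i => Finset.univ.finsuppAntidiag i

variable {σ : Type} [Fintype σ] [DecidableEq σ] {d : ℕ}

theorem mem_mons {s : σ →₀ ℕ} : s ∈ mons σ d ↔ ∑ i, s i ≤ d := by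
  rw [mons, Finset.mem_biUnion]
  constructor
  · rintro ⟨i, hi, h⟩
    rw [Finset.mem_finsuppAntidiag] at h
    have := Finset.mem_range.1 hi
    have h1 : ∑ i, s i = i := h.1
    omega
  · intro h
    exact ⟨∑ i, s i, Finset.mem_range.2 (by omega), Finset.mem_finsuppAntidiag.2 ⟨rfl, Finset.subset_univ _⟩⟩

theorem support_mons {R : Type} [CommRing R] {P : MvPolynomial σ R} (hP : P.totalDegree ≤ d) :
    P.support ⊆ mons σ d := by
  intro s hs
  rw [mem_mons]
  have h1 := (MvPolynomial.le_totalDegree hs).trans hP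
  rwa [Finsupp.sum_fintype _ _ (fun _ => rfl)] at h1

theorem eval₂_mons {R A : Type} [CommRing R] [CommRing A] (g : R →+* A) (x : σ → A) {P : MvPolynomial σ R}
    (hP : P.totalDegree ≤ d) :
    MvPolynomial.eval₂ g x P = ∑ s ∈ mons σ d, g (P.coeff s) * ∏ i, x i ^ s i := by
  rw [MvPolynomial.eval₂_eq']
  refine Finset.sum_subset (support_mons hP) fun s _ hs => ?_
  rw [MvPolynomial.notMem_support_iff.1 hs, map_zero, zero_mul]

end Mons

/-- There are logarithms `l p` of the numbers `y p` with `|Im l| ≤ H` and a polynomial `P`, of degree at most `d`,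
whose coefficients are values at `ω` of polynomials with integer coefficients, of degree at most `d` and height at
most `H`, such that some coefficient of `P` has absolute value at least `δ`, and `|P (l)| < η`. -/
def Small {ι : Type} {r : ℕ} (y : ι → ℝ) (ω : Fin r → ℂ) (d : ℕ) (H δ η : ℝ) : Prop :=
  ∃ l : ι → ℂ, (∀ p, Complex.exp (l p) = (y p : ℂ)) ∧ (∀ p, |(l p).im| ≤ H) ∧
    ∃ P : MvPolynomial ι (MvPolynomial (Fin r) ℤ), P.totalDegree ≤ d ∧
      (∀ s, (P.coeff s).totalDegree ≤ d ∧ ∀ e, |(((P.coeff s).coeff e : ℤ) : ℝ)| ≤ H) ∧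
      (∃ s, δ ≤ ‖MvPolynomial.aeval ω (P.coeff s)‖) ∧
      ‖MvPolynomial.eval₂ (MvPolynomial.aeval ω : MvPolynomial (Fin r) ℤ →ₐ[ℤ] ℂ).toRingHom l P‖ < η

theorem exists_branch {y : ℝ} {l : ℂ} (hl : Complex.exp l = (y : ℂ)) :
    ∃ b : ℤ, l = ((Real.log |y| : ℝ) : ℂ) + b * (Real.pi * Complex.I) := by
  have hy' : y ≠ 0 := by
    intro h
    rw [h, Complex.ofReal_zero] at hl
    exact Complex.exp_ne_zero _ hl
  rcases lt_or_gt_of_ne hy' with h | h
  · have h1 : Complex.exp l = Complex.exp (((Real.log |y| : ℝ) : ℂ) + Real.pi * Complex.I) := by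
      rw [hl, Complex.exp_add, Complex.exp_pi_mul_I, ← Complex.ofReal_exp, Real.exp_log (abs_pos.2 hy'),
        abs_of_neg h]
      push_cast
      ring
    obtain ⟨b, hb⟩ := Complex.exp_eq_exp_iff_exists_int.1 h1
    refine ⟨1 + 2 * b, ?_⟩
    rw [hb]
    push_cast
    ring
  · have h1 : Complex.exp l = Complex.exp ((Real.log |y| : ℝ) : ℂ) := by
      rw [hl, ← Complex.ofReal_exp, Real.exp_log (abs_pos.2 hy'), abs_of_pos h]
    obtain ⟨b, hb⟩ := Complex.exp_eq_exp_iff_exists_int.1 h1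
    refine ⟨2 * b, ?_⟩
    rw [hb]
    push_cast
    ring

/-- translations -/
theorem indep_translate {F : Type} [Field F] {A : Subring F} {ι : Type} {x c : ι → F} (hx : AlgebraicIndependent A x)
    (hc : ∀ i, c i ∈ A) : AlgebraicIndependent A (fun i => x i + c i) := by
  set sub : MvPolynomial ι A →ₐ[A] MvPolynomial ι A :=
    MvPolynomial.aeval (fun i => MvPolynomial.X i + MvPolynomial.C ⟨c i, hc i⟩) with hsub
  set back : MvPolynomial ι A →ₐ[A] MvPolynomial ι A :=
    MvPolynomial.aeval (fun i => MvPolynomial.X i - MvPolynomial.C ⟨c i, hc i⟩) with hback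
  have hcomp : back.comp sub = AlgHom.id A _ := by
    apply MvPolynomial.algHom_ext
    intro i
    rw [AlgHom.comp_apply, hsub, MvPolynomial.aeval_X, map_add, hback, MvPolynomial.aeval_X,
      MvPolynomial.algHom_C]
    simp [MvPolynomial.algebraMap_eq]
  rw [algebraicIndependent_iff] at hx ⊢
  intro P hP
  have h1 : MvPolynomial.aeval x (sub P) = 0 := by
    rw [← hP]
    have h2 : (MvPolynomial.aeval x : MvPolynomial ι A →ₐ[A] F).comp sub =
        MvPolynomial.aeval (fun i => x i + c i) := by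
      apply MvPolynomial.algHom_ext
      intro i
      rw [AlgHom.comp_apply, hsub, MvPolynomial.aeval_X, map_add, MvPolynomial.aeval_X, MvPolynomial.aeval_C,
        MvPolynomial.aeval_X]
      rfl
    exact AlgHom.congr_fun h2 P
  have h2 := hx _ h1
  have h3 := AlgHom.congr_fun hcomp P
  rw [AlgHom.comp_apply, h2, map_zero] at h3
  exact h3.symm

section Seq

variable (U : Ultrafilter ℕ) (H : ℕ → ℕ)

/-- the class of the logarithm of the absolute value -/
noncomputable def ly (y : ℕ → ℝ) : Fl U H := cls U H (fun j => ((Real.log |y j| : ℝ) : ℂ))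

theorem no_bad {ι : Type} [Fintype ι] [DecidableEq ι] {r d E : ℕ} (y : ℕ → ι → ℝ) (ω : ℕ → Fin r → ℂ)
    (hω : ∀ i, (fun j => ω j i) ∈ Os U H) (C : ℕ → ℕ) (hC : Tendsto C U atTop)
    (hnO : ∀ p, (fun j => ((Real.log |y j p| : ℝ) : ℂ)) ∈ Os U H)
    (hbad : ∀ᶠ j in (U : Filter ℕ), Small (y j) (ω j) d (H j) (1 / gr H j ^ E) (1 / gr H j ^ C j))
    (S : Set (Fl U H)) (hπS : (cls U H fun _ => (Real.pi : ℂ) * Complex.I) ∈ S)
    (hωS : ∀ i, (cls U H fun j => ω j i) ∈ S)
    (hind0 : AlgebraicIndependent (aclR (Zs U H) S) (fun p => ly U H (fun j => y j p))) : False := by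
  classical
  have hdata : ∀ j, ∃ (l : ι → ℂ) (P : MvPolynomial ι (MvPolynomial (Fin r) ℤ))
      (b : ι → ℤ), (∀ s e, |(((P.coeff s).coeff e : ℤ) : ℝ)| ≤ H j) ∧ (∀ p, |(b p : ℝ)| ≤ gr H j) ∧
      (∀ s, (P.coeff s).totalDegree ≤ d) ∧
      (Small (y j) (ω j) d (H j) (1 / gr H j ^ E) (1 / gr H j ^ C j) →
        P.totalDegree ≤ d ∧ (∃ s, 1 / gr H j ^ E ≤ ‖MvPolynomial.aeval (ω j) (P.coeff s)‖) ∧
        ‖MvPolynomial.eval₂ (MvPolynomial.aeval (ω j) : MvPolynomial (Fin r) ℤ →ₐ[ℤ] ℂ).toRingHom l P‖ <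
          1 / gr H j ^ C j ∧
        ∀ p, l p = ((Real.log |y j p| : ℝ) : ℂ) + b p * (Real.pi * Complex.I)) := by
    intro j
    by_cases h : Small (y j) (ω j) d (H j) (1 / gr H j ^ E) (1 / gr H j ^ C j)
    · obtain ⟨l, hl, hlH, P, hPd, hPH, hPδ, hPv⟩ := h
      choose b hb using fun p => exists_branch (hl p)
      refine ⟨l, P, b, fun s e => (hPH s).2 e, fun p => ?_, fun s => (hPH s).1, fun _ => ⟨hPd, hPδ, hPv, hb⟩⟩
      have h1 := hlH p
      rw [hb p] at h1
      have h2 : (((Real.log |y j p| : ℝ) : ℂ) + b p * (Real.pi * Complex.I)).im = b p * Real.pi := by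
        rw [Complex.add_im, Complex.ofReal_im, zero_add]
        simp
      rw [h2, abs_mul, abs_of_pos Real.pi_pos] at h1
      have h3 := Real.pi_gt_three
      have h4 : (0 : ℝ) ≤ |(b p : ℝ)| := abs_nonneg _
      unfold gr
      nlinarith
    · refine ⟨0, 0, 0, fun s e => ?_, fun p => ?_, fun s => ?_, fun h1 => absurd h1 h⟩
      · rw [MvPolynomial.coeff_zero, MvPolynomial.coeff_zero, Int.cast_zero, abs_zero]
        exact Nat.cast_nonneg _
      · simp only [Pi.zero_apply, Int.cast_zero, abs_zero]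
        exact (gr_pos H j).le
      · rw [MvPolynomial.coeff_zero, MvPolynomial.totalDegree_zero]
        exact Nat.zero_le _
  choose l P b hPH hbH hPd hprop using hdata
  have hp := hbad.mono fun j hj => hprop j hj
  -- the classes of the coefficients
  have hcZ : ∀ s e, (fun j => ((P j).coeff s).coeff e) ∈ IZ U H := fun s e => (mem_IZ U H).2
    ⟨1, Eventually.of_forall fun j => by
      rw [pow_one]
      have h1 := hPH j s e
      unfold gr
      linarith⟩
  set W : Fin r → Os U H := fun i => ⟨_, hω i⟩ with hW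
  set Q : (ι →₀ ℕ) → Os U H := fun s =>
    ∑ e ∈ mons (Fin r) d, izo U H ⟨_, hcZ s e⟩ * ∏ i, W i ^ e i with hQ
  have hQj : ∀ s j, ((Q s : Os U H) : ℕ → ℂ) j = MvPolynomial.aeval (ω j) ((P j).coeff s) := by
    intro s j
    have h1 : ((Q s : Os U H) : ℕ → ℂ) j =
        ((Pi.evalRingHom (fun _ : ℕ => ℂ) j).comp (Os U H).subtype) (Q s) := rfl
    rw [h1, hQ, map_sum, MvPolynomial.aeval_def, eval₂_mons _ _ (hPd j s)]
    refine Finset.sum_congr rfl fun e _ => ?_
    rw [map_mul, map_prod]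
    congr 1
  have hQacl : ∀ s, (Ideal.Quotient.mk (ms U H) (Q s) : Fl U H) ∈ aclR (Zs U H) S := by
    intro s
    rw [hQ, map_sum]
    refine (aclR (Zs U H) S).sum_mem fun e _ => ?_
    rw [map_mul, map_prod]
    refine (aclR (Zs U H) S).mul_mem ?_ ?_
    · exact mem_aclR.2 (acl_R ⟨_, rfl⟩)
    · refine (aclR (Zs U H) S).prod_mem fun i _ => ?_
      rw [map_pow]
      refine (aclR (Zs U H) S).pow_mem (mem_aclR.2 (subset_acl ?_)) _
      have h1 := hωS i
      rwa [cls_of (hω i)] at h1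
  -- the logarithms
  have hbZ : ∀ p, (fun j => b j p) ∈ IZ U H := fun p => (mem_IZ U H).2 ⟨1, Eventually.of_forall
    fun j => by rw [pow_one]; exact hbH j p⟩
  have hπ : (fun _ : ℕ => (Real.pi : ℂ) * Complex.I) ∈ Os U H := const_Os _
  set Z : ι → Os U H := fun p => ⟨_, hnO p⟩ + izo U H ⟨_, hbZ p⟩ * ⟨_, hπ⟩ with hZ
  have hZj : ∀ᶠ j in (U : Filter ℕ), ∀ p, ((Z p : Os U H) : ℕ → ℂ) j = l j p := by
    filter_upwards [hp] with j hj p
    rw [hj.2.2.2 p]
    rfl
  have hZc : ∀ p, (Ideal.Quotient.mk (ms U H) (Z p) : Fl U H) =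
      ly U H (fun j => y j p) + psi U H ⟨_, hbZ p⟩ * cls U H fun _ => (Real.pi : ℂ) * Complex.I := by
    intro p
    rw [hZ, map_add, map_mul, ly, cls_of (hnO p), cls_of hπ]
    rfl
  have hind : AlgebraicIndependent (aclR (Zs U H) S)
      (fun p => (Ideal.Quotient.mk (ms U H) (Z p) : Fl U H)) := by
    have h1 := indep_translate hind0 (c := fun p => psi U H ⟨_, hbZ p⟩ *
      cls U H fun _ => (Real.pi : ℂ) * Complex.I) fun p =>
        mem_aclR.2 (acl_mul (acl_R ⟨_, rfl⟩) (subset_acl hπS))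
    have h2 : (fun p => (Ideal.Quotient.mk (ms U H) (Z p) : Fl U H)) =
        fun p => ly U H (fun j => y j p) + psi U H ⟨_, hbZ p⟩ * cls U H fun _ => (Real.pi : ℂ) * Complex.I :=
      funext hZc
    rw [h2]
    exact h1
  -- the value
  set V : Os U H := ∑ s ∈ mons (ι) d, Q s * ∏ p, Z p ^ s p with hV
  have hVj : ∀ᶠ j in (U : Filter ℕ), ((V : Os U H) : ℕ → ℂ) j =
      MvPolynomial.eval₂ (MvPolynomial.aeval (ω j) : MvPolynomial (Fin r) ℤ →ₐ[ℤ] ℂ).toRingHom (l j) (P j) := by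
    filter_upwards [hp, hZj] with j h1 h2
    have h3 : ((V : Os U H) : ℕ → ℂ) j =
        ((Pi.evalRingHom (fun _ : ℕ => ℂ) j).comp (Os U H).subtype) V := rfl
    rw [h3, hV, map_sum, eval₂_mons _ _ h1.1]
    refine Finset.sum_congr rfl fun s _ => ?_
    rw [map_mul, map_prod]
    congr 1
    · exact hQj s j
    · refine Finset.prod_congr rfl fun p _ => ?_
      rw [map_pow, ← h2 p]
      rfl
  have hV0 : (Ideal.Quotient.mk (ms U H) V : Fl U H) = 0 := by
    rw [Ideal.Quotient.eq_zero_iff_mem, mem_ms]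
    intro D
    filter_upwards [hp, hVj, hC.eventually_ge_atTop D] with j h1 h2 h3
    rw [h2]
    have h4 := h1.2.2.1
    have hg := gr_pos H j
    rw [lt_div_iff₀ (by positivity)] at h4
    refine le_trans ?_ h4.le
    exact mul_le_mul_of_nonneg_left (pow_le_pow_right₀ (gr_one H j) h3) (norm_nonneg _)
  set Ψ : MvPolynomial (ι) (aclR (Zs U H) S) :=
    ∑ s ∈ mons (ι) d, MvPolynomial.monomial s (⟨_, hQacl s⟩ : aclR (Zs U H) S) with hΨ
  have hΨ0 : Ψ = 0 := by
    rw [algebraicIndependent_iff] at hind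
    apply hind
    rw [hΨ, map_sum]
    rw [hV, map_sum] at hV0
    rw [← hV0]
    refine Finset.sum_congr rfl fun s _ => ?_
    rw [MvPolynomial.aeval_monomial, map_mul, map_prod, Finsupp.prod_fintype _ _ (fun _ => pow_zero _)]
    congr 1
  have hQ0 : ∀ s ∈ mons (ι) d, (Ideal.Quotient.mk (ms U H) (Q s) : Fl U H) = 0 := by
    intro s hs
    have h1 := congrArg (MvPolynomial.coeff s) hΨ0
    rw [hΨ, MvPolynomial.coeff_sum, MvPolynomial.coeff_zero] at h1
    simp only [MvPolynomial.coeff_monomial] at h1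
    rw [Finset.sum_eq_single s] at h1
    · rw [if_pos rfl] at h1
      exact congrArg Subtype.val h1
    · intro s' _ hs'
      rw [if_neg hs']
    · intro h; exact absurd hs h
  have hfin : ∀ᶠ j in (U : Filter ℕ), ∀ s ∈ mons (ι) d, ‖((Q s : Os U H) : ℕ → ℂ) j‖ * gr H j ^ (E + 1) ≤ 1 := by
    rw [Filter.eventually_all_finset]
    intro s hs
    have h1 := hQ0 s hs
    rw [Ideal.Quotient.eq_zero_iff_mem, mem_ms] at h1
    exact h1 (E + 1)
  obtain ⟨j, hj1, hj2⟩ := (hfin.and hp).exists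
  obtain ⟨hd, ⟨s, hs⟩, -⟩ := hj2
  have hg := gr_pos H j
  have hg2 := gr_two H j
  have hsm : s ∈ mons (ι) d := by
    by_contra hcon
    have h1 : (P j).coeff s = 0 := by
      by_contra h2
      exact hcon (support_mons hd (MvPolynomial.mem_support_iff.2 h2))
    rw [h1, map_zero, norm_zero] at hs
    have : 0 < 1 / gr H j ^ E := by positivity
    linarith
  have h1 := hj1 s hsm
  rw [hQj] at h1
  rw [div_le_iff₀ (by positivity)] at hs
  rw [pow_succ, ← mul_assoc] at h1
  nlinarith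

end Seq

end Pool.Agent.Zk39.PV
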