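import Mathlib
import Pool.Agent.Zk39.PV.Scale

/-!
# Rational functions which are multiplicatively independent modulo constants
-/

set_option autoImplicit false

open Polynomial

namespace Pool.Agent.Zk39.PV

/-- **multiplicatively independent modulo constants** -/
def MI {K : ℕ} (g : Fin K → RatFunc ℚ) : Prop :=
  ∀ (w : Fin K → ℤ) (c : ℚ), ∏ a, g a ^ w a = RatFunc.C c → w = 0

theorem MI.ne_zero {K : ℕ} {g : Fin K → RatFunc ℚ} (h : MI g) (a : Fin K) : g a ≠ 0 := by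
  classical
  intro h0
  have h1 := h (Pi.single a 1) 0 (by
    rw [map_zero]
    refine Finset.prod_eq_zero (Finset.mem_univ a) ?_
    rw [Pi.single_eq_same, zpow_one, h0])
  have h2 := congrFun h1 a
  rw [Pi.single_eq_same] at h2
  exact one_ne_zero h2

theorem exists_factors {K : ℕ} (g : Fin K → RatFunc ℚ) (hg : ∀ a, g a ≠ 0) :
    ∃ (k : ℕ) (p : Fin k → ℚ[X]) (f : Fin k → ℤ[X]) (b : Fin k → ℤ) (μ ν : Fin K → Fin k → ℕ),
      (∀ i, 0 < (f i).natDegree) ∧ Squarefree ((∏ i, f i).map (Int.castRingHom ℚ)) ∧ (∀ i, b i ≠ 0) ∧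
      (∀ i, p i ≠ 0) ∧
      (∀ i, (f i).map (Int.castRingHom ℚ) = C (b i : ℚ) * p i) ∧
      ∀ a, (g a).num = C (g a).num.leadingCoeff * ∏ i, p i ^ μ a i ∧
        (g a).denom = C (g a).denom.leadingCoeff * ∏ i, p i ^ ν a i := by
  classical
  set nf : ℚ[X] → Multiset ℚ[X] := fun q => UniqueFactorizationMonoid.normalizedFactors q with hnf
  set 𝓟 : Finset ℚ[X] := Finset.univ.biUnion fun a : Fin K => (nf (g a).num).toFinset ∪ (nf (g a).denom).toFinset
    with h𝓟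
  have hirr : ∀ q ∈ 𝓟, Irreducible q ∧ q.Monic := by
    intro q hq
    rw [h𝓟, Finset.mem_biUnion] at hq
    obtain ⟨a, -, hq⟩ := hq
    have key : ∀ P : ℚ[X], P ≠ 0 → q ∈ nf P → Irreducible q ∧ q.Monic := by
      intro P _ h
      have h1 := UniqueFactorizationMonoid.irreducible_of_normalized_factor q h
      refine ⟨h1, ?_⟩
      have h2 := UniqueFactorizationMonoid.normalize_normalized_factor q h
      rw [← h2]
      exact Polynomial.monic_normalize h1.ne_zero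
    rw [Finset.mem_union, Multiset.mem_toFinset, Multiset.mem_toFinset] at hq
    rcases hq with hq | hq
    · exact key _ (RatFunc.num_ne_zero (hg a)) hq
    · exact key _ (RatFunc.denom_ne_zero _) hq
  set k := 𝓟.card with hk
  set eq : Fin k ≃ 𝓟 := 𝓟.equivFin.symm with heq
  set p : Fin k → ℚ[X] := fun i => (eq i : ℚ[X]) with hp
  have hpirr : ∀ i, Irreducible (p i) ∧ (p i).Monic := fun i => hirr _ (eq i).2
  have hf : ∀ i, ∃ (f : ℤ[X]) (b : ℤ), b ≠ 0 ∧ f.map (Int.castRingHom ℚ) = C (b : ℚ) * p i := by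
    intro i
    obtain ⟨b, hb, h⟩ := IsLocalization.integerNormalization_spec (nonZeroDivisors ℤ) (p i)
    refine ⟨IsLocalization.integerNormalization (nonZeroDivisors ℤ) (p i), b, nonZeroDivisors.ne_zero hb, ?_⟩
    have h1 : (Int.castRingHom ℚ) = algebraMap ℤ ℚ := rfl
    rw [h1, h, ← Polynomial.smul_eq_C_mul]
    ext m
    simp [Polynomial.coeff_smul]
  choose f b hb hfb using hf
  have hbQ : ∀ i, (b i : ℚ) ≠ 0 := fun i => by exact_mod_cast hb i
  have hprod : ∀ P : ℚ[X], (nf P).toFinset ⊆ 𝓟 → ∃ μ : Fin k → ℕ, P = C P.leadingCoeff * ∏ i, p i ^ μ i := by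
    intro P hP
    refine ⟨fun i => (nf P).count (p i), ?_⟩
    conv_lhs => rw [← Polynomial.leadingCoeff_mul_prod_normalizedFactors P]
    congr 1
    rw [Finset.prod_multiset_count_of_subset _ 𝓟 hP, ← Finset.prod_coe_sort 𝓟 (fun q => q ^ (nf P).count q)]
    exact (Equiv.prod_comp eq fun q : 𝓟 => (q : ℚ[X]) ^ (nf P).count (q : ℚ[X])).symm
  have h1 : ∀ a, (nf (g a).num).toFinset ⊆ 𝓟 := fun a q hq => by
    rw [h𝓟, Finset.mem_biUnion]
    exact ⟨a, Finset.mem_univ a, Finset.mem_union_left _ hq⟩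
  have h2 : ∀ a, (nf (g a).denom).toFinset ⊆ 𝓟 := fun a q hq => by
    rw [h𝓟, Finset.mem_biUnion]
    exact ⟨a, Finset.mem_univ a, Finset.mem_union_right _ hq⟩
  choose μ hμ using fun a => hprod _ (h1 a)
  choose ν hν using fun a => hprod _ (h2 a)
  refine ⟨k, p, f, b, μ, ν, fun i => ?_, ?_, hb, fun i => (hpirr i).1.ne_zero, hfb, fun a => ⟨hμ a, hν a⟩⟩
  · have h3 : ((f i).map (Int.castRingHom ℚ)).natDegree = (f i).natDegree :=
      Polynomial.natDegree_map_eq_of_injective (RingHom.injective_int _) _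
    rw [← h3, hfb i, Polynomial.natDegree_C_mul (hbQ i)]
    exact (hpirr i).1.natDegree_pos
  · rw [Polynomial.map_prod]
    apply Finset.squarefree_prod_of_pairwise_isCoprime
    · intro i _ i' _ hii
      show IsRelPrime ((f i).map (Int.castRingHom ℚ)) ((f i').map (Int.castRingHom ℚ))
      apply IsCoprime.isRelPrime
      rw [hfb, hfb]
      have h3 : IsCoprime (p i) (p i') := by
        rcases dvd_or_isCoprime (p i) (p i') (hpirr i).1 with h | h
        swap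
        · exact h
        · exfalso
          have h4 : Associated (p i) (p i') := (hpirr i).1.associated_of_dvd (hpirr i').1 h
          have h5 : p i = p i' := Polynomial.eq_of_monic_of_associated (hpirr i).2 (hpirr i').2 h4
          exact hii (eq.injective (Subtype.ext h5))
      have hu : ∀ i, IsUnit (C (b i : ℚ)) := fun i => Polynomial.isUnit_C.2 (isUnit_iff_ne_zero.2 (hbQ i))
      exact (isCoprime_mul_unit_left_left (hu i) _ _).2 ((isCoprime_mul_unit_left_right (hu i') _ _).2 h3)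
    · intro i _
      rw [hfb]
      have hu : IsUnit (C (b i : ℚ)) := Polynomial.isUnit_C.2 (isUnit_iff_ne_zero.2 (hbQ i))
      exact (hpirr i).1.squarefree.squarefree_of_dvd (hu.mul_left_dvd.2 dvd_rfl)

theorem prod_zpow_sum {F ι : Type} [Field F] {x : F} (hx : x ≠ 0) (s : Finset ι) (e : ι → ℤ) :
    ∏ a ∈ s, x ^ e a = x ^ ∑ a ∈ s, e a := by
  classical
  induction s using Finset.induction_on with
  | empty => simp
  | insert a s ha ih => rw [Finset.prod_insert ha, Finset.sum_insert ha, zpow_add₀ hx, ih]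

/-- the exponents -/
theorem rows_indep {K k : ℕ} {g : Fin K → RatFunc ℚ} (hg : MI g) {p : Fin k → ℚ[X]} (hp : ∀ i, p i ≠ 0)
    {μ ν : Fin K → Fin k → ℕ} (h : ∀ a, (g a).num = C (g a).num.leadingCoeff * ∏ i, p i ^ μ a i ∧
        (g a).denom = C (g a).denom.leadingCoeff * ∏ i, p i ^ ν a i) (w : Fin K → ℤ)
    (hw : ∀ i, ∑ a, w a * ((μ a i : ℤ) - ν a i) = 0) : w = 0 := by
  have hpR : ∀ i, algebraMap ℚ[X] (RatFunc ℚ) (p i) ≠ 0 := fun i => by
    rw [Ne, map_eq_zero_iff _ (RatFunc.algebraMap_injective ℚ)]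
    exact hp i
  have h1 : ∀ a, g a = RatFunc.C ((g a).num.leadingCoeff / (g a).denom.leadingCoeff) *
      ∏ i, (algebraMap ℚ[X] (RatFunc ℚ) (p i)) ^ ((μ a i : ℤ) - ν a i) := by
    intro a
    conv_lhs => rw [← RatFunc.num_div_denom (g a), (h a).1, (h a).2]
    rw [map_mul, map_mul, map_prod, map_prod, RatFunc.algebraMap_C, RatFunc.algebraMap_C, mul_div_mul_comm,
      map_div₀, ← Finset.prod_div_distrib]
    congr 1
    refine Finset.prod_congr rfl fun i _ => ?_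
    rw [map_pow, map_pow, zpow_sub₀ (hpR i), zpow_natCast, zpow_natCast]
  apply hg w (∏ a, ((g a).num.leadingCoeff / (g a).denom.leadingCoeff) ^ w a)
  rw [map_prod]
  calc ∏ a, g a ^ w a = ∏ a, ((RatFunc.C ((g a).num.leadingCoeff / (g a).denom.leadingCoeff)) ^ w a *
      (∏ i, (algebraMap ℚ[X] (RatFunc ℚ) (p i)) ^ ((μ a i : ℤ) - ν a i)) ^ w a) := by
        refine Finset.prod_congr rfl fun a _ => ?_
        conv_lhs => rw [h1 a, mul_zpow]
    _ = (∏ a, RatFunc.C ((g a).num.leadingCoeff / (g a).denom.leadingCoeff) ^ w a) *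
        ∏ i, (algebraMap ℚ[X] (RatFunc ℚ) (p i)) ^ (∑ a, w a * ((μ a i : ℤ) - ν a i)) := by
        rw [Finset.prod_mul_distrib]
        congr 1
        have h2 : ∀ a, (∏ i, (algebraMap ℚ[X] (RatFunc ℚ) (p i)) ^ ((μ a i : ℤ) - ν a i)) ^ w a =
            ∏ i, (algebraMap ℚ[X] (RatFunc ℚ) (p i)) ^ (w a * ((μ a i : ℤ) - ν a i)) := by
          intro a
          rw [← Finset.prod_zpow]
          refine Finset.prod_congr rfl fun i _ => ?_
          rw [← zpow_mul, mul_comm]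
        rw [Finset.prod_congr rfl fun a _ => h2 a, Finset.prod_comm]
        refine Finset.prod_congr rfl fun i _ => ?_
        exact prod_zpow_sum (hpR i) _ _
    _ = _ := by
        have h3 : ∏ i, (algebraMap ℚ[X] (RatFunc ℚ) (p i)) ^ (∑ a, w a * ((μ a i : ℤ) - ν a i)) = 1 :=
          Finset.prod_eq_one fun i _ => by rw [hw i, zpow_zero]
        rw [h3, mul_one]
        refine Finset.prod_congr rfl fun a _ => ?_
        rw [map_zpow₀]

/-- the value of a rational function -/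
noncomputable def rv (g : RatFunc ℚ) (n : ℕ) : ℝ := ((RatFunc.eval (RingHom.id ℚ) (n : ℚ) g : ℚ) : ℝ)

theorem log_rv {k : ℕ} {g : RatFunc ℚ} (hg0 : g ≠ 0) {p : Fin k → ℚ[X]} {f : Fin k → ℤ[X]} {b : Fin k → ℤ} (hb : ∀ i, b i ≠ 0)
    (hf : ∀ i, (f i).map (Int.castRingHom ℚ) = C (b i : ℚ) * p i) {μ ν : Fin k → ℕ}
    (h : g.num = C g.num.leadingCoeff * ∏ i, p i ^ μ i ∧ g.denom = C g.denom.leadingCoeff * ∏ i, p i ^ ν i)
    {n : ℕ} (hn : ∀ i, aeval (n : ℝ) (f i) ≠ 0) :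
    Real.log |rv g n| = (Real.log |(g.num.leadingCoeff : ℝ)| - Real.log |(g.denom.leadingCoeff : ℝ)| -
      ∑ i, ((μ i : ℝ) - ν i) * Real.log |(b i : ℝ)|) +
      ∑ i, ((μ i : ℝ) - ν i) * Real.log |aeval (n : ℝ) (f i)| := by
  have hbR : ∀ i, ((b i : ℤ) : ℝ) ≠ 0 := fun i => by exact_mod_cast hb i
  have hpv : ∀ i, aeval (n : ℝ) (f i) = b i * (((p i).eval (n : ℚ) : ℚ) : ℝ) := by
    intro i
    have h1 : aeval (n : ℝ) (f i) = ((((f i).map (Int.castRingHom ℚ)).eval (n : ℚ) : ℚ) : ℝ) := by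
      rw [eval_map, aeval_def]
      have h2 : (((eval₂ (Int.castRingHom ℚ) (n : ℚ) (f i) : ℚ)) : ℝ) =
          (Rat.castHom ℝ) (eval₂ (Int.castRingHom ℚ) (n : ℚ) (f i)) := rfl
      rw [h2, hom_eval₂]
      congr 1
    rw [h1, hf i, eval_mul, eval_C]
    push_cast
    rfl
  have hpn : ∀ i, (((p i).eval (n : ℚ) : ℚ) : ℝ) ≠ 0 := by
    intro i h1
    apply hn i
    rw [hpv i, h1, mul_zero]
  have hlp : ∀ i, Real.log |(((p i).eval (n : ℚ) : ℚ) : ℝ)| =
      Real.log |aeval (n : ℝ) (f i)| - Real.log |(b i : ℝ)| := by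
    intro i
    rw [hpv i, abs_mul, Real.log_mul (abs_ne_zero.2 (hbR i)) (abs_ne_zero.2 (hpn i))]
    ring
  have hval : ∀ (c : ℚ) (e : Fin k → ℕ), c ≠ 0 → (((C c * ∏ i, p i ^ e i).eval (n : ℚ) : ℚ) : ℝ) ≠ 0 ∧
      Real.log |(((C c * ∏ i, p i ^ e i).eval (n : ℚ) : ℚ) : ℝ)| = Real.log |(c : ℝ)| +
        ∑ i, (e i : ℝ) * Real.log |(((p i).eval (n : ℚ) : ℚ) : ℝ)| := by
    intro c e hc
    have hcR : (c : ℝ) ≠ 0 := by exact_mod_cast hc
    rw [eval_mul, eval_C, eval_prod]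
    push_cast
    simp only [eval_pow, Rat.cast_pow]
    have h3 : ∏ i, (((p i).eval (n : ℚ) : ℚ) : ℝ) ^ e i ≠ 0 :=
      Finset.prod_ne_zero_iff.2 fun i _ => pow_ne_zero _ (hpn i)
    refine ⟨mul_ne_zero hcR h3, ?_⟩
    rw [abs_mul, Real.log_mul (abs_ne_zero.2 hcR) (abs_ne_zero.2 h3), Finset.abs_prod, Real.log_prod]
    · congr 1
      refine Finset.sum_congr rfl fun i _ => ?_
      rw [abs_pow, Real.log_pow]
    · intro i _
      exact abs_ne_zero.2 (pow_ne_zero _ (hpn i))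
  have hn0 : g.num.leadingCoeff ≠ 0 := leadingCoeff_ne_zero.2 (RatFunc.num_ne_zero hg0)
  have hd0 : g.denom.leadingCoeff ≠ 0 := leadingCoeff_ne_zero.2 (RatFunc.denom_ne_zero _)
  obtain ⟨h1, h2⟩ := hval _ μ hn0
  obtain ⟨h3, h4⟩ := hval _ ν hd0
  rw [← h.1] at h1 h2
  rw [← h.2] at h3 h4
  have h5 : rv g n = ((g.num.eval (n : ℚ) : ℚ) : ℝ) / ((g.denom.eval (n : ℚ) : ℚ) : ℝ) := by
    rw [rv, RatFunc.eval]
    push_cast
    rfl
  rw [h5, abs_div, Real.log_div (abs_ne_zero.2 h1) (abs_ne_zero.2 h3), h2, h4]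
  simp only [hlp, mul_sub, sub_mul, Finset.sum_sub_distrib]
  ring

end Pool.Agent.Zk39.PV
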