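import Mathlib
import Pool.Agent.Zk39.PV.Rat

/-!
# The count of the exceptional tuples at one height
-/

set_option autoImplicit false

namespace Pool.Agent.Zk39.PV

open Filter Pool.Agent.R351.GF

theorem Small.mono {ι : Type} {r : ℕ} {y : ι → ℝ} {ω : Fin r → ℂ} {d : ℕ} {H H' δ δ' η η' : ℝ}
    (h : Small y ω d H δ η) (hH : H ≤ H') (hδ : δ' ≤ δ) (hη : η ≤ η') : Small y ω d H' δ' η' := by
  obtain ⟨l, h1, h2, P, h3, h4, ⟨s, hs⟩, h5⟩ := h
  exact ⟨l, h1, fun p => (h2 p).trans hH, P, h3, fun s => ⟨(h4 s).1, fun e => ((h4 s).2 e).trans hH⟩,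
    ⟨s, hδ.trans hs⟩, h5.trans_le hη⟩

open Classical in
/-- the exceptional tuples in a box -/
noncomputable def excSet {ι : Type} {m r : ℕ} (y : (Fin m → ℕ) → ι → ℝ) (ω : Fin r → ℂ) (d : ℕ) (H δ η : ℝ)
    (N : Fin m → ℕ) (w : ℕ) : Finset (Fin m → ℕ) :=
  (Fintype.piFinset (iv N w)).filter fun n => Small (y n) ω d H δ η

/-- the values of rational functions -/
noncomputable def vals {K m : ℕ} (g : Fin K → RatFunc ℚ) (n : Fin m → ℕ) : Fin m × Fin K → ℝ :=
  fun p => rv (g p.2) (n p.1)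

theorem rows_field {F : Type} [Field F] [CharZero F] {K k : ℕ} (e : Fin K → Fin k → ℤ)
    (he : ∀ w : Fin K → ℤ, (∀ i, ∑ a, w a * e a i = 0) → w = 0) (V : Fin K → F)
    (hV : ∀ i, ∑ a, V a * (e a i : F) = 0) : V = 0 := by
  have h1 : LinearIndependent ℤ (fun (a : Fin K) (i : Fin k) => ((e a i : ℤ) : ℚ)) := by
    rw [Fintype.linearIndependent_iff]
    intro w hw a
    have h2 : w = 0 := by
      apply he
      intro i
      have h3 := congrFun hw i
      rw [Finset.sum_apply, Pi.zero_apply] at h3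
      simp only [Pi.smul_apply] at h3
      simp only [zsmul_eq_mul] at h3
      exact_mod_cast h3
    rw [h2]
    rfl
  have h2 : LinearIndependent ℚ (fun (a : Fin K) (i : Fin k) => ((e a i : ℤ) : ℚ)) :=
    (LinearIndependent.iff_fractionRing ℤ ℚ).1 h1
  rw [Fintype.linearIndependent_iff] at h2
  let b := Module.Basis.ofVectorSpace ℚ F
  funext a
  apply b.repr.injective
  rw [Pi.zero_apply, map_zero]
  ext t
  refine h2 (fun a => b.repr (V a) t) ?_ a
  funext i
  simp only [Finset.sum_apply, Pi.smul_apply, smul_eq_mul, Pi.zero_apply]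
  have h3 := congrArg (fun x => b.repr x t) (hV i)
  simp only [map_sum, map_zero, Finsupp.coe_zero, Pi.zero_apply, Finsupp.coe_finsetSum, Finset.sum_apply] at h3
  rw [← h3]
  refine Finset.sum_congr rfl fun a _ => ?_
  have h4 : V a * (e a i : F) = (e a i : ℚ) • V a := by
    rw [Rat.smul_def, mul_comm]
    push_cast
    rfl
  rw [h4, map_smul, Finsupp.smul_apply, smul_eq_mul, mul_comm]

section Seq

variable (U : Ultrafilter ℕ) (H : ℕ → ℕ)

instance : CharZero (Fl U H) := by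
  refine charZero_of_inj_zero fun n hn => ?_
  have h1 : psi U H (n : IZ U H) = 0 := by rw [map_natCast]; exact hn
  rw [psi_eq_zero] at h1
  obtain ⟨j, hj⟩ := h1.exists
  have h2 : (((n : IZ U H) : IZ U H) : ℕ → ℤ) j = (n : ℤ) := by
    rw [← evj_apply, map_natCast]
  rw [h2] at hj
  exact_mod_cast hj

/-- the class of a constant integer -/
theorem cls_intCast (c : ℤ) : (fun _ : ℕ => ((c : ℤ) : ℂ)) ∈ Os U H ∧ cls U H (fun _ : ℕ => ((c : ℤ) : ℂ)) = (c : Fl U H) := by
  have h : (fun _ : ℕ => ((c : ℤ) : ℂ)) ∈ Os U H := const_Os _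
  refine ⟨h, ?_⟩
  rw [cls_of h]
  exact map_intCast (Ideal.Quotient.mk (ms U H)) c

theorem rat_indep {K k m : ℕ} {g : Fin K → RatFunc ℚ} (hg : MI g) {p : Fin k → Polynomial ℚ} {f : Fin k → Polynomial ℤ}
    {b : Fin k → ℤ} {μ ν : Fin K → Fin k → ℕ} (hb : ∀ i, b i ≠ 0) (hp : ∀ i, p i ≠ 0)
    (hfp : ∀ i, (f i).map (Int.castRingHom ℚ) = Polynomial.C (b i : ℚ) * p i)
    (hμν : ∀ a, (g a).num = Polynomial.C (g a).num.leadingCoeff * ∏ i, p i ^ μ a i ∧
        (g a).denom = Polynomial.C (g a).denom.leadingCoeff * ∏ i, p i ^ ν a i)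
    (n : ℕ → Fin m → ℕ)
    (hnO : ∀ v i, (fun j => ((Real.log |Polynomial.aeval (n j v : ℝ) (f i)| : ℝ) : ℂ)) ∈ Os U H)
    (hne : ∀ᶠ j in (U : Filter ℕ), ∀ v i, Polynomial.aeval (n j v : ℝ) (f i) ≠ 0)
    (S : Set (Fl U H)) (κ : Fin K → ℝ)
    (hκ : ∀ a, κ a = Real.log |((g a).num.leadingCoeff : ℝ)| - Real.log |((g a).denom.leadingCoeff : ℝ)| -
      ∑ i, ((μ a i : ℝ) - ν a i) * Real.log |(b i : ℝ)|)
    (hS : ∀ a, (cls U H fun _ => ((κ a : ℝ) : ℂ)) ∈ S)
    (hch : ∀ v i, lf U H (f i) (fun j => n j v) ∉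
        acl (Zs U H) (S ∪ (fun p : Fin m × Fin k => lf U H (f p.2) (fun j => n j p.1)) ''
          {p | p.1 < v ∨ (p.1 = v ∧ p.2 < i)})) :
    (∀ q : Fin m × Fin K, (fun j => ((Real.log |vals g (n j) q| : ℝ) : ℂ)) ∈ Os U H) ∧
      AlgebraicIndependent (aclR (Zs U H) S) (fun q : Fin m × Fin K => ly U H (fun j => vals g (n j) q)) := by
  classical
  have hφ : AlgebraicIndependent (aclR (Zs U H) S)
      (fun q : Fin m × Fin k => lf U H (f q.2) (fun j => n j q.1)) := by
    have h0 := indep_over (flat_chain (z := fun p : Fin m × Fin k => lf U H (f p.2) (fun j => n j p.1)) hch)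
    have h1 := h0.comp (finProdFinEquiv : Fin m × Fin k ≃ Fin (m * k)) (Equiv.injective _)
    have h2 : (fun q : Fin m × Fin k => lf U H (f q.2) (fun j => n j q.1)) =
        (fun q : Fin (m * k) => lf U H (f (finProdFinEquiv.symm q).2) (fun j => n j (finProdFinEquiv.symm q).1)) ∘
          (finProdFinEquiv : Fin m × Fin k ≃ Fin (m * k)) := by
      funext p
      rw [Function.comp_apply]
      simp only [Equiv.symm_apply_apply]
    rw [h2]
    exact h1
  set e : Fin K → Fin k → ℤ := fun a i => (μ a i : ℤ) - ν a i with he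
  set c : Fin m × Fin K → Fin m × Fin k → aclR (Zs U H) S := fun q q' =>
    if q'.1 = q.1 then ((e q.2 q'.2 : ℤ) : aclR (Zs U H) S) else 0 with hc
  have hcind : ∀ V : Fin m × Fin K → aclR (Zs U H) S, (∀ s, ∑ a, V a * c a s = 0) → V = 0 := by
    intro V hV
    have h1 : ∀ v, (fun a => ((V (v, a) : aclR (Zs U H) S) : Fl U H)) = 0 := by
      intro v
      refine rows_field e (fun w hw => rows_indep hg hp hμν w hw) _ fun i => ?_
      have h2 := congrArg (aclR (Zs U H) S).subtype (hV (v, i))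
      rw [Fintype.sum_prod_type, Finset.sum_eq_single v] at h2
      · rw [map_sum, map_zero] at h2
        rw [← h2]
        refine Finset.sum_congr rfl fun a _ => ?_
        rw [map_mul, hc]
        simp only [if_true]
        rfl
      · intro v' _ hv'
        refine Finset.sum_eq_zero fun a _ => ?_
        rw [hc]
        simp only
        rw [if_neg (Ne.symm hv'), mul_zero]
      · intro h; exact absurd (Finset.mem_univ _) h
    funext ⟨v, a⟩
    exact Subtype.ext (congrFun (h1 v) a)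
  have hlin := lin_indep (aclR (Zs U H) S) _ hφ c hcind
  have hκO : ∀ a, (fun _ : ℕ => ((κ a : ℝ) : ℂ)) ∈ Os U H := fun a => const_Os _
  have hcl : ∀ q : Fin m × Fin K, (fun j => ((Real.log |vals g (n j) q| : ℝ) : ℂ)) ∈ Os U H ∧
      ly U H (fun j => vals g (n j) q) =
        (∑ s, (c q s : Fl U H) * lf U H (f s.2) (fun j => n j s.1)) + cls U H fun _ => ((κ q.2 : ℝ) : ℂ) := by
    rintro ⟨v, a⟩
    have h1 : ∀ i ∈ (Finset.univ : Finset (Fin k)), ((fun _ : ℕ => ((e a i : ℤ) : ℂ)) *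
        fun j => ((Real.log |Polynomial.aeval (n j v : ℝ) (f i)| : ℝ) : ℂ)) ∈ Os U H := fun i _ =>
      (Os U H).mul_mem (cls_intCast U H _).1 (hnO v i)
    obtain ⟨h2, h3⟩ := cls_sum Finset.univ _ h1
    have h4 : ∀ᶠ j in (U : Filter ℕ), ((∑ i : Fin k, ((fun _ : ℕ => ((e a i : ℤ) : ℂ)) *
        fun j => ((Real.log |Polynomial.aeval (n j v : ℝ) (f i)| : ℝ) : ℂ)) + fun _ => ((κ a : ℝ) : ℂ) : ℕ → ℂ)) j =
        ((Real.log |vals g (n j) (v, a)| : ℝ) : ℂ) := by
      filter_upwards [hne] with j hj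
      rw [vals, log_rv (hg.ne_zero a) hb hfp (hμν a) (hj v), ← hκ a, Pi.add_apply, Finset.sum_apply]
      simp only [Pi.mul_apply, he]
      push_cast
      ring
    refine ⟨Os_congr h4 ((Os U H).add_mem h2 (hκO a)), ?_⟩
    rw [ly, ← cls_congr h4, cls_add h2 (hκO a), h3]
    congr 1
    rw [Fintype.sum_prod_type, Finset.sum_eq_single v]
    · refine Finset.sum_congr rfl fun i _ => ?_
      rw [cls_mul (cls_intCast U H _).1 (hnO v i), (cls_intCast U H _).2, hc]
      simp only [if_true]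
      rfl
    · intro v' _ hv'
      refine Finset.sum_eq_zero fun i _ => ?_
      rw [hc]
      simp only
      rw [if_neg hv', (aclR (Zs U H) S).coe_zero, zero_mul]
    · intro h; exact absurd (Finset.mem_univ _) h
  refine ⟨fun q => (hcl q).1, ?_⟩
  have h5 := indep_translate hlin (c := fun q : Fin m × Fin K => cls U H fun _ => ((κ q.2 : ℝ) : ℂ)) fun q =>
    mem_aclR.2 (subset_acl (hS q.2))
  have h6 : (fun q : Fin m × Fin K => ly U H (fun j => vals g (n j) q)) = fun q =>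
      (∑ s, (c q s : Fl U H) * lf U H (f s.2) (fun j => n j s.1)) + cls U H fun _ => ((κ q.2 : ℝ) : ℂ) :=
    funext fun q => (hcl q).2
  rw [h6]
  exact h5

end Seq

/-- **The count at one height.** -/
theorem scale_count {K : ℕ} (m r d E : ℕ) (g : Fin K → RatFunc ℚ) (hg : MI g) :
    ∃ C : ℕ, 0 < C ∧ ∀ (N : Fin m → ℕ) (w H : ℕ) (ω : Fin r → ℂ), (∀ v, (w + 2) ^ C ≤ N v ∧ N v ≤ H) →
      (∀ i, ‖ω i‖ ≤ (H : ℝ) + 2) →
      (excSet (vals g) ω d H (1 / ((H : ℝ) + 2) ^ E) (1 / ((H : ℝ) + 2) ^ C) N w).card * (w + 1) ≤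
        C * (w + 1) ^ m := by
  classical
  obtain ⟨k, p, f, b, μ, ν, hf, hsq, hb, hp, hfp, hμν⟩ := exists_factors g hg.ne_zero
  by_contra hcon
  push Not at hcon
  choose N w H ω hN hω hcard using fun j : ℕ => hcon (j + 1) (Nat.succ_pos j)
  set U : Ultrafilter ℕ := hyperfilter ℕ with hU
  have hUa : (U : Filter ℕ) ≤ atTop := Nat.hyperfilter_le_atTop
  have hge : ∀ M : ℕ, ∀ᶠ j in (U : Filter ℕ), M ≤ j := fun M => hUa (eventually_ge_atTop M)
  have hωO : ∀ i, (fun j => ω j i) ∈ Os U H := fun i =>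
    ⟨1, Eventually.of_forall fun j => by rw [pow_one]; exact hω j i⟩
  obtain ⟨κ, hκ⟩ : ∃ κ : Fin K → ℝ, ∀ a, κ a = Real.log |((g a).num.leadingCoeff : ℝ)| -
      Real.log |((g a).denom.leadingCoeff : ℝ)| - ∑ i, ((μ a i : ℝ) - ν a i) * Real.log |(b i : ℝ)| :=
    ⟨_, fun _ => rfl⟩
  set S : Set (Fl U H) := insert (cls U H fun _ => (Real.pi : ℂ) * Complex.I)
    ((Set.range fun i => cls U H fun j => ω j i) ∪ Set.range fun a => cls U H fun _ => ((κ a : ℝ) : ℂ)) with hS
  have hSf : S.Finite := ((Set.finite_range _).union (Set.finite_range _)).insert _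
  obtain ⟨n, hn, hnO, hne, hch⟩ := exists_tuple U H f hf hsq w m N (by
      intro E
      filter_upwards [hge E] with j hj v
      exact (Nat.pow_le_pow_right (by omega) (by omega)).trans (hN j v).1)
    (Eventually.of_forall fun j v => (hN j v).2)
    (fun j => excSet (vals g) (ω j) d (H j) (1 / ((H j : ℝ) + 2) ^ E) (1 / ((H j : ℝ) + 2) ^ (j + 1)) (N j) (w j))
    (fun j => Finset.filter_subset _ _) (by
      intro M
      filter_upwards [hge M] with j hj
      refine le_trans ?_ (hcard j).le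
      exact Nat.mul_le_mul_right _ (by omega)) S hSf
  obtain ⟨hyO, hind⟩ := rat_indep U H hg hb hp hfp hμν n hnO hne S κ hκ
    (fun a => Or.inr (Or.inr ⟨a, rfl⟩)) hch
  refine no_bad U H (fun j => vals g (n j)) ω hωO (fun j => j + 1)
    ((tendsto_add_atTop_nat 1).mono_left hUa) hyO ?_ S (Or.inl rfl) (fun i => Or.inr (Or.inl ⟨i, rfl⟩)) hind
    (d := d) (E := E)
  filter_upwards [hn] with j hj
  exact (Finset.mem_filter.1 hj).2

end Pool.Agent.Zk39.PV
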