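import Mathlib
import Pool.Agent.Zk39.PV.Count

/-!
# A range of heights, an unbounded set of heights
-/

set_option autoImplicit false

namespace Pool.Agent.Zk39.PV

open Filter

variable {m r d E : ℕ} {ι : Type} {y : (Fin m → ℕ) → ι → ℝ}

/-- a real height -/
theorem real_scale {C : ℕ} (h : ∀ (N : Fin m → ℕ) (w H : ℕ) (ω : Fin r → ℂ), (∀ v, (w + 2) ^ C ≤ N v ∧ N v ≤ H) →
      (∀ i, ‖ω i‖ ≤ (H : ℝ) + 2) →
      (excSet y ω d H (1 / ((H : ℝ) + 2) ^ E) (1 / ((H : ℝ) + 2) ^ C) N w).card * (w + 1) ≤ C * (w + 1) ^ m)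
    (N : Fin m → ℕ) (w : ℕ) (H : ℝ) (hH : 2 ≤ H) (ω : Fin r → ℂ)
    (hN : ∀ v, (w + 2) ^ C ≤ N v ∧ (N v : ℝ) ≤ H) (hω : ∀ i, ‖ω i‖ ≤ H) :
    (excSet y ω d H (1 / H ^ E) (1 / H ^ (3 * C)) N w).card * (w + 1) ≤ C * (w + 1) ^ m := by
  classical
  set H' := ⌈H⌉₊ with hH'
  have h1 : H ≤ H' := Nat.le_ceil _
  have h2 : (H' : ℝ) < H + 1 := Nat.ceil_lt_add_one (by linarith)
  refine le_trans (Nat.mul_le_mul_right _ (Finset.card_le_card ?_)) (h N w H' ω (fun v => ⟨(hN v).1, ?_⟩)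
    fun i => (hω i).trans (by linarith))
  · intro n hn
    unfold excSet at hn ⊢
    rw [Finset.mem_filter] at hn ⊢
    refine ⟨hn.1, hn.2.mono h1 ?_ ?_⟩
    · apply one_div_le_one_div_of_le (by positivity)
      exact pow_le_pow_left₀ (by linarith) (by linarith) _
    · apply one_div_le_one_div_of_le (by positivity)
      rw [pow_mul]
      apply pow_le_pow_left₀ (by positivity)
      nlinarith [mul_self_nonneg (H - 2)]
  · have := (hN v).2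
    have h3 : (N v : ℝ) ≤ H' := this.trans h1
    exact_mod_cast h3

/-- the number of scales up to a double exponential -/
theorem scales_bound {M : ℕ} (hM : 2 ≤ M) {X H : ℝ} (hX : 1 ≤ X) (hH : H ≤ Real.exp (Real.exp X)) :
    H ≤ ((M ^ 2 ^ ⌈3 * X⌉₊ : ℕ) : ℝ) := by
  set I := ⌈3 * X⌉₊ with hI
  have hI1 : 3 * X ≤ I := Nat.le_ceil _
  have hlog2 : (0.69 : ℝ) < Real.log 2 := by
    have := Real.log_two_gt_d9
    linarith
  have hM2 : (2 : ℝ) ≤ M := by exact_mod_cast hM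
  have h1 : Real.exp (2 * X) ≤ (2 : ℝ) ^ I := by
    rw [← Real.rpow_natCast, Real.rpow_def_of_pos (by norm_num)]
    apply Real.exp_le_exp.2
    nlinarith
  have h2 : Real.log 2 ≤ Real.log M := Real.log_le_log (by norm_num) hM2
  have h5 : ((M ^ 2 ^ I : ℕ) : ℝ) = Real.exp ((2 : ℝ) ^ I * Real.log M) := by
    push_cast
    rw [mul_comm, ← Real.rpow_natCast, Real.rpow_def_of_pos (by linarith)]
    push_cast
    rfl
  rw [h5]
  refine hH.trans (Real.exp_le_exp.2 ?_)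
  have h6 : 2 ≤ Real.exp X := by
    have := Real.add_one_le_exp X
    linarith
  have h7 : Real.exp X * 2 ≤ Real.exp (2 * X) := by
    have : Real.exp (2 * X) = Real.exp X * Real.exp X := by rw [← Real.exp_add]; congr 1; ring
    rw [this]
    nlinarith [Real.exp_pos X]
  have h8 : (0 : ℝ) < 2 ^ I := by positivity
  nlinarith [Real.exp_pos X]

/-- a range of heights -/
theorem range_count {C : ℕ} (h : ∀ (N : Fin m → ℕ) (w H : ℕ) (ω : Fin r → ℂ), (∀ v, (w + 2) ^ C ≤ N v ∧ N v ≤ H) →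
      (∀ i, ‖ω i‖ ≤ (H : ℝ) + 2) →
      (excSet y ω d H (1 / ((H : ℝ) + 2) ^ (2 * E)) (1 / ((H : ℝ) + 2) ^ C) N w).card * (w + 1) ≤ C * (w + 1) ^ m)
    (N : Fin m → ℕ) (w M : ℕ) (hM : 2 ≤ M) (X : ℝ) (hX : 1 ≤ X) (ω : Fin r → ℂ)
    (hN : ∀ v, (w + 2) ^ C ≤ N v ∧ N v ≤ M) (hω : ∀ i, ‖ω i‖ ≤ M) :
    (({n | n ∈ Fintype.piFinset (iv N w) ∧ ∃ H : ℝ, 2 ≤ H ∧ H ≤ Real.exp (Real.exp X) ∧
      Small (y n) ω d H (1 / (M * H) ^ E) (1 / (M * H) ^ (3 * C))}.ncard : ℕ) : ℝ) * (w + 1) ≤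
      5 * C * X * (w + 1) ^ m := by
  classical
  set I := ⌈3 * X⌉₊ with hI
  have hM2 : (2 : ℝ) ≤ M := by exact_mod_cast hM
  set 𝓑 : Finset (Fin m → ℕ) := (Finset.range (I + 1)).biUnion fun i =>
    excSet y ω d ((M ^ 2 ^ i : ℕ) : ℝ) (1 / (((M ^ 2 ^ i : ℕ) : ℝ) + 2) ^ (2 * E))
      (1 / (((M ^ 2 ^ i : ℕ) : ℝ) + 2) ^ C) N w with h𝓑
  have hsub : {n | n ∈ Fintype.piFinset (iv N w) ∧ ∃ H : ℝ, 2 ≤ H ∧ H ≤ Real.exp (Real.exp X) ∧
      Small (y n) ω d H (1 / (M * H) ^ E) (1 / (M * H) ^ (3 * C))} ⊆ (𝓑 : Set (Fin m → ℕ)) := by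
    rintro n ⟨hn, H, hH, hHX, hsm⟩
    have hex : ∃ i, H ≤ ((M ^ 2 ^ i : ℕ) : ℝ) := ⟨I, scales_bound hM hX hHX⟩
    set i := Nat.find hex with hi
    have hi1 : H ≤ ((M ^ 2 ^ i : ℕ) : ℝ) := Nat.find_spec hex
    have hiI : i ≤ I := Nat.find_min' hex (scales_bound hM hX hHX)
    have hMi : (M : ℝ) ≤ ((M ^ 2 ^ i : ℕ) : ℝ) := by
      have : M ^ 1 ≤ M ^ 2 ^ i := Nat.pow_le_pow_right (by omega) Nat.one_le_two_pow
      rw [pow_one] at this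
      exact_mod_cast this
    have hup : ((M ^ 2 ^ i : ℕ) : ℝ) ≤ (M * H) ^ 2 := by
      rcases Nat.eq_zero_or_pos i with h0 | hpos
      · rw [h0]
        simp only [pow_zero, pow_one]
        have e1 : (M : ℝ) ≤ M * H := le_mul_of_one_le_right (by linarith) (by linarith)
        nlinarith
      · obtain ⟨i', hi'⟩ := Nat.exists_eq_succ_of_ne_zero hpos.ne'
        have h1 : ¬ H ≤ ((M ^ 2 ^ i' : ℕ) : ℝ) := Nat.find_min hex (by omega)
        rw [not_le] at h1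
        have h2 : ((M ^ 2 ^ i : ℕ) : ℝ) = ((M ^ 2 ^ i' : ℕ) : ℝ) ^ 2 := by
          rw [hi', Nat.succ_eq_add_one, pow_succ 2, pow_mul]
          push_cast
          ring
        rw [h2]
        apply pow_le_pow_left₀ (Nat.cast_nonneg _)
        nlinarith
    rw [h𝓑, Finset.coe_biUnion, Set.mem_iUnion₂]
    refine ⟨i, Finset.mem_coe.2 (Finset.mem_range.2 (by omega)), ?_⟩
    unfold excSet
    rw [Finset.mem_coe, Finset.mem_filter]
    have hMH : (4 : ℝ) ≤ M * H := by nlinarith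
    refine ⟨hn, hsm.mono hi1 ?_ ?_⟩
    · apply one_div_le_one_div_of_le (by positivity)
      rw [pow_mul]
      apply pow_le_pow_left₀ (by positivity)
      have h3 : (M : ℝ) * H ≤ ((M ^ 2 ^ i : ℕ) : ℝ) * ((M ^ 2 ^ i : ℕ) : ℝ) :=
        mul_le_mul hMi hi1 (by linarith) (by positivity)
      nlinarith
    · apply one_div_le_one_div_of_le (by positivity)
      rw [pow_mul]
      apply pow_le_pow_left₀ (by positivity)
      have h4 : (M * H) ^ 3 = (M * H) ^ 2 * (M * H) := by ring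
      rw [h4]
      nlinarith
  have hcard : 𝓑.card * (w + 1) ≤ (I + 1) * (C * (w + 1) ^ m) := by
    have h1 : 𝓑.card ≤ ∑ i ∈ Finset.range (I + 1), (excSet y ω d ((M ^ 2 ^ i : ℕ) : ℝ)
      (1 / (((M ^ 2 ^ i : ℕ) : ℝ) + 2) ^ (2 * E)) (1 / (((M ^ 2 ^ i : ℕ) : ℝ) + 2) ^ C) N w).card :=
      Finset.card_biUnion_le
    calc 𝓑.card * (w + 1) ≤ (∑ i ∈ Finset.range (I + 1), (excSet y ω d ((M ^ 2 ^ i : ℕ) : ℝ)
      (1 / (((M ^ 2 ^ i : ℕ) : ℝ) + 2) ^ (2 * E)) (1 / (((M ^ 2 ^ i : ℕ) : ℝ) + 2) ^ C) N w).card) * (w + 1) :=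
          Nat.mul_le_mul_right _ h1
      _ ≤ ∑ i ∈ Finset.range (I + 1), C * (w + 1) ^ m := by
          rw [Finset.sum_mul]
          refine Finset.sum_le_sum fun i _ => ?_
          have hMi : M ≤ M ^ 2 ^ i := by
            have : M ^ 1 ≤ M ^ 2 ^ i := Nat.pow_le_pow_right (by omega) Nat.one_le_two_pow
            rwa [pow_one] at this
          refine h N w (M ^ 2 ^ i) ω (fun v => ⟨(hN v).1, (hN v).2.trans hMi⟩) fun i' => ?_
          refine (hω i').trans ?_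
          have : (M : ℝ) ≤ ((M ^ 2 ^ i : ℕ) : ℝ) := by exact_mod_cast hMi
          linarith
      _ = _ := by rw [Finset.sum_const, Finset.card_range, smul_eq_mul]
  have hn : {n | n ∈ Fintype.piFinset (iv N w) ∧ ∃ H : ℝ, 2 ≤ H ∧ H ≤ Real.exp (Real.exp X) ∧
      Small (y n) ω d H (1 / (M * H) ^ E) (1 / (M * H) ^ (3 * C))}.ncard ≤ 𝓑.card := by
    rw [← Set.ncard_coe_finset]
    exact Set.ncard_le_ncard hsub (Finset.finite_toSet _)
  have h2 : ((({n | n ∈ Fintype.piFinset (iv N w) ∧ ∃ H : ℝ, 2 ≤ H ∧ H ≤ Real.exp (Real.exp X) ∧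
      Small (y n) ω d H (1 / (M * H) ^ E) (1 / (M * H) ^ (3 * C))}.ncard * (w + 1) : ℕ)) : ℝ) ≤
      (((I + 1) * (C * (w + 1) ^ m) : ℕ) : ℝ) := by
    exact_mod_cast (Nat.mul_le_mul_right _ hn).trans hcard
  push_cast at h2
  refine h2.trans ?_
  have hI2 : (I : ℝ) + 1 ≤ 5 * X := by
    have := Nat.ceil_lt_add_one (by linarith : (0 : ℝ) ≤ 3 * X)
    rw [← hI] at this
    linarith
  have h3 : (0 : ℝ) ≤ C * (w + 1) ^ m := by positivity
  calc ((I : ℝ) + 1) * (C * (w + 1) ^ m) ≤ 5 * X * (C * (w + 1) ^ m) := mul_le_mul_of_nonneg_right hI2 h3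
    _ = _ := by ring

/-- an unbounded set of heights -/
theorem unbounded_count {C : ℕ} (h : ∀ (N : Fin m → ℕ) (w H : ℕ) (ω : Fin r → ℂ), (∀ v, (w + 2) ^ C ≤ N v ∧ N v ≤ H) →
      (∀ i, ‖ω i‖ ≤ (H : ℝ) + 2) →
      (excSet y ω d H (1 / ((H : ℝ) + 2) ^ E) (1 / ((H : ℝ) + 2) ^ C) N w).card * (w + 1) ≤ C * (w + 1) ^ m)
    (N : Fin m → ℕ) (w : ℕ) (𝓗 : Set ℝ) (h𝓗 : ¬ BddAbove 𝓗) (ω : Fin r → ℂ) (hN : ∀ v, (w + 2) ^ C ≤ N v) :
    {n | n ∈ Fintype.piFinset (iv N w) ∧ ∃ H₀ : ℝ, ∀ H ∈ 𝓗, H₀ ≤ H →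
      Small (y n) ω d H (1 / H ^ E) (1 / H ^ (3 * C))}.ncard * (w + 1) ≤ C * (w + 1) ^ m := by
  classical
  set S := (Fintype.piFinset (iv N w)).filter fun n => ∃ H₀ : ℝ, ∀ H ∈ 𝓗, H₀ ≤ H →
      Small (y n) ω d H (1 / H ^ E) (1 / H ^ (3 * C)) with hS
  have hex : ∀ n : Fin m → ℕ, ∃ H₀ : ℝ, n ∈ S → ∀ H ∈ 𝓗, H₀ ≤ H →
      Small (y n) ω d H (1 / H ^ E) (1 / H ^ (3 * C)) := by
    intro n
    by_cases hn : n ∈ S
    · obtain ⟨H₀, h⟩ := (Finset.mem_filter.1 hn).2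
      exact ⟨H₀, fun _ => h⟩
    · exact ⟨0, fun h => absurd h hn⟩
  choose H₀ hH₀ using hex
  obtain ⟨B, hB⟩ := (S.image H₀).bddAbove
  obtain ⟨B', hB'⟩ := (Finset.univ.image fun v => (N v : ℝ)).bddAbove
  obtain ⟨B'', hB''⟩ := (Finset.univ.image fun i => ‖ω i‖).bddAbove
  obtain ⟨H, hH𝓗, hH⟩ := not_bddAbove_iff.1 h𝓗 (max B (max 2 (max B' B'')))
  have h1 : B ≤ H := (le_max_left _ _).trans hH.le
  have h2 : (2 : ℝ) ≤ H := ((le_max_left _ _).trans (le_max_right _ _)).trans hH.le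
  have h3 : max B' B'' ≤ H := ((le_max_right _ _).trans (le_max_right _ _)).trans hH.le
  have hset : {n | n ∈ Fintype.piFinset (iv N w) ∧ ∃ H₀ : ℝ, ∀ H ∈ 𝓗, H₀ ≤ H →
      Small (y n) ω d H (1 / H ^ E) (1 / H ^ (3 * C))} = (S : Set (Fin m → ℕ)) := by
    ext n
    rw [Finset.mem_coe, hS, Finset.mem_filter]
    rfl
  rw [hset, Set.ncard_coe_finset]
  refine le_trans (Nat.mul_le_mul_right _ (Finset.card_le_card ?_)) (real_scale h N w H h2 ω (fun v => ⟨hN v, ?_⟩) ?_)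
  · intro n hn
    unfold excSet
    rw [Finset.mem_filter]
    refine ⟨(Finset.mem_filter.1 hn).1, hH₀ n hn H hH𝓗 (le_trans ?_ h1)⟩
    exact hB (by rw [Finset.coe_image]; exact ⟨n, hn, rfl⟩)
  · exact (hB' (by rw [Finset.coe_image]; exact ⟨v, Finset.mem_coe.2 (Finset.mem_univ _), rfl⟩)).trans
      ((le_max_left _ _).trans h3)
  · intro i
    exact (hB'' (by rw [Finset.coe_image]; exact ⟨i, Finset.mem_coe.2 (Finset.mem_univ _), rfl⟩)).trans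
      ((le_max_right _ _).trans h3)

end Pool.Agent.Zk39.PV
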