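import Mathlib
import Pool.Agent.Zk39.PV.Range
import Pool.Agent.TH456.TM.Inst

/-!
# Polynomials in two groups of variables; measures of algebraic independence
-/

set_option autoImplicit false

namespace Pool.Agent.Zk39.PV

section It

variable {σ τ : Type} [Fintype σ] [Fintype τ] [DecidableEq σ] [DecidableEq τ]

/-- the exponents of the first variables -/
noncomputable def lft (u : σ ⊕ τ →₀ ℕ) : σ →₀ ℕ := Finsupp.equivFunOnFinite.symm fun a => u (Sum.inl a)

/-- the exponents of the second variables -/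
noncomputable def rgt (u : σ ⊕ τ →₀ ℕ) : τ →₀ ℕ := Finsupp.equivFunOnFinite.symm fun b => u (Sum.inr b)

theorem lft_rgt_inj {u u' : σ ⊕ τ →₀ ℕ} (h : lft u = lft u') (h' : rgt u = rgt u') : u = u' := by
  ext x
  rcases x with a | b
  · exact DFunLike.congr_fun h a
  · exact DFunLike.congr_fun h' b

/-- a polynomial in two groups of variables, as a polynomial in the first with polynomials in the second as
coefficients -/
noncomputable def it (P : MvPolynomial (σ ⊕ τ) ℤ) : MvPolynomial σ (MvPolynomial τ ℤ) :=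
  ∑ u ∈ P.support, MvPolynomial.monomial (lft u) (MvPolynomial.monomial (rgt u) (P.coeff u))

theorem it_coeff (P : MvPolynomial (σ ⊕ τ) ℤ) (s : σ →₀ ℕ) :
    (it P).coeff s = ∑ u ∈ P.support, if lft u = s then MvPolynomial.monomial (rgt u) (P.coeff u) else 0 := by
  rw [it, MvPolynomial.coeff_sum]
  simp only [MvPolynomial.coeff_monomial]

theorem it_coeff_coeff (P : MvPolynomial (σ ⊕ τ) ℤ) (u : σ ⊕ τ →₀ ℕ) :
    ((it P).coeff (lft u)).coeff (rgt u) = P.coeff u := by
  rw [it_coeff, MvPolynomial.coeff_sum]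
  rw [Finset.sum_eq_single u]
  · rw [if_pos rfl, MvPolynomial.coeff_monomial, if_pos rfl]
  · intro u' _ hu'
    by_cases h : lft u' = lft u
    · rw [if_pos h, MvPolynomial.coeff_monomial, if_neg]
      intro h'
      exact hu' (lft_rgt_inj h h')
    · rw [if_neg h, MvPolynomial.coeff_zero]
  · intro h
    rw [if_pos rfl, MvPolynomial.notMem_support_iff.1 h, MvPolynomial.coeff_monomial]
    simp

theorem it_coeff_le {P : MvPolynomial (σ ⊕ τ) ℤ} {H : ℝ} (hH : 0 ≤ H) (hP : ∀ u, |((P.coeff u : ℤ) : ℝ)| ≤ H)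
    (s : σ →₀ ℕ) (e : τ →₀ ℕ) : |((((it P).coeff s).coeff e : ℤ) : ℝ)| ≤ H := by
  by_cases h : ∃ u : σ ⊕ τ →₀ ℕ, lft u = s ∧ rgt u = e
  · obtain ⟨u, rfl, rfl⟩ := h
    rw [it_coeff_coeff]
    exact hP u
  · rw [it_coeff, MvPolynomial.coeff_sum, Finset.sum_eq_zero]
    · simpa using hH
    · intro u _
      by_cases h1 : lft u = s
      · rw [if_pos h1, MvPolynomial.coeff_monomial, if_neg]
        intro h2
        exact h ⟨u, h1, h2⟩
      · rw [if_neg h1, MvPolynomial.coeff_zero]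

theorem sum_lft_le (u : σ ⊕ τ →₀ ℕ) : ∑ a, lft u a ≤ ∑ x, u x := by
  rw [Fintype.sum_sum_type]
  exact Nat.le_add_right _ _

theorem sum_rgt_le (u : σ ⊕ τ →₀ ℕ) : ∑ a, rgt u a ≤ ∑ x, u x := by
  rw [Fintype.sum_sum_type]
  exact Nat.le_add_left _ _

theorem it_totalDegree {P : MvPolynomial (σ ⊕ τ) ℤ} {d : ℕ} (hP : P.totalDegree ≤ d) :
    (it P).totalDegree ≤ d ∧ ∀ s, ((it P).coeff s).totalDegree ≤ d := by
  have hu : ∀ u ∈ P.support, ∑ x, u x ≤ d := fun u hu => mem_mons.1 (support_mons hP hu)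
  constructor
  · refine (MvPolynomial.totalDegree_finsetSum _ _).trans (Finset.sup_le fun u h => ?_)
    refine (MvPolynomial.totalDegree_monomial_le _ _).trans ?_
    rw [Finsupp.sum_fintype _ _ (fun _ => rfl)]
    exact (sum_lft_le u).trans (hu u h)
  · intro s
    rw [it_coeff]
    refine (MvPolynomial.totalDegree_finsetSum _ _).trans (Finset.sup_le fun u h => ?_)
    split_ifs
    · refine (MvPolynomial.totalDegree_monomial_le _ _).trans ?_
      rw [Finsupp.sum_fintype _ _ (fun _ => rfl)]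
      exact (sum_rgt_le u).trans (hu u h)
    · rw [MvPolynomial.totalDegree_zero]
      exact Nat.zero_le _

theorem it_eval (P : MvPolynomial (σ ⊕ τ) ℤ) (l : σ → ℂ) (ω : τ → ℂ) :
    MvPolynomial.eval₂ (MvPolynomial.aeval ω : MvPolynomial τ ℤ →ₐ[ℤ] ℂ).toRingHom l (it P) =
      MvPolynomial.aeval (Sum.elim l ω) P := by
  rw [it, MvPolynomial.eval₂_sum, MvPolynomial.aeval_def, MvPolynomial.eval₂_eq']
  refine Finset.sum_congr rfl fun u _ => ?_
  rw [MvPolynomial.eval₂_monomial, Finsupp.prod_fintype _ _ (fun _ => pow_zero _), Fintype.prod_sum_type]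
  have h1 : (MvPolynomial.aeval ω : MvPolynomial τ ℤ →ₐ[ℤ] ℂ).toRingHom
      (MvPolynomial.monomial (rgt u) (P.coeff u)) = algebraMap ℤ ℂ (P.coeff u) * ∏ b, ω b ^ rgt u b := by
    show MvPolynomial.aeval ω (MvPolynomial.monomial (rgt u) (P.coeff u)) = _
    rw [MvPolynomial.aeval_monomial, Finsupp.prod_fintype _ _ (fun _ => pow_zero _)]
  rw [h1]
  simp only [Sum.elim_inl, Sum.elim_inr]
  have h2 : ∏ i, l i ^ (lft u) i = ∏ x, l x ^ u (Sum.inl x) := rfl
  have h3 : ∏ b, ω b ^ (rgt u) b = ∏ x, ω x ^ u (Sum.inr x) := rfl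
  rw [h2, h3]
  ring

end It

/-- **The bound of the conjecture** for the numbers `x`, for polynomials of degree at most `d` and height at
most `H`: `|P (x)| ≥ η`. -/
def Bound {ι : Type} (x : ι → ℂ) (d : ℕ) (H η : ℝ) : Prop :=
  ∀ P : MvPolynomial ι ℤ, P ≠ 0 → P.totalDegree ≤ d → (∀ s, |((P.coeff s : ℤ) : ℝ)| ≤ H) →
    η ≤ ‖MvPolynomial.aeval x P‖

/-- the conjectured measure for the numbers `ω`, with the constant `E` -/
def Meas {r : ℕ} (ω : Fin r → ℂ) (d E : ℕ) : Prop := ∀ H : ℝ, 2 ≤ H → Bound ω d H (1 / H ^ E)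

theorem meas_empty (ω : Fin 0 → ℂ) (d : ℕ) : Meas ω d 0 := by
  intro H _ P hP0 _ _
  rw [pow_zero, div_one]
  have h1 : P = MvPolynomial.C (P.coeff 0) := MvPolynomial.eq_C_of_isEmpty P
  have h2 : P.coeff 0 ≠ 0 := by
    intro h
    rw [h, MvPolynomial.C_0] at h1
    exact hP0 h1
  rw [h1, MvPolynomial.aeval_C]
  simp only [algebraMap_int_eq, eq_intCast, Complex.norm_intCast]
  exact_mod_cast Int.one_le_abs h2

theorem meas_one {θ : ℂ} (h : Pool.Agent.TH456.TM.MeasT θ) (d : ℕ) : ∃ E : ℕ, Meas (fun _ : Fin 1 => θ) d E := by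
  obtain ⟨κ, c, hκ, hc, h1⟩ := h d
  obtain ⟨a, ha⟩ := exists_nat_ge κ
  obtain ⟨b, hb⟩ := pow_unbounded_of_one_lt (1 / c) (by norm_num : (1 : ℝ) < 2)
  refine ⟨a + b, fun H hH P hP0 hPd hPH => ?_⟩
  have hH0 : 0 < H := by linarith
  have hH1 : 1 ≤ H := by linarith
  set Q : Polynomial ℤ := ∑ u ∈ P.support, Polynomial.C (P.coeff u) * Polynomial.X ^ (u 0) with hQ
  have hcoef : ∀ u : Fin 1 →₀ ℕ, Q.coeff (u 0) = P.coeff u := by
    intro u
    rw [hQ, Polynomial.finsetSum_coeff]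
    simp only [Polynomial.coeff_C_mul_X_pow]
    rw [Finset.sum_eq_single u]
    · rw [if_pos rfl]
    · intro u' _ hu'
      rw [if_neg]
      intro h
      apply hu'
      refine Finsupp.ext fun i => ?_
      have hi : i = 0 := Subsingleton.elim _ _
      rw [hi]
      exact h.symm
    · intro h
      rw [if_pos rfl]
      exact MvPolynomial.notMem_support_iff.1 h
  have hQ0 : Q ≠ 0 := by
    obtain ⟨u, hu⟩ := MvPolynomial.ne_zero_iff.1 hP0
    intro h
    apply hu
    rw [← hcoef, h, Polynomial.coeff_zero]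
  have hQd : Q.natDegree ≤ d := by
    rw [hQ]
    refine Polynomial.natDegree_sum_le_of_forall_le _ _ fun u hu => ?_
    refine (Polynomial.natDegree_C_mul_X_pow_le _ _).trans ?_
    have h2 := (MvPolynomial.le_totalDegree hu).trans hPd
    rw [Finsupp.sum_fintype _ _ (fun _ => rfl), Fin.sum_univ_one] at h2
    exact h2
  have hQH : ∀ j, |(Q.coeff j : ℝ)| ≤ H := by
    intro j
    have h2 := hcoef (Finsupp.single 0 j)
    rw [Finsupp.single_eq_same] at h2
    rw [h2]
    exact hPH _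
  have hQv : Polynomial.aeval θ Q = MvPolynomial.aeval (fun _ : Fin 1 => θ) P := by
    rw [hQ, map_sum, MvPolynomial.aeval_def, MvPolynomial.eval₂_eq']
    refine Finset.sum_congr rfl fun u _ => ?_
    rw [map_mul, Polynomial.aeval_C, map_pow, Polynomial.aeval_X, Fin.prod_univ_one]
  have h2 := h1 Q hQ0 hQd H hH1 hQH
  rw [hQv] at h2
  have h3 : H ^ κ ≤ H ^ a := by
    rw [← Real.rpow_natCast]
    exact Real.rpow_le_rpow_of_exponent_le hH1 ha
  have h4 : 1 < c * 2 ^ b := by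
    rw [div_lt_iff₀ hc] at hb
    linarith
  have h5 : (2 : ℝ) ^ b ≤ H ^ b := pow_le_pow_left₀ (by norm_num) hH _
  rw [div_le_iff₀ (by positivity), pow_add]
  have h6 : c ≤ H ^ a * ‖MvPolynomial.aeval (fun _ : Fin 1 => θ) P‖ :=
    h2.trans (mul_le_mul_of_nonneg_right h3 (norm_nonneg _))
  calc 1 ≤ c * 2 ^ b := h4.le
    _ ≤ (H ^ a * ‖MvPolynomial.aeval (fun _ : Fin 1 => θ) P‖) * H ^ b :=
        mul_le_mul h6 h5 (by positivity) (by positivity)
    _ = _ := by ring

end Pool.Agent.Zk39.PV
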