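import Mathlib
import Pool.Agent.Zk39.PV.Conv

/-!
# The bound of the conjecture for the logarithms of the values of rational functions
-/

set_option autoImplicit false

namespace Pool.Agent.Zk39.PV

open Filter

/-- reindexing -/
theorem Bound.reindex {ι ι' : Type} (e : ι' ≃ ι) {x : ι → ℂ} {d : ℕ} {H η : ℝ} (h : Bound x d H η) :
    Bound (x ∘ e) d H η := by
  intro P hP0 hPd hPH
  have h1 := h (MvPolynomial.rename e P) (by
    intro h0
    exact hP0 (MvPolynomial.rename_injective _ e.injective (by rw [h0, map_zero])))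
    ((MvPolynomial.totalDegree_rename_le _ _).trans hPd) (by
    intro s
    by_cases hs : s ∈ (MvPolynomial.rename e P).support
    · rw [MvPolynomial.mem_support_iff] at hs
      obtain ⟨u, hu, -⟩ := MvPolynomial.coeff_rename_ne_zero e P s hs
      rw [← hu, MvPolynomial.coeff_rename_mapDomain _ e.injective]
      exact hPH u
    · rw [MvPolynomial.notMem_support_iff.1 hs]
      have := (abs_nonneg _).trans (hPH 0)
      simpa using this)
  rwa [MvPolynomial.aeval_rename] at h1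

/-- there are logarithms `l p` of the numbers `y p` with `|Im l| ≤ H` for which the bound does not hold -/
def Fails {ι : Type} {r : ℕ} (y : ι → ℝ) (ω : Fin r → ℂ) (d : ℕ) (H η : ℝ) : Prop :=
  ∃ l : ι → ℂ, (∀ p, Complex.exp (l p) = (y p : ℂ)) ∧ (∀ p, |(l p).im| ≤ H) ∧ ¬ Bound (Sum.elim l ω) d H η

theorem Fails.small {ι : Type} [Fintype ι] [DecidableEq ι] {r : ℕ} {y : ι → ℝ} {ω : Fin r → ℂ} {d : ℕ}
    {H δ η : ℝ} (hH : 0 ≤ H) (h : Fails y ω d H η) (hω : Bound ω d H δ) : Small y ω d H δ η := by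
  obtain ⟨l, h1, h2, h3⟩ := h
  unfold Bound at h3
  push Not at h3
  obtain ⟨P, hP0, hPd, hPH, hPv⟩ := h3
  refine ⟨l, h1, h2, it P, (it_totalDegree hPd).1, fun s => ⟨(it_totalDegree hPd).2 s, fun e => it_coeff_le hH hPH s e⟩,
    ?_, by rw [it_eval]; exact hPv⟩
  obtain ⟨u, hu⟩ := MvPolynomial.ne_zero_iff.1 hP0
  refine ⟨lft u, hω _ ?_ ((it_totalDegree hPd).2 _) (fun e => it_coeff_le hH hPH _ e)⟩
  intro h0
  apply hu
  rw [← it_coeff_coeff, h0, MvPolynomial.coeff_zero]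

/-- the tuples `n` with `N v ≤ n v ≤ N v + w` -/
def Box {m : ℕ} (N : Fin m → ℕ) (w : ℕ) : Set (Fin m → ℕ) := {n | ∀ v, N v ≤ n v ∧ n v ≤ N v + w}

theorem mem_box {m : ℕ} {N : Fin m → ℕ} {w : ℕ} {n : Fin m → ℕ} : n ∈ Box N w ↔ n ∈ Fintype.piFinset (iv N w) := by
  rw [Fintype.mem_piFinset]
  simp only [iv, Finset.mem_Icc]
  exact Iff.rfl

theorem box_finite {m : ℕ} (N : Fin m → ℕ) (w : ℕ) : (Box N w).Finite := by
  have : Box N w = (Fintype.piFinset (iv N w) : Set (Fin m → ℕ)) := by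
    ext n
    rw [mem_box]
    rfl
  rw [this]
  exact Finset.finite_toSet _

/-- **General theorem.** -/
theorem main {K : ℕ} (m r d E : ℕ) (g : Fin K → RatFunc ℚ) (hg : MI g) :
    ∃ C : ℕ, 0 < C ∧ ∀ (N : Fin m → ℕ) (w : ℕ) (ω : Fin r → ℂ), (∀ v, (w + 2) ^ C ≤ N v) →
      -- relative to arbitrary numbers, one height
      (∀ H : ℝ, 2 ≤ H → (∀ v, (N v : ℝ) ≤ H) → (∀ i, ‖ω i‖ ≤ H) →
        {n ∈ Box N w | Small (vals g n) ω d H (1 / H ^ E) (1 / H ^ C)}.ncard * (w + 1) ≤ C * (w + 1) ^ m) ∧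
      -- a range of heights
      (Meas ω d E → ∀ M : ℕ, 2 ≤ M → (∀ v, N v ≤ M) → (∀ i, ‖ω i‖ ≤ M) → ∀ X : ℝ, 1 ≤ X →
        ({n ∈ Box N w | ∃ H : ℝ, 2 ≤ H ∧ H ≤ Real.exp (Real.exp X) ∧
          Fails (vals g n) ω d H (1 / (M * H) ^ C)}.ncard : ℝ) * (w + 1) ≤ C * X * (w + 1) ^ m) ∧
      -- an unbounded set of heights
      (Meas ω d E → ∀ 𝓗 : Set ℝ, ¬ BddAbove 𝓗 →
        {n ∈ Box N w | ∃ H₀ : ℝ, ∀ H ∈ 𝓗, H₀ ≤ H → Fails (vals g n) ω d H (1 / H ^ C)}.ncard * (w + 1) ≤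
          C * (w + 1) ^ m) := by
  obtain ⟨C₀, hC₀, h₀⟩ := scale_count m r d (2 * E) g hg
  obtain ⟨C₁, hC₁, h₁⟩ := scale_count m r d E g hg
  refine ⟨5 * (C₀ + C₁), by omega, fun N w ω hN => ⟨fun H hH hNH hω => ?_, fun hM M hM2 hNM hω X hX => ?_,
    fun hM 𝓗 h𝓗 => ?_⟩⟩
  · classical
    have hN1 : ∀ v, (w + 2) ^ C₁ ≤ N v ∧ (N v : ℝ) ≤ H := fun v =>
      ⟨(Nat.pow_le_pow_right (by omega) (by omega)).trans (hN v), hNH v⟩
    have h2 := real_scale h₁ N w H hH ω hN1 hω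
    refine le_trans (Nat.mul_le_mul_right _ ?_) (h2.trans (Nat.mul_le_mul_right _ (by omega)))
    rw [← Set.ncard_coe_finset]
    refine Set.ncard_le_ncard ?_ (Finset.finite_toSet _)
    rintro n ⟨hn, hs⟩
    unfold excSet
    rw [Finset.mem_coe, Finset.mem_filter]
    refine ⟨mem_box.1 hn, hs.mono le_rfl le_rfl ?_⟩
    apply one_div_le_one_div_of_le (by positivity)
    exact pow_le_pow_right₀ (by linarith) (by omega)
  · have hN1 : ∀ v, (w + 2) ^ C₀ ≤ N v ∧ N v ≤ M := fun v =>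
      ⟨(Nat.pow_le_pow_right (by omega) (by omega)).trans (hN v), hNM v⟩
    have h2 := range_count h₀ N w M hM2 X hX ω hN1 hω
    have hM' : (2 : ℝ) ≤ M := by exact_mod_cast hM2
    have hsub : {n ∈ Box N w | ∃ H : ℝ, 2 ≤ H ∧ H ≤ Real.exp (Real.exp X) ∧
          Fails (vals g n) ω d H (1 / (M * H) ^ (5 * (C₀ + C₁)))} ⊆
        {n | n ∈ Fintype.piFinset (iv N w) ∧ ∃ H : ℝ, 2 ≤ H ∧ H ≤ Real.exp (Real.exp X) ∧
          Small (vals g n) ω d H (1 / (M * H) ^ E) (1 / (M * H) ^ (3 * C₀))} := by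
      rintro n ⟨hn, H, hH, hHX, hf⟩
      have hMH : 1 ≤ (M : ℝ) * H := by nlinarith
      refine ⟨mem_box.1 hn, H, hH, hHX, (hf.small (by linarith) (hM H hH)).mono le_rfl ?_ ?_⟩
      · apply one_div_le_one_div_of_le (by positivity)
        apply pow_le_pow_left₀ (by linarith)
        nlinarith
      · apply one_div_le_one_div_of_le (by positivity)
        exact pow_le_pow_right₀ hMH (by omega)
    have h3 := Set.ncard_le_ncard hsub ((Finset.finite_toSet (Fintype.piFinset (iv N w))).subset fun n hn => hn.1)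
    have h4 : (0 : ℝ) < (w : ℝ) + 1 := by positivity
    refine le_trans (mul_le_mul_of_nonneg_right (by exact_mod_cast h3) h4.le) (h2.trans ?_)
    have h5 : (0 : ℝ) ≤ X * ((w : ℝ) + 1) ^ m := by positivity
    have h6 : (5 * C₀ : ℝ) ≤ ((5 * (C₀ + C₁) : ℕ) : ℝ) := by
      push_cast
      linarith [show (0 : ℝ) ≤ C₁ from Nat.cast_nonneg _]
    calc 5 * (C₀ : ℝ) * X * ((w : ℝ) + 1) ^ m = 5 * C₀ * (X * ((w : ℝ) + 1) ^ m) := by ring
      _ ≤ ((5 * (C₀ + C₁) : ℕ) : ℝ) * (X * ((w : ℝ) + 1) ^ m) := mul_le_mul_of_nonneg_right h6 h5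
      _ = _ := by ring
  · have hN1 : ∀ v, (w + 2) ^ C₁ ≤ N v := fun v =>
      (Nat.pow_le_pow_right (by omega) (by omega)).trans (hN v)
    have h2 := unbounded_count h₁ N w 𝓗 h𝓗 ω hN1
    refine le_trans (Nat.mul_le_mul_right _ ?_) (h2.trans (Nat.mul_le_mul_right _ (by omega)))
    refine Set.ncard_le_ncard ?_ ((Finset.finite_toSet (Fintype.piFinset (iv N w))).subset fun n hn => hn.1)
    rintro n ⟨hn, H₀, hf⟩
    refine ⟨mem_box.1 hn, max H₀ 2, fun H hH hHH => ?_⟩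
    have hH2 : 2 ≤ H := (le_max_right _ _).trans hHH
    refine ((hf H hH ((le_max_left _ _).trans hHH)).small (by linarith) (hM H hH2)).mono le_rfl le_rfl ?_
    apply one_div_le_one_div_of_le (by positivity)
    exact pow_le_pow_right₀ (by linarith) (by omega)

/-! ### Consecutive integers -/

/-- the rational functions `X, X + 1, …, X + k - 1` -/
noncomputable def shifts (k : ℕ) : Fin k → RatFunc ℚ := fun i =>
  algebraMap (Polynomial ℚ) (RatFunc ℚ) (Polynomial.X + Polynomial.C ((i : ℕ) : ℚ))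

theorem shifts_MI (k : ℕ) : MI (shifts k) := by
  intro w c h
  set p : Fin k → Polynomial ℚ := fun i => Polynomial.X + Polynomial.C ((i : ℕ) : ℚ) with hp
  have hp0 : ∀ i, p i ≠ 0 := fun i => (Polynomial.monic_X_add_C _).ne_zero
  set P : Polynomial ℚ := ∏ i, p i ^ (w i).toNat with hP
  set Q : Polynomial ℚ := ∏ i, p i ^ (-w i).toNat with hQ
  have hP0 : P ≠ 0 := Finset.prod_ne_zero_iff.2 fun i _ => pow_ne_zero _ (hp0 i)
  have hPQ : P = Polynomial.C c * Q := by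
    apply RatFunc.algebraMap_injective ℚ
    rw [map_mul, RatFunc.algebraMap_C, ← h, hP, hQ, map_prod, map_prod, ← Finset.prod_mul_distrib]
    refine Finset.prod_congr rfl fun i _ => ?_
    have h1 : algebraMap (Polynomial ℚ) (RatFunc ℚ) (p i) ≠ 0 := by
      rw [Ne, map_eq_zero_iff _ (RatFunc.algebraMap_injective ℚ)]
      exact hp0 i
    rw [map_pow, map_pow, ← zpow_natCast, ← zpow_natCast]
    show _ = algebraMap (Polynomial ℚ) (RatFunc ℚ) (p i) ^ w i * _
    rw [← zpow_add₀ h1]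
    congr 1
    omega
  have hc : c ≠ 0 := by
    intro h0
    rw [h0, Polynomial.C_0, zero_mul] at hPQ
    exact hP0 hPQ
  have hpe : ∀ i i' : Fin k, i ≠ i' → (p i).eval (-((i' : ℕ) : ℚ)) ≠ 0 := by
    intro i i' hii
    rw [hp]
    simp only [Polynomial.eval_add, Polynomial.eval_X, Polynomial.eval_C]
    intro h0
    have h1 : ((i : ℕ) : ℚ) = ((i' : ℕ) : ℚ) := by linarith
    exact hii (Fin.ext (by exact_mod_cast h1))
  have hpe0 : ∀ i : Fin k, (p i).eval (-((i : ℕ) : ℚ)) = 0 := by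
    intro i
    rw [hp]
    simp
  funext i
  rw [Pi.zero_apply]
  have h1 := congrArg (Polynomial.eval (-((i : ℕ) : ℚ))) hPQ
  rw [hP, hQ, Polynomial.eval_mul, Polynomial.eval_C, Polynomial.eval_prod, Polynomial.eval_prod] at h1
  rcases lt_trichotomy (w i) 0 with hw | hw | hw
  · exfalso
    have h2 : ∏ j, Polynomial.eval (-((i : ℕ) : ℚ)) (p j ^ (-w j).toNat) = 0 := by
      refine Finset.prod_eq_zero (Finset.mem_univ i) ?_
      rw [Polynomial.eval_pow, hpe0, zero_pow (by omega)]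
    rw [h2, mul_zero] at h1
    obtain ⟨j, -, hj⟩ := Finset.prod_eq_zero_iff.1 h1
    rw [Polynomial.eval_pow] at hj
    by_cases hji : j = i
    · subst hji
      have h3 : (w j).toNat = 0 := by omega
      rw [h3, pow_zero] at hj
      exact one_ne_zero hj
    · exact pow_ne_zero _ (hpe j i hji) hj
  · exact hw
  · exfalso
    have h2 : ∏ j, Polynomial.eval (-((i : ℕ) : ℚ)) (p j ^ (w j).toNat) = 0 := by
      refine Finset.prod_eq_zero (Finset.mem_univ i) ?_
      rw [Polynomial.eval_pow, hpe0, zero_pow (by omega)]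
    rw [h2] at h1
    have h4 := (mul_eq_zero.1 h1.symm).resolve_left hc
    obtain ⟨j, -, hj⟩ := Finset.prod_eq_zero_iff.1 h4
    rw [Polynomial.eval_pow] at hj
    by_cases hji : j = i
    · subst hji
      have h3 : (-w j).toNat = 0 := by omega
      rw [h3, pow_zero] at hj
      exact one_ne_zero hj
    · exact pow_ne_zero _ (hpe j i hji) hj

end Pool.Agent.Zk39.PV
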